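import Pool.Agent.Lib.MP_1e09a3_nt.CF.Stmts73

/-!
Complete flows, module 1: values of integer polynomials on polydiscs.
-/

open MvPolynomial

namespace Pool.Agent.Lib.MP_1e09a3_nt.CF

theorem cons_28 {d : ℕ} (s : Fin d → ℂ) (y : ℂ) (G : S (d + 1)) :
    aeval (Fin.cons y s) G = Polynomial.eval y (Polynomial.map
      ((aeval s : S d →ₐ[ℤ] ℂ) : S d →+* ℂ) (finSuccEquiv ℤ d G)) := by
  have h : ((aeval (Fin.cons y s) : S (d + 1) →ₐ[ℤ] ℂ) : S (d + 1) →+* ℂ) =
      (Polynomial.evalRingHom y).comp ((Polynomial.mapRingHom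
        ((aeval s : S d →ₐ[ℤ] ℂ) : S d →+* ℂ)).comp
        ((finSuccEquiv ℤ d : S (d + 1) ≃ₐ[ℤ] Polynomial (S d)) : S (d + 1) →+*
          Polynomial (S d))) := by
    apply MvPolynomial.ringHom_ext
    · intro r
      simp
    · intro i
      refine Fin.cases ?_ (fun j => ?_) i
      · simp [finSuccEquiv_X_zero]
      · simp [finSuccEquiv_X_succ]
  exact congrArg (fun f => f G) h

theorem cont_28 {d : ℕ} (G : S d) : Continuous fun w : Fin d → ℂ => aeval w G := by
  have h : (fun w : Fin d → ℂ => aeval w G) =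
      fun w => eval w (map (algebraMap ℤ ℂ) G) := by
    funext w
    rw [eval_map, aeval_def]
  rw [h]
  exact MvPolynomial.continuous_eval _

/-- the finitely many coefficients are bounded on a polydisc -/
theorem bound_28 {d : ℕ} (g : ℕ → S d) (n : ℕ) (c : Fin d → ℂ) :
    ∃ B : ℝ, 0 ≤ B ∧ ∀ w : Fin d → ℂ, (∀ i, ‖w i - c i‖ ≤ 2) → ∀ k < n, ‖aeval w (g k)‖ ≤ B := by
  induction n with
  | zero => exact ⟨0, le_refl _, fun w _ k hk => absurd hk (Nat.not_lt_zero k)⟩
  | succ n ih =>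
    obtain ⟨B, hB, h⟩ := ih
    obtain ⟨B', hB'⟩ := (isCompact_closedBall c (2 : ℝ)).exists_bound_of_continuousOn
      (f := fun w : Fin d → ℂ => aeval w (g n)) (cont_28 (g n)).continuousOn
    refine ⟨max B B', le_max_of_le_left hB, fun w hw k hk => ?_⟩
    rcases Nat.lt_succ_iff_lt_or_eq.1 hk with h1 | h1
    · exact (h w hw k h1).trans (le_max_left _ _)
    · subst h1
      refine (hB' w ?_).trans (le_max_right _ _)
      rw [Metric.mem_closedBall, dist_pi_le_iff (by norm_num)]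
      intro i
      rw [dist_eq_norm]
      exact hw i

/-- polynomials of one variable are bounded below far out -/
theorem far_28 (p : Polynomial ℂ) (n : ℕ) (hn : p.natDegree < n + 1) (B ε : ℝ) (hB : 0 ≤ B)
    (hε : 0 < ε) (h1 : ∀ k < n, ‖p.coeff k‖ ≤ B) (h2 : ε ≤ ‖p.coeff n‖) (x : ℂ) (hx : 1 ≤ ‖x‖)
    (hx' : 2 * B * n / ε ≤ ‖x‖) : ε / 2 ≤ ‖p.eval x‖ := by
  rw [Polynomial.eval_eq_sum_range' hn, Finset.sum_range_succ]
  have h3 : ‖∑ k ∈ Finset.range n, p.coeff k * x ^ k‖ ≤ B * n * ‖x‖ ^ (n - 1) := by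
    refine (norm_sum_le _ _).trans ?_
    refine (Finset.sum_le_card_nsmul _ _ (B * ‖x‖ ^ (n - 1)) fun k hk => ?_).trans ?_
    · rw [Finset.mem_range] at hk
      rw [norm_mul, norm_pow]
      exact mul_le_mul (h1 k hk) (pow_le_pow_right₀ hx (by omega)) (by positivity) hB
    · rw [nsmul_eq_mul, Finset.card_range]
      apply le_of_eq
      ring
  have h4 : ε * ‖x‖ ^ n ≤ ‖p.coeff n * x ^ n‖ := by
    rw [norm_mul, norm_pow]
    exact mul_le_mul_of_nonneg_right h2 (by positivity)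
  have h5 : B * n * ‖x‖ ^ (n - 1) ≤ ε / 2 * ‖x‖ ^ n := by
    rcases Nat.eq_zero_or_pos n with h0 | h0
    · subst h0
      simp
      linarith
    · have h6 : ‖x‖ ^ n = ‖x‖ ^ (n - 1) * ‖x‖ := by
        rw [← pow_succ]
        congr 1
        omega
      rw [h6]
      rw [div_le_iff₀ hε] at hx'
      have h7 : 0 ≤ ‖x‖ ^ (n - 1) := by positivity
      nlinarith [mul_le_mul_of_nonneg_left hx' h7]
  have h6 : 1 ≤ ‖x‖ ^ n := one_le_pow₀ hx
  have h7 : ‖p.coeff n * x ^ n‖ - ‖∑ k ∈ Finset.range n, p.coeff k * x ^ k‖ ≤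
      ‖∑ k ∈ Finset.range n, p.coeff k * x ^ k + p.coeff n * x ^ n‖ := by
    have := norm_sub_le (∑ k ∈ Finset.range n, p.coeff k * x ^ k + p.coeff n * x ^ n)
      (∑ k ∈ Finset.range n, p.coeff k * x ^ k)
    rw [add_sub_cancel_left] at this
    linarith
  nlinarith

theorem avoid_28 : AvoidStmt := by
  intro d
  induction d with
  | zero =>
    intro h hh
    refine ⟨0, 1, one_pos, fun w _ => ?_⟩
    have h1 := eq_C_of_isEmpty h
    have h2 : coeff 0 h ≠ 0 := by
      intro h3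
      rw [h3] at h1
      exact hh (by rw [h1, C_0])
    rw [h1, aeval_C]
    have h3 : (1 : ℝ) ≤ |((coeff 0 h : ℤ) : ℝ)| := by
      have := Int.one_le_abs h2
      exact_mod_cast this
    simpa [Complex.norm_intCast] using h3
  | succ d ih =>
    intro h hh
    set g := finSuccEquiv ℤ d h with hg
    have hg0 : g ≠ 0 := by
      rw [hg]
      exact (map_ne_zero_iff _ (finSuccEquiv ℤ d).injective).2 hh
    obtain ⟨c, ε, hε, hc⟩ := ih g.leadingCoeff (Polynomial.leadingCoeff_ne_zero.2 hg0)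
    obtain ⟨B, hB, hb⟩ := bound_28 (fun k => g.coeff k) g.natDegree c
    set R : ℝ := max 1 (2 * B * g.natDegree / ε) with hR
    refine ⟨Fin.cons ((R + 2 : ℝ) : ℂ) c, ε / 2, by positivity, fun w hw => ?_⟩
    have hw0 := hw 0
    rw [Fin.cons_zero] at hw0
    have hwc : w = Fin.cons (w 0) (fun i => w i.succ) := by
      funext i
      refine Fin.cases ?_ (fun j => ?_) i <;> simp
    have hw' : ∀ i : Fin d, ‖w i.succ - c i‖ ≤ 2 := by
      intro i
      have := hw i.succ
      rwa [Fin.cons_succ] at this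
    have hR1 : 1 ≤ R := le_max_left _ _
    have hnorm : R ≤ ‖w 0‖ := by
      have h1 : ‖((R + 2 : ℝ) : ℂ)‖ = R + 2 := by
        rw [Complex.norm_real, Real.norm_eq_abs, abs_of_nonneg (by linarith)]
      have h2 := norm_sub_norm_le ((R + 2 : ℝ) : ℂ) (w 0)
      rw [h1, norm_sub_rev] at h2
      linarith
    rw [hwc, cons_28]
    refine far_28 _ g.natDegree ?_ B ε hB hε ?_ ?_ _ (hR1.trans hnorm)
      ((le_max_right _ _).trans hnorm)
    · exact Nat.lt_succ_of_le Polynomial.natDegree_map_le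
    · intro k hk
      rw [Polynomial.coeff_map]
      exact hb _ hw' k hk
    · rw [Polynomial.coeff_map]
      exact hc _ hw'

/-! ### capacity -/

theorem roots_28 (q : Polynomial ℂ) (n : ℕ) (hn : q.natDegree < n + 1) :
    ∃ x : ℂ, ‖x‖ = 1 ∧ ‖q.coeff n‖ ≤ ‖q.eval x‖ := by
  obtain ⟨ζ, hζ⟩ : ∃ ζ : ℂ, IsPrimitiveRoot ζ (n + 1) :=
    ⟨_, Complex.isPrimitiveRoot_exp (n + 1) (Nat.succ_ne_zero n)⟩
  have hζ1 : ‖ζ‖ = 1 := hζ.norm'_eq_one (Nat.succ_ne_zero n)
  have hgeo : ∀ m : ℕ, 0 < m → m < n + 1 → ∑ j ∈ Finset.range (n + 1), (ζ ^ j) ^ m = 0 := by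
    intro m hm0 hm
    have h1 : ζ ^ m ≠ 1 := hζ.pow_ne_one_of_pos_of_lt hm0.ne' hm
    have h2 : (ζ ^ m - 1) * ∑ j ∈ Finset.range (n + 1), (ζ ^ j) ^ m = 0 := by
      have h3 : ∑ j ∈ Finset.range (n + 1), (ζ ^ j) ^ m =
          ∑ j ∈ Finset.range (n + 1), (ζ ^ m) ^ j :=
        Finset.sum_congr rfl fun j _ => by rw [← pow_mul, ← pow_mul, mul_comm]
      rw [h3, mul_comm, geom_sum_mul, ← pow_mul, mul_comm m, pow_mul, hζ.pow_eq_one, one_pow,
        sub_self]
    exact (mul_eq_zero.1 h2).resolve_left (sub_ne_zero.2 h1)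
  have hsum : ∑ j ∈ Finset.range (n + 1), ζ ^ j * q.eval (ζ ^ j) = (n + 1) * q.coeff n := by
    have h1 : ∀ j, ζ ^ j * q.eval (ζ ^ j) =
        ∑ k ∈ Finset.range (n + 1), q.coeff k * (ζ ^ j) ^ (k + 1) := by
      intro j
      rw [Polynomial.eval_eq_sum_range' hn, Finset.mul_sum]
      exact Finset.sum_congr rfl fun k _ => by rw [pow_succ]; ring
    simp only [h1]
    rw [Finset.sum_comm, Finset.sum_range_succ]
    have h2 : ∑ k ∈ Finset.range n, ∑ j ∈ Finset.range (n + 1), q.coeff k * (ζ ^ j) ^ (k + 1) =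
        0 := by
      refine Finset.sum_eq_zero fun k hk => ?_
      rw [Finset.mem_range] at hk
      rw [← Finset.mul_sum, hgeo (k + 1) (Nat.succ_pos k) (by omega), mul_zero]
    rw [h2, zero_add, ← Finset.mul_sum]
    have h3 : ∑ j ∈ Finset.range (n + 1), (ζ ^ j) ^ (n + 1) = (n + 1 : ℂ) := by
      rw [Finset.sum_congr rfl (g := fun _ => (1 : ℂ))]
      · simp
      · intro j _
        rw [← pow_mul, mul_comm, pow_mul, hζ.pow_eq_one, one_pow]
    rw [h3]
    ring
  by_contra hcon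
  push Not at hcon
  have h4 : ‖∑ j ∈ Finset.range (n + 1), ζ ^ j * q.eval (ζ ^ j)‖ <
      ∑ j ∈ Finset.range (n + 1), ‖q.coeff n‖ := by
    refine (norm_sum_le _ _).trans_lt ?_
    refine Finset.sum_lt_sum_of_nonempty ⟨0, by simp⟩ fun j _ => ?_
    rw [norm_mul, norm_pow, hζ1, one_pow, one_mul]
    exact hcon _ (by rw [norm_pow, hζ1, one_pow])
  rw [hsum, norm_mul] at h4
  have h5 : ‖(n + 1 : ℂ)‖ = n + 1 := by
    have : (n + 1 : ℂ) = ((n + 1 : ℕ) : ℂ) := by push_cast; ring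
    rw [this, Complex.norm_natCast]
    push_cast
    ring
  rw [h5] at h4
  simp at h4

theorem capacity_28 : CapacityStmt := by
  intro d
  induction d with
  | zero =>
    intro G hG c
    refine ⟨c, fun i => i.elim0, ?_⟩
    have h1 := eq_C_of_isEmpty G
    have h2 : coeff 0 G ≠ 0 := by
      intro h3
      rw [h3] at h1
      exact hG (by rw [h1, C_0])
    rw [h1, aeval_C]
    have h3 : (1 : ℝ) ≤ |((coeff 0 G : ℤ) : ℝ)| := by
      have := Int.one_le_abs h2
      exact_mod_cast this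
    simpa [Complex.norm_intCast] using h3
  | succ d ih =>
    intro G hG c
    set g := finSuccEquiv ℤ d G with hg
    have hg0 : g ≠ 0 := by
      rw [hg]
      exact (map_ne_zero_iff _ (finSuccEquiv ℤ d).injective).2 hG
    obtain ⟨w', hw', h1⟩ := ih g.leadingCoeff (Polynomial.leadingCoeff_ne_zero.2 hg0)
      (fun i => c i.succ)
    set p := Polynomial.map ((aeval w' : S d →ₐ[ℤ] ℂ) : S d →+* ℂ) g with hp
    have hlead : p.coeff g.natDegree = aeval w' g.leadingCoeff := by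
      rw [hp, Polynomial.coeff_map]
      rfl
    have hne : p.coeff g.natDegree ≠ 0 := by
      rw [hlead]
      intro h0
      rw [h0, norm_zero] at h1
      linarith
    have hdeg : p.natDegree = g.natDegree :=
      le_antisymm Polynomial.natDegree_map_le (Polynomial.le_natDegree_of_ne_zero hne)
    obtain ⟨x, hx, hx'⟩ := roots_28 (Polynomial.taylor (c 0) p) g.natDegree (by
      rw [Polynomial.natDegree_taylor, hdeg]
      exact Nat.lt_succ_self _)
    have h2 : (Polynomial.taylor (c 0) p).coeff g.natDegree = aeval w' g.leadingCoeff := by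
      rw [← hlead, ← hdeg, Polynomial.coeff_taylor_natDegree]
      rfl
    rw [h2, Polynomial.taylor_eval] at hx'
    refine ⟨Fin.cons (x + c 0) w', ?_, ?_⟩
    · intro i
      refine Fin.cases ?_ (fun j => ?_) i
      · simp [hx]
      · simpa using hw' j
    · rw [cons_28]
      exact h1.trans hx'

/-! ### generic points -/

theorem countable_28 (d : ℕ) : Countable (S d) := by
  rw [← Cardinal.mk_le_aleph0_iff]
  refine (MvPolynomial.cardinalMk_le_max).trans ?_
  simp

theorem dense_28 {d : ℕ} (Q : S d) (hQ : Q ≠ 0) : Dense {w : Fin d → ℂ | aeval w Q ≠ 0} := by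
  rw [Metric.dense_iff]
  intro c r hr
  by_contra hcon
  rw [Set.not_nonempty_iff_eq_empty] at hcon
  apply hQ
  have h1 : ∀ w : Fin d → ℂ, dist w c < r → aeval w Q = 0 := by
    intro w hw
    by_contra h0
    have : w ∈ Metric.ball c r ∩ {w : Fin d → ℂ | aeval w Q ≠ 0} := ⟨hw, h0⟩
    rw [hcon] at this
    exact this
  have h2 : map (algebraMap ℤ ℂ) Q = 0 := by
    refine MvPolynomial.funext_set (fun i => Metric.ball (c i) r) (fun i => ?_) fun w hw => ?_
    · exact infinite_of_mem_nhds (c i) (Metric.ball_mem_nhds (c i) hr)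
    · rw [eval_map, map_zero, ← aeval_def]
      apply h1
      rw [dist_pi_lt_iff hr]
      intro i
      exact hw i (Set.mem_univ i)
  exact (map_injective (algebraMap ℤ ℂ) Int.cast_injective) (by rw [h2, map_zero])

theorem generic_28 : GenericStmt := by
  intro d G hG c
  obtain ⟨w₀, hw₀, h1⟩ := capacity_28 d G hG c
  have := countable_28 d
  have hdense : Dense (⋂ Q : {Q : S d // Q ≠ 0}, {w : Fin d → ℂ | aeval w Q.1 ≠ 0}) := by
    refine dense_iInter_of_isOpen (fun Q => ?_) (fun Q => dense_28 Q.1 Q.2)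
    exact isOpen_ne_fun (cont_28 Q.1) continuous_const
  have hopen : IsOpen (Metric.ball w₀ 1 ∩ {w : Fin d → ℂ | 1 / 2 < ‖aeval w G‖}) :=
    Metric.isOpen_ball.inter (isOpen_lt continuous_const (cont_28 G).norm)
  obtain ⟨w, ⟨hw1, hw2⟩, hw3⟩ := hdense.inter_open_nonempty _ hopen
    ⟨w₀, Metric.mem_ball_self one_pos, by
      rw [Set.mem_ofPred_eq]
      linarith⟩
  refine ⟨w, fun i => ?_, ?_, hw2.le⟩
  · have h2 : ‖w i - w₀ i‖ ≤ 1 := by
      have := (dist_le_pi_dist w w₀ i).trans (Metric.mem_ball.1 hw1).le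
      rwa [dist_eq_norm] at this
    calc ‖w i - c i‖ = ‖(w i - w₀ i) + (w₀ i - c i)‖ := by ring_nf
      _ ≤ ‖w i - w₀ i‖ + ‖w₀ i - c i‖ := norm_add_le _ _
      _ ≤ 1 + 1 := add_le_add h2 (hw₀ i)
      _ = 2 := by norm_num
  · rw [injective_iff_map_eq_zero]
    intro Q hQ
    by_contra h0
    exact (Set.mem_iInter.1 hw3 ⟨Q, h0⟩) hQ

end Pool.Agent.Lib.MP_1e09a3_nt.CF
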