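import Pool.Agent.Lib.MP_1e09a3_nt.CF.Stmts73

/-!
Complex coefficients as additional unknowns, and additional constant unknowns (module 12).
-/

open MvPolynomial

namespace Pool.Agent.Lib.MP_1e09a3_nt.CF

/-- A polynomial whose coefficients are values of `c` comes from an integer polynomial in the
variables and the coefficients. -/
theorem lift_63 {N M : ℕ} (c : Fin M → ℂ) (q : MvPolynomial (Fin N) ℂ)
    (hq : ∀ m ∈ q.support, coeff m q ∈ Set.range c) :
    ∃ q' : MvPolynomial (Fin (N + M)) ℤ, (∀ x : Fin N → ℂ, aeval (Fin.append x c) q' = eval x q) ∧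
      ∀ k ∈ q'.vars, (∃ k₀ ∈ q.vars, k = Fin.castAdd M k₀) ∨ ∃ j, k = Fin.natAdd N j := by
  classical
  choose idx hidx using hq
  refine ⟨∑ m ∈ q.support.attach, X (Fin.natAdd N (idx m.1 m.2)) *
    monomial (Finsupp.mapDomain (Fin.castAdd M) m.1) 1, ?_, ?_⟩
  · intro x
    rw [map_sum, MvPolynomial.eval_eq, ← Finset.sum_attach q.support]
    refine Finset.sum_congr rfl fun m _ => ?_
    rw [map_mul, aeval_X, Fin.append_right, hidx m.1 m.2, aeval_monomial, map_one, one_mul,
      Finsupp.prod_mapDomain_index_inj (Fin.castAdd_injective N M), Finsupp.prod]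
    simp only [Fin.append_left]
  · intro k hk
    have h1 := vars_sum_subset _ _ hk
    rw [Finset.mem_biUnion] at h1
    obtain ⟨m, -, hk⟩ := h1
    have h2 := vars_mul _ _ hk
    rw [Finset.mem_union] at h2
    rcases h2 with h2 | h2
    · right
      rw [vars_X, Finset.mem_singleton] at h2
      exact ⟨_, h2⟩
    · left
      rw [vars_monomial one_ne_zero] at h2
      have h3 := Finsupp.mapDomain_support h2
      rw [Finset.mem_image] at h3
      obtain ⟨k₀, hk₀, h3⟩ := h3
      exact ⟨k₀, (mem_vars _).2 ⟨m.1, m.2, hk₀⟩, h3.symm⟩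

theorem complexCoeff_63 : ComplexCoeffStmt := by
  classical
  intro N level P hP
  choose B A hB hA hPi using hP
  set cf : MvPolynomial (Fin N) ℂ → Finset ℂ := fun q => q.support.image fun m => coeff m q with hcf
  set T : Finset ℂ := Finset.univ.biUnion fun i : Fin N =>
    cf (B i) ∪ Finset.univ.biUnion fun j : Fin N => cf (A i j) with hT
  set c : Fin T.card → ℂ := fun i => (T.equivFin.symm i : ℂ) with hc
  have hrange : ∀ z ∈ T, z ∈ Set.range c := by
    intro z hz
    exact ⟨T.equivFin ⟨z, hz⟩, by simp [hc]⟩
  have hBc : ∀ i, ∀ m ∈ (B i).support, coeff m (B i) ∈ Set.range c := by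
    intro i m hm
    refine hrange _ ?_
    rw [hT, Finset.mem_biUnion]
    exact ⟨i, Finset.mem_univ _, Finset.mem_union_left _ (Finset.mem_image_of_mem _ hm)⟩
  have hAc : ∀ i j, ∀ m ∈ (A i j).support, coeff m (A i j) ∈ Set.range c := by
    intro i j m hm
    refine hrange _ ?_
    rw [hT, Finset.mem_biUnion]
    refine ⟨i, Finset.mem_univ _, Finset.mem_union_right _ ?_⟩
    rw [Finset.mem_biUnion]
    exact ⟨j, Finset.mem_univ _, Finset.mem_image_of_mem _ hm⟩
  choose B' hB'1 hB'2 using fun i => lift_63 c (B i) (hBc i)
  choose A' hA'1 hA'2 using fun i j => lift_63 c (A i j) (hAc i j)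
  refine ⟨T.card, c, Fin.append (fun i => level i + 1) (fun _ => 0),
    Fin.append (fun i => B' i + ∑ j ∈ Finset.univ.filter (fun j => level j = level i),
      A' i j * X (Fin.castAdd T.card j)) (fun _ => 0), ?_, ?_, ?_⟩
  · intro i
    refine Fin.addCases (fun i => ?_) (fun j => ?_) i
    · refine ⟨B' i, Fin.append (A' i) (fun _ => 0), ?_, ?_, ?_⟩
      · intro k hk
        rcases hB'2 i k hk with ⟨k₀, hk₀, rfl⟩ | ⟨j, rfl⟩
        · have := hB i k₀ hk₀
          simp only [Fin.append_left]
          omega
        · simp only [Fin.append_left, Fin.append_right]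
          omega
      · intro j
        refine Fin.addCases (fun j => ?_) (fun j => ?_) j
        · intro k hk
          rw [Fin.append_left] at hk
          rcases hA'2 i j k hk with ⟨k₀, hk₀, rfl⟩ | ⟨j', rfl⟩
          · have := hA i j k₀ hk₀
            simp only [Fin.append_left]
            omega
          · simp only [Fin.append_left, Fin.append_right]
            omega
        · intro k hk
          rw [Fin.append_right, vars_0] at hk
          exact absurd hk (Finset.notMem_empty _)
      · rw [Fin.append_left, Finset.sum_filter, Finset.sum_filter, Fin.sum_univ_add]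
        simp only [Fin.append_left, Fin.append_right, zero_mul, ite_self, Finset.sum_const_zero,
          add_zero, Nat.add_right_cancel_iff]
    · refine ⟨0, fun _ => 0, ?_, ?_, ?_⟩
      · intro k hk
        rw [vars_0] at hk
        exact absurd hk (Finset.notMem_empty _)
      · intro _ k hk
        rw [vars_0] at hk
        exact absurd hk (Finset.notMem_empty _)
      · simp
  · intro x i
    rw [Fin.append_left, hPi i, map_add, map_sum, map_add, map_sum, hB'1]
    congr 1
    refine Finset.sum_congr rfl fun j _ => ?_
    rw [map_mul, map_mul, hA'1, aeval_X, eval_X, Fin.append_left]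
  · intro j
    rw [Fin.append_right]

theorem extend_63 : ExtendStmt := by
  intro N P κ E hE M
  set pr : (Fin (N + M) → ℂ) → (Fin N → ℂ) := fun a i => a (Fin.castAdd M i) with hpr
  have hprc : Continuous pr := by
    refine continuous_pi fun i => ?_
    exact continuous_apply _
  have hκ : ∀ a : Fin (N + M) → ℂ, aeval a (rename (Fin.castAdd M) κ) = aeval (pr a) κ := by
    intro a
    rw [aeval_rename]
    rfl
  set E' : Option (Fin (N + M)) → ℂ → (Fin (N + M) → ℂ) → ℂ := fun j s a =>
    match j with
    | none => E none s (pr a)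
    | some i => Fin.addCases (motive := fun _ => ℂ) (fun i => E (some i) s (pr a))
        (fun j => a (Fin.natAdd N j) * E none s (pr a)) i with hE'
  have e0 : ∀ s a, E' none s a = E none s (pr a) := fun _ _ => rfl
  have e1 : ∀ i s a, E' (some (Fin.castAdd M i)) s a = E (some i) s (pr a) := by
    intro i s a
    simp only [hE', Fin.addCases_left]
  have e2 : ∀ j s a, E' (some (Fin.natAdd N j)) s a = a (Fin.natAdd N j) * E none s (pr a) := by
    intro j s a
    simp only [hE', Fin.addCases_right]
  have hcont : ∀ j, ContinuousOn (fun q : ℂ × (Fin (N + M) → ℂ) => E j q.1 (pr q.2))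
      {q | aeval q.2 (rename (Fin.castAdd M) κ) ≠ 0} := by
    intro j
    have h1 : ContinuousOn (fun q : ℂ × (Fin (N + M) → ℂ) => ((q.1, pr q.2) : ℂ × (Fin N → ℂ)))
        {q | aeval q.2 (rename (Fin.castAdd M) κ) ≠ 0} :=
      (continuous_fst.prodMk (hprc.comp continuous_snd)).continuousOn
    refine (hE.cont j).comp h1 ?_
    intro q hq
    have hq' : aeval q.2 (rename (Fin.castAdd M) κ) ≠ 0 := hq
    rw [hκ] at hq'
    exact hq'
  refine ⟨E', ?_, ?_, ?_, ?_, ?_⟩
  · intro j
    rcases j with _ | i
    · exact hcont none
    · refine Fin.addCases (fun i => ?_) (fun j => ?_) i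
      · simp only [e1]
        exact hcont (some i)
      · simp only [e2]
        exact ((continuous_apply _).comp continuous_snd).continuousOn.mul (hcont none)
  · intro j a ha
    rw [hκ] at ha
    rcases j with _ | i
    · exact hE.diff none _ ha
    · refine Fin.addCases (fun i => ?_) (fun j => ?_) i
      · simp only [e1]
        exact hE.diff _ _ ha
      · simp only [e2]
        exact (differentiable_const _).mul (hE.diff none _ ha)
  · intro a ha
    rw [hκ] at ha
    exact hE.ne_zero _ ha
  · intro a i ha
    rw [hκ] at ha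
    refine Fin.addCases (fun i => ?_) (fun j => ?_) i
    · rw [e1, e0]
      exact hE.init _ i ha
    · rw [e2, e0]
  · intro a ha s hs i
    rw [hκ] at ha
    rw [e0] at hs
    refine Fin.addCases (fun i => ?_) (fun j => ?_) i
    · have h := hE.ode _ ha s hs i
      simp only [e1, e0, Fin.append_left]
      rw [aeval_rename]
      have h2 : (fun j => E' (some j) s a / E none s (pr a)) ∘ Fin.castAdd M =
          fun j => E (some j) s (pr a) / E none s (pr a) := by
        funext j
        simp only [Function.comp_apply, e1]
      rw [h2]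
      exact h
    · simp only [e2, e0, Fin.append_right, map_zero]
      have h1 : ∀ᶠ t in nhds s, E none t (pr a) ≠ 0 :=
        (hE.diff none _ ha).continuous.continuousAt.eventually_ne hs
      refine (hasDerivAt_const s (a (Fin.natAdd N j))).congr_of_eventuallyEq ?_
      filter_upwards [h1] with t ht
      rw [mul_div_assoc, div_self ht, mul_one]

end Pool.Agent.Lib.MP_1e09a3_nt.CF
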