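import Pool.Agent.Lib.MP_1e09a3_nt.CF.Stmts73

/-!
# Complete polynomial flows depend continuously on time and initial value
-/

open MvPolynomial

namespace Pool.Agent.Lib.MP_1e09a3_nt.CF

/-- the vector field -/
noncomputable def V67 {N : ℕ} (P : Fin N → MvPolynomial (Fin N) ℤ) (x : Fin N → ℂ) : Fin N → ℂ :=
  fun i => aeval x (P i)

theorem contDiff_aeval_67 {N : ℕ} (Q : MvPolynomial (Fin N) ℤ) :
    ContDiff ℝ 1 (fun x : Fin N → ℂ => aeval x Q) := by
  induction Q using MvPolynomial.induction_on with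
  | C a =>
    have : (fun x : Fin N → ℂ => aeval x (C a : MvPolynomial (Fin N) ℤ)) = fun _ => (a : ℂ) := by
      funext x
      simp
    rw [this]
    exact contDiff_const
  | add p q hp hq =>
    have : (fun x : Fin N → ℂ => aeval x (p + q)) = fun x => aeval x p + aeval x q := by
      funext x
      rw [map_add]
    rw [this]
    exact hp.add hq
  | mul_X p i hp =>
    have : (fun x : Fin N → ℂ => aeval x (p * X i)) = fun x => aeval x p * x i := by
      funext x
      rw [map_mul, aeval_X]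
    rw [this]
    exact hp.mul (contDiff_apply ℝ ℂ i)

theorem contDiff_V67 {N : ℕ} (P : Fin N → MvPolynomial (Fin N) ℤ) : ContDiff ℝ 1 (V67 P) :=
  contDiff_pi.2 fun i => contDiff_aeval_67 (P i)

theorem lip_V67 {N : ℕ} (P : Fin N → MvPolynomial (Fin N) ℤ) (M : ℝ) :
    ∃ K : NNReal, LipschitzOnWith K (V67 P) (Metric.closedBall 0 M) := by
  have h1 : LocallyLipschitz (V67 P) := (contDiff_V67 P).locallyLipschitz
  exact (h1.locallyLipschitzOn).exists_lipschitzOnWith_of_compact (isCompact_closedBall 0 M)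

/-- Gronwall with a first exit argument, on a segment. -/
theorem seg_67 {N : ℕ} (P : Fin N → MvPolynomial (Fin N) ℤ) (M R : ℝ) (K : NNReal)
    (hK : LipschitzOnWith K (V67 P) (Metric.closedBall 0 (M + 1)))
    (f g : ℂ → Fin N → ℂ) (hf : ∀ s, HasDerivAt f (V67 P (f s)) s)
    (hg : ∀ s, HasDerivAt g (V67 P (g s)) s) (hgM : ∀ s : ℂ, ‖s‖ ≤ R → ‖g s‖ ≤ M)
    (hd : dist (f 0) (g 0) * Real.exp (K * R) < 1) (s : ℂ) (hs : ‖s‖ ≤ R) :
    dist (f s) (g s) ≤ dist (f 0) (g 0) * Real.exp (K * R) := by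
  have hR : 0 ≤ R := (norm_nonneg s).trans hs
  -- the segment
  set F : ℝ → Fin N → ℂ := fun t => f (t * s) with hF
  set G : ℝ → Fin N → ℂ := fun t => g (t * s) with hG
  have hseg : ∀ t : ℝ, HasDerivAt (fun t : ℝ => (t : ℂ) * s) s t := by
    intro t
    have h1 : HasDerivAt (fun t : ℝ => (t : ℂ)) 1 t := Complex.ofRealCLM.hasDerivAt
    simpa using h1.mul_const s
  have hF' : ∀ t, HasDerivAt F (s • V67 P (F t)) t := fun t =>
    (hf (t * s)).scomp t (hseg t)
  have hG' : ∀ t, HasDerivAt G (s • V67 P (G t)) t := fun t =>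
    (hg (t * s)).scomp t (hseg t)
  have hFc : Continuous F := continuous_iff_continuousAt.2 fun t => (hF' t).continuousAt
  have hGc : Continuous G := continuous_iff_continuousAt.2 fun t => (hG' t).continuousAt
  have hF0 : F 0 = f 0 := by simp [hF]
  have hG0 : G 0 = g 0 := by simp [hG]
  have hGM : ∀ t ∈ Set.Icc (0 : ℝ) 1, ‖G t‖ ≤ M := by
    intro t ht
    apply hgM
    rw [norm_mul, Complex.norm_real, Real.norm_of_nonneg ht.1]
    calc t * ‖s‖ ≤ 1 * ‖s‖ := mul_le_mul_of_nonneg_right ht.2 (norm_nonneg s)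
      _ ≤ R := by rw [one_mul]; exact hs
  -- Gronwall as long as the distance is less than one
  have gr : ∀ b ∈ Set.Icc (0 : ℝ) 1, (∀ t ∈ Set.Ico 0 b, dist (F t) (G t) < 1) →
      dist (F b) (G b) ≤ dist (f 0) (g 0) * Real.exp (K * R) := by
    intro b hb hlt
    have h1 := dist_le_of_trajectories_ODE_of_mem (v := fun _ x => s • V67 P x)
      (K := ‖s‖₊ * K) (s := fun _ => Metric.closedBall 0 (M + 1)) (f := F) (g := G) (a := 0) (b := b)
      (δ := dist (F 0) (G 0))
      (by
        intro t _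
        apply LipschitzOnWith.of_dist_le_mul
        intro x hx y hy
        rw [dist_smul₀, NNReal.coe_mul, coe_nnnorm, mul_assoc]
        exact mul_le_mul_of_nonneg_left (hK.dist_le_mul x hx y hy) (norm_nonneg s))
      hFc.continuousOn (fun t _ => (hF' t).hasDerivWithinAt)
      (by
        intro t ht
        rw [mem_closedBall_zero_iff]
        have h2 := hlt t ht
        have h3 := hGM t ⟨ht.1, ht.2.le.trans hb.2⟩
        rw [dist_eq_norm] at h2
        calc ‖F t‖ = ‖G t + (F t - G t)‖ := by rw [add_sub_cancel]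
          _ ≤ ‖G t‖ + ‖F t - G t‖ := norm_add_le _ _
          _ ≤ M + 1 := add_le_add h3 h2.le)
      hGc.continuousOn (fun t _ => (hG' t).hasDerivWithinAt)
      (by
        intro t ht
        rw [mem_closedBall_zero_iff]
        have h3 := hGM t ⟨ht.1, ht.2.le.trans hb.2⟩
        linarith)
      le_rfl b ⟨hb.1, le_rfl⟩
    rw [hF0, hG0] at h1
    refine h1.trans (mul_le_mul_of_nonneg_left (Real.exp_le_exp.2 ?_) dist_nonneg)
    rw [NNReal.coe_mul, coe_nnnorm, sub_zero]
    calc ‖s‖ * K * b ≤ R * K * 1 := by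
          apply mul_le_mul _ hb.2 hb.1 (mul_nonneg hR K.coe_nonneg)
          exact mul_le_mul_of_nonneg_right hs K.coe_nonneg
      _ = K * R := by ring
  -- no exit
  have hno : ∀ t ∈ Set.Icc (0 : ℝ) 1, dist (F t) (G t) < 1 := by
    by_contra hcon
    push Not at hcon
    obtain ⟨t0, ht0, hge⟩ := hcon
    have hcomp : IsCompact (Set.Icc (0 : ℝ) 1 ∩ {t | 1 ≤ dist (F t) (G t)}) :=
      isCompact_Icc.inter_right (isClosed_le continuous_const (hFc.dist hGc))
    obtain ⟨b, hb, hmin⟩ := hcomp.exists_isLeast ⟨t0, ht0, hge⟩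
    have h2 := gr b hb.1 (by
      intro t ht
      by_contra h3
      push Not at h3
      exact absurd (hmin ⟨⟨ht.1, ht.2.le.trans hb.1.2⟩, h3⟩) (not_le.2 ht.2))
    have h3 : (1 : ℝ) ≤ dist (F b) (G b) := hb.2
    linarith
  have h1 := gr 1 ⟨zero_le_one, le_rfl⟩ fun t ht => hno t ⟨ht.1, ht.2.le⟩
  have e1 : F 1 = f s := by simp [hF]
  have e2 : G 1 = g s := by simp [hG]
  rwa [e1, e2] at h1

theorem completeFlow_67 : CompleteFlowStmt := by
  intro N P hP
  choose u hu0 hu using hP
  have hu' : ∀ a s, HasDerivAt (u a) (V67 P (u a s)) s := fun a s =>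
    hasDerivAt_pi.2 fun i => hu a s i
  have huc : ∀ a, Continuous (u a) := fun a =>
    continuous_iff_continuousAt.2 fun s => (hu' a s).continuousAt
  have hcont : Continuous (fun q : ℂ × (Fin N → ℂ) => u q.2 q.1) := by
    rw [continuous_iff_continuousAt]
    rintro ⟨s0, a0⟩
    rw [Metric.continuousAt_iff]
    intro ε hε
    set R := ‖s0‖ + 1 with hR
    obtain ⟨M, hM⟩ := (isCompact_closedBall (0 : ℂ) R).exists_bound_of_continuousOn
      (huc a0).continuousOn
    obtain ⟨K, hK⟩ := lip_V67 P (M + 1)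
    have hE : 0 < Real.exp (K * R) := Real.exp_pos _
    have hca : ContinuousAt (u a0) s0 := (huc a0).continuousAt
    obtain ⟨δ1, hδ1, h1⟩ := Metric.continuousAt_iff.1 hca (ε / 2) (half_pos hε)
    refine ⟨min (min δ1 1) (min 1 (ε / 2) / Real.exp (K * R)), ?_, ?_⟩
    · exact lt_min (lt_min hδ1 one_pos) (div_pos (lt_min one_pos (half_pos hε)) hE)
    · rintro ⟨s, a⟩ hsa
      rw [Prod.dist_eq, max_lt_iff] at hsa
      obtain ⟨hs, ha⟩ := hsa
      simp only at hs ha
      have hs1 : dist s s0 < δ1 := hs.trans_le ((min_le_left _ _).trans (min_le_left _ _))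
      have hs2 : dist s s0 < 1 := hs.trans_le ((min_le_left _ _).trans (min_le_right _ _))
      have ha1 : dist a a0 * Real.exp (K * R) < min 1 (ε / 2) := by
        rw [← lt_div_iff₀ hE]
        exact ha.trans_le (min_le_right _ _)
      have hsR : ‖s‖ ≤ R := by
        rw [dist_eq_norm] at hs2
        calc ‖s‖ = ‖s0 + (s - s0)‖ := by rw [add_sub_cancel]
          _ ≤ ‖s0‖ + ‖s - s0‖ := norm_add_le _ _
          _ ≤ R := by rw [hR]; linarith
      have h2 := seg_67 P M R K hK (u a) (u a0) (hu' a) (hu' a0)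
        (fun t ht => hM t (mem_closedBall_zero_iff.2 ht))
        (by rw [hu0, hu0]; exact ha1.trans_le (min_le_left _ _)) s hsR
      rw [hu0, hu0] at h2
      have h3 := h1 hs1
      calc dist (u a s) (u a0 s0) ≤ dist (u a s) (u a0 s) + dist (u a0 s) (u a0 s0) :=
            dist_triangle _ _ _
        _ < ε / 2 + ε / 2 := add_lt_add (h2.trans_lt (ha1.trans_le (min_le_right _ _))) h3
        _ = ε := add_halves ε
  refine ⟨fun j s a => Option.elim j 1 (fun i => u a s i), ?_, ?_, ?_, ?_, ?_⟩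
  · rintro (_ | i)
    · exact continuousOn_const
    · exact ((continuous_apply i).comp hcont).continuousOn
  · rintro (_ | i) a _
    · exact differentiable_const _
    · exact fun s => (hu a s i).differentiableAt
  · intro a _
    exact one_ne_zero
  · intro a i _
    show u a 0 i = a i * 1
    rw [hu0, mul_one]
  · intro a _ s _ i
    show HasDerivAt (fun t => u a t i / 1) (aeval (fun j => u a s j / 1) (P i)) s
    simp only [div_one]
    exact hu a s i

end Pool.Agent.Lib.MP_1e09a3_nt.CF
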