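import Pool.Agent.Lib.MP_1e09a3_nt.CF.Int73

/-!
The core of the argument.
-/

open MvPolynomial

namespace Pool.Agent.Lib.MP_1e09a3_nt.CF

/-! ### bounded power series -/

theorem SB.mono {ρ B B' : ℝ} {u : PowerSeries ℂ} (h : SB ρ B u) (hB : B ≤ B') : SB ρ B' u :=
  fun n => (h n).trans hB

theorem SB.one {ρ : ℝ} (hρ : 0 < ρ) : SB ρ 1 (1 : PowerSeries ℂ) := by
  intro n
  rcases n with _ | n
  · simp
  · rw [Finset.sum_range_succ']
    have h1 : ∑ k ∈ Finset.range n, ‖PowerSeries.coeff (k + 1) (1 : PowerSeries ℂ)‖ * ρ ^ (k + 1)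
        = 0 := by
      refine Finset.sum_eq_zero fun k _ => ?_
      rw [PowerSeries.coeff_one, if_neg (Nat.succ_ne_zero k), norm_zero, zero_mul]
    rw [h1]
    simp

theorem SB.add {ρ B B' : ℝ} {u v : PowerSeries ℂ} (hρ : 0 < ρ) (h : SB ρ B u) (h' : SB ρ B' v) :
    SB ρ (B + B') (u + v) := by
  intro n
  refine le_trans ?_ (add_le_add (h n) (h' n))
  rw [← Finset.sum_add_distrib]
  refine Finset.sum_le_sum fun k _ => ?_
  rw [map_add, ← add_mul]
  exact mul_le_mul_of_nonneg_right (norm_add_le _ _) (pow_nonneg hρ.le _)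

theorem SB.zero {ρ : ℝ} : SB ρ 0 (0 : PowerSeries ℂ) := by
  intro n
  simp

theorem SB.sum {ρ : ℝ} (hρ : 0 < ρ) {ι : Type*} (s : Finset ι) (B : ι → ℝ)
    (u : ι → PowerSeries ℂ) (h : ∀ i ∈ s, SB ρ (B i) (u i)) :
    SB ρ (∑ i ∈ s, B i) (∑ i ∈ s, u i) := by
  classical
  induction s using Finset.induction_on with
  | empty => simpa using SB.zero
  | insert a s ha ih =>
    rw [Finset.sum_insert ha, Finset.sum_insert ha]
    exact (h a (Finset.mem_insert_self _ _)).add hρ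
      (ih fun i hi => h i (Finset.mem_insert_of_mem hi))

theorem SB.pow (h6 : SBMulStmt) {ρ B : ℝ} (hρ : 0 < ρ) {u : PowerSeries ℂ} (h : SB ρ B u)
    (k : ℕ) : SB ρ (B ^ k) (u ^ k) := by
  induction k with
  | zero => rw [pow_zero, pow_zero]; exact SB.one hρ
  | succ k ih => rw [pow_succ, pow_succ]; exact h6 ρ _ _ _ _ hρ ih h

theorem SB.prod (h6 : SBMulStmt) {ρ : ℝ} (hρ : 0 < ρ) {ι : Type*} (s : Finset ι) (B : ι → ℝ)
    (u : ι → PowerSeries ℂ) (h : ∀ i ∈ s, SB ρ (B i) (u i)) :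
    SB ρ (∏ i ∈ s, B i) (∏ i ∈ s, u i) := by
  classical
  induction s using Finset.induction_on with
  | empty => rw [Finset.prod_empty, Finset.prod_empty]; exact SB.one hρ
  | insert a s ha ih =>
    rw [Finset.prod_insert ha, Finset.prod_insert ha]
    exact h6 ρ _ _ _ _ hρ (h a (Finset.mem_insert_self _ _))
      (ih fun i hi => h i (Finset.mem_insert_of_mem hi))

theorem SB.intCast {ρ : ℝ} (hρ : 0 < ρ) (c : ℤ) : SB ρ |(c : ℝ)| (c : PowerSeries ℂ) := by
  intro n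
  rcases n with _ | n
  · simp
  · rw [Finset.sum_range_succ']
    have h0 : (c : PowerSeries ℂ) = PowerSeries.C (c : ℂ) := by simp
    have h1 : ∑ k ∈ Finset.range n, ‖PowerSeries.coeff (k + 1) (c : PowerSeries ℂ)‖ * ρ ^ (k + 1)
        = 0 := by
      refine Finset.sum_eq_zero fun k _ => ?_
      rw [h0, PowerSeries.coeff_C, if_neg (Nat.succ_ne_zero k), norm_zero, zero_mul]
    rw [h1, h0]
    simp

theorem poly_SB (h6 : SBMulStmt) {N : ℕ} (q : MvPolynomial (Fin N) ℤ) (e : ℕ)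
    (he : q.totalDegree ≤ e) (ρ B : ℝ) (hρ : 0 < ρ) :
    ∃ C : ℝ, ∀ (Q : PowerSeries ℂ) (u : Fin N → PowerSeries ℂ), SB ρ B Q →
      (∀ i, SB ρ B (Q * u i)) → SB ρ C (Q ^ e * aeval u q) := by
  refine ⟨∑ s ∈ q.support, |((q.coeff s : ℤ) : ℝ)| * B ^ e, fun Q u hQ hu => ?_⟩
  have h1 : Q ^ e * aeval u q = ∑ s ∈ q.support, ((q.coeff s : ℤ) : PowerSeries ℂ) *
      (Q ^ (e - ∑ i, s i) * ∏ i, (Q * u i) ^ (s i)) := by
    rw [aeval_def, eval₂_eq', Finset.mul_sum]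
    refine Finset.sum_congr rfl fun s hs => ?_
    have h2 : ∑ i, s i ≤ e := by
      refine le_trans ?_ he
      have := le_totalDegree hs
      rwa [Finsupp.sum_fintype _ _ (fun _ => rfl)] at this
    have h3 : Q ^ e = Q ^ (e - ∑ i, s i) * ∏ i, Q ^ (s i) := by
      rw [Finset.prod_pow_eq_pow_sum, ← pow_add, Nat.sub_add_cancel h2]
    simp only [mul_pow]
    rw [Finset.prod_mul_distrib, h3]
    simp only [algebraMap_int_eq, eq_intCast]
    ring
  rw [h1]
  refine SB.sum hρ _ _ _ fun s hs => ?_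
  have h2 : ∑ i, s i ≤ e := by
    refine le_trans ?_ he
    have := le_totalDegree hs
    rwa [Finsupp.sum_fintype _ _ (fun _ => rfl)] at this
  refine h6 ρ _ _ _ _ hρ (SB.intCast hρ _) ?_
  have h3 : B ^ e = B ^ (e - ∑ i, s i) * ∏ i, B ^ (s i) := by
    rw [Finset.prod_pow_eq_pow_sum, ← pow_add, Nat.sub_add_cancel h2]
  rw [h3]
  exact h6 ρ _ _ _ _ hρ (hQ.pow h6 hρ _) (SB.prod h6 hρ _ _ _ fun i _ => (hu i).pow h6 hρ _)

/-! ### determinants -/

theorem det_tay {K : Type} [Field K] {R : Type} [Field R] [CharZero R] (D : Derivation ℤ K K)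
    (τ : K →+* R) {n : ℕ} (v : Fin n → K) :
    (Matrix.of fun k j : Fin n => PowerSeries.coeff (k : ℕ) (tay D τ (v j))).det =
      (∏ k : Fin n, (((k : ℕ).factorial : R))⁻¹) * τ (wrM D v).det := by
  rw [RingHom.map_det, ← Matrix.det_mul_column]
  congr 1
  ext k j
  rw [Matrix.of_apply, Matrix.of_apply, coeff_tay, RingHom.mapMatrix_apply, Matrix.map_apply,
    wrM, Matrix.of_apply, div_eq_inv_mul]

/-- the monomials `z^i y^j` -/
def mono {K : Type} [Field K] (L : ℕ) (z y : K) (q : Fin (L * L)) : K :=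
  z ^ ((finProdFinEquiv.symm q).1 : ℕ) * y ^ ((finProdFinEquiv.symm q).2 : ℕ)

theorem upper_bound (h5 : SeriesMulStmt) (h6 : SBMulStmt) (h7 : DetBoundStmt) {K : Type} [Field K]
    (Δ : Derivation ℤ K K) (τ : K →+* ℂ) (ρ C : ℝ) (hρ : 0 < ρ) (g₀ g₁ g₂ z y : K)
    (hz : z * g₀ = g₁) (hy : y * g₀ = g₂) (Q : PowerSeries ℂ)
    (hQ : PowerSeries.constantCoeff Q = 1) (hC₀ : SB ρ C (Q * tay Δ τ g₀))
    (hC₁ : SB ρ C (Q * tay Δ τ g₁)) (hC₂ : SB ρ C (Q * tay Δ τ g₂)) (L : ℕ) :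
    ‖τ g₀ ^ (2 * L * (L * L)) * ((∏ k : Fin (L * L), (((k : ℕ).factorial : ℂ))⁻¹) *
        τ (wrM Δ (mono L z y)).det)‖ ≤
      (L * L).factorial * (C ^ (2 * L)) ^ (L * L) / ρ ^ (L * L * (L * L - 1) / 2) := by
  rw [← det_tay]
  have h1 := h5 (L * L) (fun j => tay Δ τ (mono L z y j)) ((Q * tay Δ τ g₀) ^ (2 * L))
  have hc : PowerSeries.constantCoeff ((Q * tay Δ τ g₀) ^ (2 * L)) = τ g₀ ^ (2 * L) := by
    rw [map_pow, map_mul, hQ, one_mul, ← PowerSeries.coeff_zero_eq_constantCoeff_apply, coeff_tay]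
    simp
  rw [hc, ← pow_mul] at h1
  have h2 := h7 (L * L) ρ (C ^ (2 * L)) (fun j => (Q * tay Δ τ g₀) ^ (2 * L) *
    tay Δ τ (mono L z y j)) hρ ?_
  · rw [h1] at h2
    exact h2
  · intro j
    set a := ((finProdFinEquiv.symm j).1 : ℕ) with ha
    set b := ((finProdFinEquiv.symm j).2 : ℕ) with hb
    have haL : a < L := (finProdFinEquiv.symm j).1.2
    have hbL : b < L := (finProdFinEquiv.symm j).2.2
    have hT : tay Δ τ (mono L z y j) = tay Δ τ z ^ a * tay Δ τ y ^ b := by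
      have : tayHom Δ τ (z ^ a * y ^ b) = tayHom Δ τ z ^ a * tayHom Δ τ y ^ b := by
        rw [map_mul, map_pow, map_pow]
      exact this
    have h3 : Q * tay Δ τ g₀ * tay Δ τ z = Q * tay Δ τ g₁ := by
      rw [← hz, tay_mul]; ring
    have h4 : Q * tay Δ τ g₀ * tay Δ τ y = Q * tay Δ τ g₂ := by
      rw [← hy, tay_mul]; ring
    have h5' : (Q * tay Δ τ g₀) ^ (2 * L) = (Q * tay Δ τ g₀) ^ (2 * L - (a + b)) *
        (Q * tay Δ τ g₀) ^ a * (Q * tay Δ τ g₀) ^ b := by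
      rw [← pow_add, ← pow_add]
      congr 1
      omega
    have h6' : (Q * tay Δ τ g₀) ^ (2 * L) * tay Δ τ (mono L z y j) =
        (Q * tay Δ τ g₀) ^ (2 * L - (a + b)) * (Q * tay Δ τ g₁) ^ a * (Q * tay Δ τ g₂) ^ b := by
      rw [hT, h5', ← h3, ← h4, mul_pow (Q * tay Δ τ g₀) (tay Δ τ z),
        mul_pow (Q * tay Δ τ g₀) (tay Δ τ y)]
      ring
    have h7' : C ^ (2 * L) = C ^ (2 * L - (a + b)) * C ^ a * C ^ b := by
      rw [← pow_add, ← pow_add]
      congr 1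
      omega
    rw [h6', h7']
    exact h6 ρ _ _ _ _ hρ (h6 ρ _ _ _ _ hρ (hC₀.pow h6 hρ _) (hC₁.pow h6 hρ _))
      (hC₂.pow h6 hρ _)

theorem integrality {K K' : Type} [Field K] [Field K'] [CharZero K'] (τ : K →+* K')
    (O : Subring K') (γ : K') (hγ : γ ∈ O) (D : Derivation ℤ K K) (z y : K) (hz : D z = 1)
    (hγz : γ * τ z ∈ O)
    (hy : ∀ n : ℕ, γ ^ (n + 1) * (τ ((⇑D)^[n] y) / (n.factorial : K')) ∈ O) (L : ℕ) :
    γ ^ (2 * L * (L * L) + L * L * (L * L - 1) / 2) *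
      ((∏ k : Fin (L * L), (((k : ℕ).factorial : K'))⁻¹) * τ (wrM D (mono L z y)).det) ∈ O := by
  rw [← det_tay]
  apply det_scaled O γ (2 * L)
  intro k j
  have h1 : WI O γ 1 (tay D τ z) := by
    intro k
    rw [coeff_tay]
    rcases k with _ | _ | k
    · simpa using hγz
    · simp only [Nat.reduceAdd, Function.iterate_one, hz, map_one, Nat.factorial_one, Nat.cast_one,
        div_one, mul_one, zero_add]
      exact O.pow_mem hγ _
    · rw [Function.iterate_succ_apply, hz, Function.iterate_succ_apply,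
        Derivation.map_one_eq_zero]
      have : (⇑D)^[k] (0 : K) = 0 := Function.iterate_fixed (f := ⇑D) (x := 0) (map_zero D) k
      rw [this, map_zero, zero_div, mul_zero]
      exact O.zero_mem
  have h2 : WI O γ 1 (tay D τ y) := by
    intro k
    rw [coeff_tay, add_comm 1 k]
    exact hy k
  set a := ((finProdFinEquiv.symm j).1 : ℕ) with ha
  set b := ((finProdFinEquiv.symm j).2 : ℕ) with hb
  have haL : a < L := (finProdFinEquiv.symm j).1.2
  have hbL : b < L := (finProdFinEquiv.symm j).2.2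
  have hT : tay D τ (mono L z y j) = tay D τ z ^ a * tay D τ y ^ b := by
    have : tayHom D τ (z ^ a * y ^ b) = tayHom D τ z ^ a * tayHom D τ y ^ b := by
      rw [map_mul, map_pow, map_pow]
    exact this
  rw [Matrix.of_apply, hT]
  exact (((h1.pow hγ a).mul (h2.pow hγ b)).mono hγ (by omega)) k

end Pool.Agent.Lib.MP_1e09a3_nt.CF
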