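import Pool.Agent.Lib.MP_1e09a3_nt.CF.Core73

/-!
Assembly of the core theorem.
-/

open MvPolynomial

namespace Pool.Agent.Lib.MP_1e09a3_nt.CF

theorem asym (A C : ℝ) (hA : 1 ≤ A) (hC : 1 ≤ C) : ∃ L : ℕ,
    A ^ (4 * L * (L * L) + L * L * (L * L - 1)) * ((L * L).factorial *
      (C ^ (2 * L)) ^ (L * L) / ((4 * A ^ 5) ^ 4) ^ (L * L * (L * L - 1) / 2)) < 1 / 2 := by
  obtain ⟨c, hc⟩ := pow_unbounded_of_one_lt C (one_lt_two : (1 : ℝ) < 2)
  refine ⟨2 * c + 2, ?_⟩
  set L := 2 * c + 2 with hL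
  set n := L * L with hn
  have hL2 : 2 ≤ L := by omega
  have hn4 : 4 ≤ n := by rw [hn]; nlinarith
  have hLn : L ≤ n := by rw [hn]; nlinarith
  have hA5 : (1 : ℝ) ≤ A ^ 5 := one_le_pow₀ hA
  have hpos : (0 : ℝ) < 4 * A ^ 5 := by linarith
  have h1 : A ^ (4 * L * n + n * (n - 1)) ≤ (A ^ 5) ^ (n * n) := by
    rw [← pow_mul]
    refine pow_le_pow_right₀ hA ?_
    have h2 : 4 * L * n ≤ 4 * (n * n) := by nlinarith
    have h3 : n * (n - 1) ≤ n * n := Nat.mul_le_mul_left _ (Nat.sub_le _ _)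
    omega
  have h2 : (4 * A ^ 5) ^ (n * n) ≤ ((4 * A ^ 5) ^ 4) ^ (n * (n - 1) / 2) := by
    rw [← pow_mul]
    refine pow_le_pow_right₀ (by linarith) ?_
    have h3 : 2 ∣ n * (n - 1) := by
      rcases Nat.even_or_odd n with h | h
      · exact (even_iff_two_dvd.1 h).mul_right _
      · exact (even_iff_two_dvd.1 (Nat.Odd.sub_odd h odd_one)).mul_left _
    obtain ⟨m, hm⟩ := h3
    rw [hm, Nat.mul_div_cancel_left _ (by norm_num : 0 < 2)]
    have h4 : ∀ n : ℕ, 4 ≤ n → n * n ≤ 2 * (n * (n - 1)) := by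
      intro n hn4
      obtain ⟨k, rfl⟩ := Nat.exists_eq_add_of_le hn4
      have : 4 + k - 1 = 3 + k := by omega
      rw [this]
      nlinarith
    have h5 := h4 n hn4
    omega
  have h3 : (n : ℝ) * C ^ (2 * L) ≤ 2 ^ n := by
    have h4 : (n : ℝ) ≤ 2 ^ (2 * L) := by
      have h5 : (L : ℝ) ≤ 2 ^ L := by exact_mod_cast L.lt_two_pow_self.le
      have h6 : (n : ℝ) = L * L := by rw [hn]; push_cast; ring
      rw [h6, two_mul, pow_add]
      exact mul_le_mul h5 h5 (Nat.cast_nonneg _) (by positivity)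
    have h5 : C ^ (2 * L) ≤ 2 ^ (c * (2 * L)) := by
      rw [pow_mul 2 c]
      exact pow_le_pow_left₀ (by linarith) hc.le _
    calc (n : ℝ) * C ^ (2 * L) ≤ 2 ^ (2 * L) * 2 ^ (c * (2 * L)) :=
          mul_le_mul h4 h5 (by positivity) (by positivity)
      _ = 2 ^ n := by
          rw [← pow_add]
          congr 1
          rw [hn, hL]
          ring
  have h4 : (n.factorial : ℝ) * (C ^ (2 * L)) ^ n ≤ 2 ^ (n * n) := by
    have h5 : (n.factorial : ℝ) ≤ (n : ℝ) ^ n := by exact_mod_cast n.factorial_le_pow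
    calc (n.factorial : ℝ) * (C ^ (2 * L)) ^ n ≤ (n : ℝ) ^ n * (C ^ (2 * L)) ^ n :=
          mul_le_mul_of_nonneg_right h5 (by positivity)
      _ = ((n : ℝ) * C ^ (2 * L)) ^ n := by rw [mul_pow]
      _ ≤ (2 ^ n) ^ n := pow_le_pow_left₀ (by positivity) h3 _
      _ = 2 ^ (n * n) := by rw [← pow_mul]
  have h5 : (n.factorial : ℝ) * (C ^ (2 * L)) ^ n / ((4 * A ^ 5) ^ 4) ^ (n * (n - 1) / 2) ≤
      2 ^ (n * n) / (4 * A ^ 5) ^ (n * n) :=
    div_le_div₀ (by positivity) h4 (by positivity) h2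
  calc A ^ (4 * L * n + n * (n - 1)) * ((n.factorial : ℝ) * (C ^ (2 * L)) ^ n /
        ((4 * A ^ 5) ^ 4) ^ (n * (n - 1) / 2))
      ≤ (A ^ 5) ^ (n * n) * (2 ^ (n * n) / (4 * A ^ 5) ^ (n * n)) :=
        mul_le_mul h1 h5 (by positivity) (by positivity)
    _ = (1 / 2) ^ (n * n) := by
        rw [mul_pow, div_pow, one_pow]
        have : (4 : ℝ) ^ (n * n) = 2 ^ (n * n) * 2 ^ (n * n) := by
          rw [← mul_pow]; norm_num
        rw [this]
        have hx : (A ^ 5) ^ (n * n) ≠ 0 := by positivity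
        field_simp
    _ < 1 / 2 := by
        have : (1 / 2 : ℝ) ^ (n * n) ≤ (1 / 2) ^ 2 :=
          pow_le_pow_of_le_one (by norm_num) (by norm_num) (by nlinarith)
        norm_num at this ⊢
        linarith

theorem aeval_append_rename {K : Type} [Field K] {N M : ℕ} (f : Fin N → K) (g : Fin M → K)
    (q : MvPolynomial (Fin N) ℤ) :
    aeval (Fin.append f g) (rename (Fin.castAdd M) q) = aeval f q := by
  rw [aeval_rename]
  congr 2
  funext i
  simp

theorem map_aeval_int {K R : Type*} [Field K] [CommRing R] (τ : K →+* R) {N : ℕ} (f : Fin N → K)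
    (q : MvPolynomial (Fin N) ℤ) : τ (aeval f q) = aeval (fun i => τ (f i)) q := by
  induction q using MvPolynomial.induction_on with
  | C a => simp
  | add p q hp hq => rw [map_add, map_add, map_add, hp, hq]
  | mul_X p i hp => rw [map_mul, map_mul, map_mul, hp, aeval_X, aeval_X]

theorem tay_aeval {K : Type} [Field K] (D : Derivation ℤ K K) (τ : K →+* ℂ) {N : ℕ}
    (f : Fin N → K) (q : MvPolynomial (Fin N) ℤ) :
    tay D τ (aeval f q) = aeval (fun i => tay D τ (f i)) q := by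
  induction q using MvPolynomial.induction_on with
  | C a =>
    have : tayHom D τ ((a : ℤ) : K) = ((a : ℤ) : PowerSeries ℂ) := map_intCast _ _
    rw [tayHom_apply] at this
    simpa using this
  | add p q hp hq => rw [map_add, map_add, tay_add, hp, hq]
  | mul_X p i hp => rw [map_mul, map_mul, tay_mul, hp, aeval_X, aeval_X]

theorem core_73 (h1 : NormPointStmt) (h2 : GrowthStmt) (h3 : WrChangeStmt) (h4 : WrZeroStmt)
    (h5 : SeriesMulStmt) (h6 : SBMulStmt) (h7 : DetBoundStmt) (h8 : FlowBoundStmt) :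
    CoreStmt := by
  intro N P κ E hE K K' _ _ _ _ d φ hφ Δ D f hf hκ G₀ G₁ G₂ z y hG₀ hz hy hz' hD r x hR
  have : CharZero K' := charZero_of_injective_algebraMap (algebraMap K K').injective
  set τ' := algebraMap K K' with hτ'
  set g₀ := aeval f G₀ with hg₀
  set J : MvPolynomial (Fin N) ℤ := G₀ * vf P G₁ - G₁ * vf P G₀ with hJ
  have hvf : ∀ q, Δ (aeval f q) = aeval f (vf P q) :=
    derivation_aeval Δ (vf P) f (fun i => by rw [hf, vf, mkDerivation_X])
  have hj : aeval f J = Δ z * g₀ ^ 2 := by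
    have e1 : Δ z * g₀ + z * Δ g₀ = Δ (aeval f G₁) := by
      rw [← hz, Derivation.leibniz, smul_eq_mul, smul_eq_mul]; ring
    have e2 : aeval f J = g₀ * Δ (aeval f G₁) - aeval f G₁ * Δ g₀ := by
      rw [hvf, hg₀, hvf, hJ, map_sub, map_mul, map_mul]
    rw [e2, ← e1, ← hz]
    ring
  have hj0 : aeval f J ≠ 0 := by
    rw [hj]; exact mul_ne_zero hz' (pow_ne_zero _ hG₀)
  set j := aeval f J with hjdef
  set t := (g₀ * j)⁻¹ with ht
  have hDval : ∀ w, D w = t * g₀ ^ 3 * Δ w := by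
    intro w
    have e1 : t * g₀ ^ 3 * Δ z = 1 := by
      rw [ht, hj]
      have hg : g₀ ≠ 0 := hG₀
      field_simp
    rw [hD w, ← mul_assoc, e1, one_mul]
  have hDz : D z = 1 := by
    have := hD z
    exact mul_left_cancel₀ hz' (by rw [mul_one]; exact this.symm)
  -- the ring `ℤ[f, t]`
  set e : Fin (N + 1) → K := Fin.append f (fun _ : Fin 1 => t) with he
  set T : MvPolynomial (Fin (N + 1)) ℤ := X (Fin.natAdd N 0) with hT
  set D' : Derivation ℤ (MvPolynomial (Fin (N + 1)) ℤ) (MvPolynomial (Fin (N + 1)) ℤ) :=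
    mkDerivation ℤ (Fin.append
      (fun i => T * rename (Fin.castAdd 1) (G₀ ^ 3 * P i))
      (fun _ : Fin 1 => - T ^ 3 * rename (Fin.castAdd 1) (G₀ ^ 3 * vf P (G₀ * J)))) with hD'
  have heT : aeval e T = t := by rw [hT, aeval_X, he]; simp
  have hder : ∀ i, D (e i) = aeval e (D' (X i)) := by
    intro i
    rw [hD', mkDerivation_X]
    refine Fin.addCases (fun i => ?_) (fun i => ?_) i
    · rw [Fin.append_left, he, Fin.append_left, ← he, map_mul, heT, he, aeval_append_rename,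
        map_mul, map_pow, hDval, hf]
      ring
    · rw [Fin.append_right, he, Fin.append_right, ← he, map_mul, map_neg, map_pow, heT, he,
        aeval_append_rename, map_mul, map_pow, ← hvf, map_mul, ht]
      have e1 : D (g₀ * j)⁻¹ = - (g₀ * j)⁻¹ ^ 2 * D (g₀ * j) := by
        rw [Derivation.leibniz_inv, smul_eq_mul]
      rw [e1, hDval (g₀ * j), ht]
      ring
  set Y : MvPolynomial (Fin (N + 1)) ℤ := T * rename (Fin.castAdd 1) (J * G₂) with hY
  have hYe : aeval e Y = y := by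
    rw [hY, map_mul, heT, he, aeval_append_rename, map_mul, ← hy, ht]
    have hg : g₀ ≠ 0 := hG₀
    have hjj : j ≠ 0 := hj0
    rw [← hjdef]
    field_simp
  set c₀ := ∑ i, (D' (X i)).totalDegree with hc₀
  have hdeg : ∀ i, (D' (X i)).totalDegree ≤ c₀ := fun i =>
    Finset.single_le_sum (f := fun i => (D' (X i)).totalDegree) (fun _ _ => Nat.zero_le _)
      (Finset.mem_univ i)
  obtain ⟨g, hg0, hge, hgy⟩ := h2 d K' φ hφ (N + 1 + 3)
    (fun i => τ' (Fin.append e ![z, Δ z, g₀] i)) (Y.totalDegree + c₀)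
    (fun n => rename (Fin.castAdd 3) ((⇑D')^[n] Y)) (fun n => τ' ((⇑D)^[n] y) / (n.factorial : K'))
    (fun n => by
      refine (totalDegree_rename_le _ _).trans ((totalDegree_iterate D' c₀ hdeg n Y).trans ?_)
      nlinarith)
    (fun n => by
      rw [← map_aeval_int, aeval_append_rename, ← derivation_iterate_aeval D D' e hder, hYe,
        mul_div_cancel₀]
      exact Nat.cast_ne_zero.2 n.factorial_ne_zero) r x hR
  set γ := φ (algebraMap (S d) (F d) g) with hγ
  set O := intRing φ with hO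
  have hγO : γ ∈ O := algebraMap_mem_intRing φ g
  have hγ0 : γ ≠ 0 := by
    rw [hγ]
    refine (map_ne_zero φ).2 ?_
    exact (map_ne_zero_iff _ (IsFractionRing.injective (S d) (F d))).2 hg0
  have hγz : γ * τ' z ∈ O := by
    have := hge (Fin.natAdd (N + 1) 0)
    rw [Fin.append_right] at this
    exact this
  have hγΔ : γ * τ' (Δ z) ∈ O := by
    have := hge (Fin.natAdd (N + 1) 1)
    rw [Fin.append_right] at this
    exact this
  have hγg : γ * τ' g₀ ∈ O := by
    have := hge (Fin.natAdd (N + 1) 2)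
    rw [Fin.append_right] at this
    exact this
  have hint := integrality τ' O γ hγO D z y hDz hγz hgy
  -- bounds
  obtain ⟨A, hA⟩ := h1 d K' φ hφ (N + 2)
    (Fin.append (fun i => τ' (f i)) ![(τ' (aeval f κ))⁻¹, γ])
  set A₁ := max A 1 with hA₁
  have hA1 : 1 ≤ A₁ := le_max_right _ _
  have hA0 : 0 < A₁ := by linarith
  set ρ : ℝ := (4 * A₁ ^ 5) ^ 4 with hρdef
  have hρ : 0 < ρ := by positivity
  obtain ⟨B, hB1, hB⟩ := h8 N P κ E hE A₁ (1 / A₁) ρ (by positivity) hρ
  set e₀ := G₀.totalDegree + G₁.totalDegree + G₂.totalDegree with he₀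
  obtain ⟨C₀, hC₀⟩ := poly_SB h6 G₀ e₀ (by omega) ρ B hρ
  obtain ⟨C₁, hC₁⟩ := poly_SB h6 G₁ e₀ (by omega) ρ B hρ
  obtain ⟨C₂, hC₂⟩ := poly_SB h6 G₂ e₀ (by omega) ρ B hρ
  set C := max 1 (max C₀ (max C₁ C₂)) with hC
  obtain ⟨L, hL⟩ := asym A₁ C hA1 (le_max_left _ _)
  have hzero : (wrM D (mono L z y)).det = 0 := by
    by_contra hne
    set n := L * L with hn
    set m := n * (n - 1) / 2 with hm
    set fac : K' := ∏ k : Fin n, (((k : ℕ).factorial : K'))⁻¹ with hfac
    set b : K' := γ ^ (2 * L * n + m) * (fac * τ' (wrM D (mono L z y)).det) *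
      (γ * τ' g₀) ^ (2 * L * n) * (γ * τ' (Δ z)) ^ m with hb
    have hbO : b ∈ O :=
      O.mul_mem (O.mul_mem (hint L) (O.pow_mem hγg _)) (O.pow_mem hγΔ _)
    have hfac0 : fac ≠ 0 := by
      rw [hfac]
      exact Finset.prod_ne_zero_iff.2 fun k _ =>
        inv_ne_zero (Nat.cast_ne_zero.2 (Nat.factorial_ne_zero _))
    have hb0 : b ≠ 0 := by
      refine mul_ne_zero (mul_ne_zero (mul_ne_zero (pow_ne_zero _ hγ0) (mul_ne_zero hfac0 ?_)) ?_) ?_
      · exact (map_ne_zero τ').2 hne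
      · exact pow_ne_zero _ (mul_ne_zero hγ0 ((map_ne_zero τ').2 hG₀))
      · exact pow_ne_zero _ (mul_ne_zero hγ0 ((map_ne_zero τ').2 hz'))
    obtain ⟨σ, hσ, hσb⟩ := hA b hb0 hbO
    set τ : K →+* ℂ := σ.comp τ' with hτ
    set a : Fin N → ℂ := fun i => τ (f i) with ha
    have haA : ∀ i, ‖a i‖ ≤ A₁ := by
      intro i
      have := hσ (Fin.castAdd 2 i)
      rw [Fin.append_left] at this
      exact this.trans (le_max_left _ _)
    have hγA : ‖σ γ‖ ≤ A₁ := by
      have := hσ (Fin.natAdd N 1)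
      rw [Fin.append_right] at this
      exact this.trans (le_max_left _ _)
    have hκA : 1 / A₁ ≤ ‖aeval a κ‖ := by
      have h9 := hσ (Fin.natAdd N 0)
      rw [Fin.append_right] at h9
      have h10 : ‖(aeval a κ)⁻¹‖ ≤ A₁ := by
        refine le_trans (le_of_eq ?_) (h9.trans (le_max_left _ _))
        rw [← map_aeval_int τ f κ]
        change ‖(σ (τ' (aeval f κ)))⁻¹‖ = ‖σ ((τ' (aeval f κ))⁻¹)‖
        rw [map_inv₀]
      have h11 : aeval a κ ≠ 0 := by
        rw [← map_aeval_int τ f κ]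
        exact (map_ne_zero τ).2 hκ
      rw [norm_inv, inv_le_comm₀ (norm_pos_iff.2 h11) hA0] at h10
      rwa [one_div]
    obtain ⟨Q, hQ, hQB, hQs⟩ := hB a haA hκA
    have hsol : ∀ i, tay Δ τ (f i) = sol P a i := by
      intro i
      ext k
      rw [coeff_tay, sol, PowerSeries.coeff_mk]
      have := derivation_iterate_aeval Δ (vf P) f
        (fun i => by rw [hf, vf, mkDerivation_X]) k (X i)
      rw [aeval_X] at this
      rw [this, map_aeval_int]
    have htay : ∀ q : MvPolynomial (Fin N) ℤ, tay Δ τ (aeval f q) = aeval (sol P a) q := by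
      intro q
      rw [tay_aeval]
      congr 2
      funext i
      exact hsol i
    have hQe : PowerSeries.constantCoeff (Q ^ e₀) = 1 := by rw [map_pow, hQ, one_pow]
    have hb₀ : SB ρ C (Q ^ e₀ * tay Δ τ g₀) := by
      rw [hg₀, htay]
      exact (hC₀ Q _ hQB hQs).mono ((le_max_left _ _).trans (le_max_right _ _))
    have hb₁ : SB ρ C (Q ^ e₀ * tay Δ τ (aeval f G₁)) := by
      rw [htay]
      exact (hC₁ Q _ hQB hQs).mono
        ((le_max_left _ _).trans ((le_max_right _ _).trans (le_max_right _ _)))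
    have hb₂ : SB ρ C (Q ^ e₀ * tay Δ τ (aeval f G₂)) := by
      rw [htay]
      exact (hC₂ Q _ hQB hQs).mono
        ((le_max_right _ _).trans ((le_max_right _ _).trans (le_max_right _ _)))
    have hup := upper_bound h5 h6 h7 Δ τ ρ C hρ g₀ (aeval f G₁) (aeval f G₂) z y hz hy (Q ^ e₀)
      hQe hb₀ hb₁ hb₂ L
    have hwr : (wrM Δ (mono L z y)).det = Δ z ^ m * (wrM D (mono L z y)).det :=
      h3 K Δ D (Δ z) hD n (mono L z y)
    have hσval : σ b = σ γ ^ (4 * L * n + 2 * m) * (τ g₀ ^ (2 * L * n) *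
        ((∏ k : Fin n, (((k : ℕ).factorial : ℂ))⁻¹) * τ (wrM Δ (mono L z y)).det)) := by
      have h12 : σ fac = ∏ k : Fin n, (((k : ℕ).factorial : ℂ))⁻¹ := by
        rw [hfac, map_prod]
        refine Finset.prod_congr rfl fun k _ => ?_
        rw [map_inv₀, map_natCast]
      have h13 : τ (Δ z) = σ (τ' (Δ z)) := rfl
      have h14 : τ g₀ = σ (τ' g₀) := rfl
      have h15 : τ (wrM D (mono L z y)).det = σ (τ' (wrM D (mono L z y)).det) := rfl
      rw [hwr, map_mul τ, map_pow τ, h13, h14, h15, hb, map_mul, map_mul, map_mul, map_mul, h12,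
        map_pow, map_pow, map_pow, map_mul, map_mul]
      have h16 : σ γ ^ (4 * L * n + 2 * m) = σ γ ^ (2 * L * n + m) * σ γ ^ (2 * L * n) *
          σ γ ^ m := by
        rw [← pow_add, ← pow_add]
        congr 1
        ring
      rw [h16, mul_pow, mul_pow]
      ring
    have hfin : ‖σ b‖ ≤ A₁ ^ (4 * L * n + n * (n - 1)) * ((n.factorial : ℝ) *
        (C ^ (2 * L)) ^ n / ρ ^ (n * (n - 1) / 2)) := by
      rw [hσval, norm_mul, norm_pow]
      refine mul_le_mul ?_ hup (norm_nonneg _) (by positivity)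
      calc ‖σ γ‖ ^ (4 * L * n + 2 * m) ≤ A₁ ^ (4 * L * n + 2 * m) :=
            pow_le_pow_left₀ (norm_nonneg _) hγA _
        _ ≤ A₁ ^ (4 * L * n + n * (n - 1)) := by
            refine pow_le_pow_right₀ hA1 ?_
            have : 2 * m ≤ n * (n - 1) := Nat.mul_div_le _ _
            omega
    linarith
  obtain ⟨c, hc0, hcD, hc⟩ := h4 K D (L * L) (mono L z y) hzero
  refine ⟨L, fun q => c (finProdFinEquiv q), ?_, fun q => hcD _, ?_⟩
  · intro h
    apply hc0
    funext i
    have := congrFun h (finProdFinEquiv.symm i)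
    rw [Equiv.apply_symm_apply] at this
    exact this
  · rw [← hc, ← Equiv.sum_comp finProdFinEquiv]
    refine Finset.sum_congr rfl fun q _ => ?_
    simp [mono]

end Pool.Agent.Lib.MP_1e09a3_nt.CF
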