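import Pool.Agent.Lib.MP_1e09a3_nt.CF.Stmts73

/-!
Complete polynomial flows and integral functions: module 4 (field data, retraction).
-/

open MvPolynomial

namespace Pool.Agent.Lib.MP_1e09a3_nt.CF

theorem retract_27 : RetractStmt := by
  intro K Ω _ _ _ r x
  set A := Algebra.adjoin K (Set.range x) with hA
  have hft : Algebra.FiniteType K A :=
    (Subalgebra.fg_iff_finiteType _).1 ⟨(Set.finite_range x).toFinset, by simp [hA]⟩
  obtain ⟨m, hm⟩ := Ideal.exists_maximal A
  let := Ideal.Quotient.field m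
  have : Algebra.FiniteType K (A ⧸ m) :=
    Algebra.FiniteType.of_surjective (Ideal.Quotient.mkₐ K m) (Ideal.Quotient.mkₐ_surjective K m)
  have hfin : Module.Finite K (A ⧸ m) := finite_of_finite_type_of_isJacobsonRing K (A ⧸ m)
  have hx : ∀ i, x i ∈ A := fun i => Algebra.subset_adjoin ⟨i, rfl⟩
  refine ⟨A ⧸ m, inferInstance, inferInstance, hfin,
    fun i => Ideal.Quotient.mkₐ K m ⟨x i, hx i⟩, fun u hu => ?_⟩
  rw [Algebra.adjoin_range_eq_range_aeval] at hu ⊢
  obtain ⟨Q, hQ⟩ := hu
  refine ⟨Q, ?_⟩
  have hQ' : (aeval x : MvPolynomial (Fin r) ℤ →ₐ[ℤ] Ω) Q = algebraMap K Ω u := hQ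
  have h1 : (aeval (fun i => (⟨x i, hx i⟩ : A)) : MvPolynomial (Fin r) ℤ →ₐ[ℤ] A) Q =
      algebraMap K A u := by
    apply Subtype.ext
    have h2 : ((algebraMap A Ω) ((aeval (fun i => (⟨x i, hx i⟩ : A)) :
        MvPolynomial (Fin r) ℤ →ₐ[ℤ] A) Q)) = (aeval x : MvPolynomial (Fin r) ℤ →ₐ[ℤ] Ω) Q := by
      rw [← MvPolynomial.aeval_algebraMap_apply]
      rfl
    exact h2.trans hQ'
  have h3 : (aeval (fun i => Ideal.Quotient.mkₐ K m ⟨x i, hx i⟩) :
      MvPolynomial (Fin r) ℤ →ₐ[ℤ] (A ⧸ m)) Q = Ideal.Quotient.mkₐ K m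
        ((aeval (fun i => (⟨x i, hx i⟩ : A)) : MvPolynomial (Fin r) ℤ →ₐ[ℤ] A) Q) := by
    have h4 := MvPolynomial.map_aeval (R := ℤ) (fun i => (⟨x i, hx i⟩ : A))
      ((Ideal.Quotient.mkₐ K m : A →ₐ[K] A ⧸ m) : A →+* A ⧸ m) Q
    rw [aeval_def, eval₂_eq_eval_map]
    have h5 := h4
    simp only [RingHom.coe_coe] at h5
    rw [h5]
    rw [coe_eval₂Hom, eval₂_eq_eval_map]
    congr 1
  change (aeval (fun i => Ideal.Quotient.mkₐ K m ⟨x i, hx i⟩) :
      MvPolynomial (Fin r) ℤ →ₐ[ℤ] (A ⧸ m)) Q = _
  rw [h3, h1]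
  exact (Ideal.Quotient.mkₐ K m).commutes u

theorem fieldData_27 : FieldDataStmt := by
  intro N K K' _ _ _ _ _ f hf
  set A := Algebra.adjoin ℤ (Set.range f) with hA
  have hmem : ∀ Q : MvPolynomial (Fin N) ℤ, aeval f Q ∈ A := by
    intro Q
    rw [hA, Algebra.adjoin_range_eq_range_aeval]
    exact ⟨Q, rfl⟩
  have : Algebra.IsAlgebraic A K := by
    constructor
    intro x
    obtain ⟨P, Q, hQ, hx⟩ := hf x
    refine ⟨Polynomial.C (⟨aeval f Q, hmem Q⟩ : A) * Polynomial.X -
      Polynomial.C (⟨aeval f P, hmem P⟩ : A), ?_, ?_⟩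
    · intro h0
      have h1 := congrArg (fun p => Polynomial.coeff p 1) h0
      simp only [Polynomial.coeff_sub, Polynomial.coeff_C_mul, Polynomial.coeff_X_one, mul_one,
        Polynomial.coeff_C_succ, sub_zero, Polynomial.coeff_zero] at h1
      exact hQ (congrArg Subtype.val h1)
    · simp only [map_sub, map_mul, Polynomial.aeval_C, Polynomial.aeval_X]
      change aeval f Q * x - aeval f P = 0
      rw [← hx]
      ring
  obtain ⟨t, hts, ht⟩ := exists_isTranscendenceBasis_subset (R := ℤ) (Set.range f)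
  have : Finite t := (Set.finite_range f).subset hts
  have := Fintype.ofFinite t
  set e := (Fintype.equivFin t).symm with he
  set d := Fintype.card t with hd
  set y : Fin d → K := fun i => (e i : K) with hy
  have hyt : IsTranscendenceBasis ℤ y := (isTranscendenceBasis_equiv e).2 ht
  have hind : AlgebraicIndependent ℤ y := hyt.1
  have halg := hyt.isAlgebraic
  have hinj : Function.Injective ((aeval y : S d →ₐ[ℤ] K) : S d →+* K) := hind
  set φ₀ : F d →+* K := IsFractionRing.lift hinj with hφ
  let : Algebra (F d) K := φ₀.toAlgebra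
  have hφ₀ : ∀ s : S d, φ₀ (algebraMap (S d) (F d) s) = aeval y s := fun s =>
    IsFractionRing.lift_algebraMap hinj s
  -- every element is integral over `F d`
  have hint : ∀ k : K, IsIntegral (F d) k := by
    intro k
    obtain ⟨p, hp0, hp⟩ := halg.isAlgebraic k
    set g : Algebra.adjoin ℤ (Set.range y) →+* S d :=
      (hind.aevalEquiv.symm.toAlgHom : Algebra.adjoin ℤ (Set.range y) →ₐ[ℤ] S d).toRingHom with hg
    have hcomp : (φ₀.comp (algebraMap (S d) (F d))).comp g =
        algebraMap (Algebra.adjoin ℤ (Set.range y)) K := by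
      ext a
      simp only [RingHom.comp_apply]
      rw [hφ₀]
      obtain ⟨b, rfl⟩ := hind.aevalEquiv.surjective a
      have h1 : g (hind.aevalEquiv b) = b := by
        rw [hg]
        exact hind.aevalEquiv.symm_apply_apply b
      rw [h1]
      exact (hind.algebraMap_aevalEquiv b).symm
    have hcinj : Function.Injective ((algebraMap (S d) (F d)).comp g) := by
      refine (IsFractionRing.injective (S d) (F d)).comp ?_
      exact hind.aevalEquiv.symm.injective
    apply IsAlgebraic.isIntegral
    refine ⟨p.map ((algebraMap (S d) (F d)).comp g), ?_, ?_⟩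
    · rw [Ne, Polynomial.map_eq_zero_iff hcinj]
      exact hp0
    · rw [Polynomial.aeval_def, Polynomial.eval₂_map]
      have h2 : (algebraMap (F d) K).comp ((algebraMap (S d) (F d)).comp g) =
          algebraMap (Algebra.adjoin ℤ (Set.range y)) K := by
        rw [← RingHom.comp_assoc]
        exact hcomp
      rw [h2]
      exact hp
  have htop : IntermediateField.adjoin (F d) (Set.range f) = ⊤ := by
    rw [eq_top_iff]
    intro x _
    obtain ⟨P, Q, hQ, hx⟩ := hf x
    have hsub : ∀ R : MvPolynomial (Fin N) ℤ,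
        aeval f R ∈ IntermediateField.adjoin (F d) (Set.range f) := by
      intro R
      induction R using MvPolynomial.induction_on with
      | C a =>
        rw [aeval_C, algebraMap_int_eq, eq_intCast]
        exact intCast_mem _ a
      | add p q hp hq =>
        rw [map_add]
        exact add_mem hp hq
      | mul_X p i hp =>
        rw [map_mul, aeval_X]
        exact mul_mem hp (IntermediateField.subset_adjoin _ _ ⟨i, rfl⟩)
    have h1 : x = aeval f P / aeval f Q := by
      rw [eq_div_iff hQ]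
      exact hx
    rw [h1]
    exact div_mem (hsub P) (hsub Q)
  have hfd : FiniteDimensional (F d) (IntermediateField.adjoin (F d) (Set.range f)) := by
    have : Finite (Set.range f) := Set.finite_range f
    exact IntermediateField.finiteDimensional_adjoin fun k _ => hint k
  have hfin : Module.Finite (F d) K := by
    rw [htop] at hfd
    exact Module.Finite.equiv (IntermediateField.topEquiv (F := F d) (E := K)).toLinearEquiv
  refine ⟨d, (algebraMap K K').comp φ₀, ?_⟩
  refine RingHom.Finite.comp ?_ ?_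
  · rw [RingHom.finite_algebraMap]
    infer_instance
  · exact hfin

end Pool.Agent.Lib.MP_1e09a3_nt.CF
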