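import Pool.Agent.Lib.MP_1e09a3_nt.CF.CoreMain73

/-!
The theorem for elements of a differential field.
-/

open MvPolynomial

namespace Pool.Agent.Lib.MP_1e09a3_nt.CF

section ff

variable {Ω : Type} [Field Ω] {N : ℕ}

/-- the field of fractions of `ℤ[f]` in `Ω` -/
def ff (f : Fin N → Ω) : Subfield Ω where
  carrier := {x | ∃ A B : MvPolynomial (Fin N) ℤ, aeval f B ≠ 0 ∧ x * aeval f B = aeval f A}
  mul_mem' := by
    rintro x y ⟨A, B, hB, h⟩ ⟨A', B', hB', h'⟩
    refine ⟨A * A', B * B', ?_, ?_⟩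
    · rw [map_mul]; exact mul_ne_zero hB hB'
    · rw [map_mul, map_mul, ← h, ← h']; ring
  one_mem' := ⟨1, 1, by simp, by simp⟩
  add_mem' := by
    rintro x y ⟨A, B, hB, h⟩ ⟨A', B', hB', h'⟩
    refine ⟨A * B' + A' * B, B * B', ?_, ?_⟩
    · rw [map_mul]; exact mul_ne_zero hB hB'
    · rw [map_mul, map_add, map_mul, map_mul, ← h, ← h']; ring
  zero_mem' := ⟨0, 1, by simp, by simp⟩
  neg_mem' := by
    rintro x ⟨A, B, hB, h⟩
    exact ⟨-A, B, hB, by rw [map_neg, ← h]; ring⟩
  inv_mem' := by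
    rintro x ⟨A, B, hB, h⟩
    by_cases hx : x = 0
    · subst hx; exact ⟨0, 1, by simp, by simp⟩
    · refine ⟨B, A, ?_, ?_⟩
      · rw [← h]; exact mul_ne_zero hx hB
      · rw [← h, ← mul_assoc, inv_mul_cancel₀ hx, one_mul]

theorem aeval_mem_ff (f : Fin N → Ω) (A : MvPolynomial (Fin N) ℤ) : aeval f A ∈ ff f :=
  ⟨A, 1, by simp, by simp⟩

theorem apply_mem_ff (f : Fin N → Ω) (i : Fin N) : f i ∈ ff f := by
  have := aeval_mem_ff f (X i)
  rwa [aeval_X] at this

theorem exists_res (D : Derivation ℤ Ω Ω) (K : Type) [Field K] [Algebra K Ω]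
    (h : ∀ x : K, ∃ x' : K, algebraMap K Ω x' = D (algebraMap K Ω x)) :
    ∃ D₀ : Derivation ℤ K K, ∀ x, algebraMap K Ω (D₀ x) = D (algebraMap K Ω x) := by
  choose g hg using h
  have hinj := (algebraMap K Ω).injective
  refine ⟨Derivation.mk' (AddMonoidHom.toIntLinearMap
    { toFun := g
      map_zero' := hinj (by rw [hg, map_zero, map_zero])
      map_add' := fun a b => hinj (by rw [hg, map_add, map_add, map_add, hg, hg]) }) ?_,
    fun x => hg x⟩
  intro a b
  apply hinj
  change algebraMap K Ω (g (a * b)) = algebraMap K Ω (a * g b + b * g a)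
  rw [hg, map_mul, Derivation.leibniz, smul_eq_mul, smul_eq_mul, map_add, map_mul, map_mul, hg, hg]

theorem res_iterate {D : Derivation ℤ Ω Ω} {K : Type} [Field K] [Algebra K Ω]
    {D₀ : Derivation ℤ K K} (h : ∀ x, algebraMap K Ω (D₀ x) = D (algebraMap K Ω x)) (n : ℕ)
    (x : K) : algebraMap K Ω ((⇑D₀)^[n] x) = (⇑D)^[n] (algebraMap K Ω x) := by
  induction n generalizing x with
  | zero => rfl
  | succ n ih => rw [Function.iterate_succ_apply, Function.iterate_succ_apply, ih, h]

theorem der_mem_ff (D : Derivation ℤ Ω Ω) (P : Fin N → MvPolynomial (Fin N) ℤ) (f : Fin N → Ω)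
    (hf : ∀ i, D (f i) = aeval f (P i)) {x : Ω} (hx : x ∈ ff f) : D x ∈ ff f := by
  have hvf : ∀ q, D (aeval f q) = aeval f (vf P q) :=
    derivation_aeval D (vf P) f (fun i => by rw [hf, vf, mkDerivation_X])
  have hx' := hx
  obtain ⟨A, B, hB, h⟩ := hx
  have h1 : D x * aeval f B + x * D (aeval f B) = D (aeval f A) := by
    rw [← h, Derivation.leibniz, smul_eq_mul, smul_eq_mul]; ring
  have h2 : D x = (aeval f (vf P A) - x * aeval f (vf P B)) * (aeval f B)⁻¹ := by
    rw [← hvf, ← hvf, ← h1]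
    field_simp
    ring
  rw [h2]
  exact (ff f).mul_mem ((ff f).sub_mem (aeval_mem_ff _ _)
    ((ff f).mul_mem hx' (aeval_mem_ff _ _))) ((ff f).inv_mem (aeval_mem_ff _ _))

end ff

section conv

variable {Ω : Type} [Field Ω] [Algebra ℂ Ω]

theorem dep_of_isAlgebraic (z y : Ω) (h : IsAlgebraic (IntermediateField.adjoin ℂ {z}) y) :
    ∃ Q : MvPolynomial (Fin 2) ℂ, Q ≠ 0 ∧ aeval ![z, y] Q = 0 := by
  by_contra hcon
  push Not at hcon
  have hind : AlgebraicIndependent ℂ ![z, y] := by
    rw [algebraicIndependent_iff]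
    intro p hp
    by_contra hne
    exact hcon p hne hp
  have h1 := hind.transcendental_adjoin (s := {0}) (i := 1) (by simp)
  have h2 : (![z, y] : Fin 2 → Ω) '' {0} = {z} := by simp
  rw [h2] at h1
  apply h1
  open IntermediateField.algebraAdjoinAdjoin in
  have h3 : IsAlgebraic (Algebra.adjoin ℂ {z}) y :=
    (IsFractionRing.isAlgebraic_iff (Algebra.adjoin ℂ {z}) (IntermediateField.adjoin ℂ {z}) Ω).2 h
  exact h3

theorem transcendental_of_der [CharZero Ω] (D : Derivation ℤ Ω Ω)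
    (hD : ∀ c : ℂ, D (algebraMap ℂ Ω c) = 0) (z : Ω) (hz : D z = 1) (p : Polynomial ℂ)
    (hp : Polynomial.aeval z p = 0) : p = 0 := by
  induction hn : p.natDegree using Nat.strong_induction_on generalizing p with
  | _ n ih =>
    have h1 : Polynomial.aeval z (Polynomial.derivative p) = 0 := by
      have key : ∀ q : Polynomial ℂ, D (Polynomial.aeval z q) =
          Polynomial.aeval z (Polynomial.derivative q) := by
        intro q
        induction q using Polynomial.induction_on' with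
        | add p q hp hq => rw [map_add, map_add, map_add, map_add, hp, hq]
        | monomial n a =>
          rw [Polynomial.aeval_monomial, Derivation.leibniz, Derivation.leibniz_pow, hD, hz,
            Polynomial.derivative_monomial, Polynomial.aeval_monomial]
          simp [mul_assoc]
      rw [← key, hp, map_zero]
    by_cases hn0 : n = 0
    · obtain ⟨c, rfl⟩ := Polynomial.natDegree_eq_zero.1 (hn.trans hn0)
      rw [Polynomial.aeval_C, map_eq_zero] at hp
      rw [hp, map_zero]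
    · have h2 : (Polynomial.derivative p).natDegree < n := by
        rw [← hn]; exact Polynomial.natDegree_derivative_lt (by omega)
      have h3 := ih _ h2 (Polynomial.derivative p) h1 rfl
      obtain ⟨c, rfl⟩ := Polynomial.natDegree_eq_zero.1
        (Polynomial.derivative_eq_zero.1 h3)
      simp at hn
      omega

theorem isAlgebraic_of_rel [CharZero Ω] (D : Derivation ℤ Ω Ω)
    (hD : ∀ c : ℂ, D (algebraMap ℂ Ω c) = 0) (z t : Ω) (hz : D z = 1) (L : ℕ)
    (c : Fin L × Fin L → ℂ) (hc : c ≠ 0)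
    (h : ∑ q, algebraMap ℂ Ω (c q) * (z ^ (q.1 : ℕ) * t ^ (q.2 : ℕ)) = 0) :
    IsAlgebraic (IntermediateField.adjoin ℂ {z}) t := by
  set k := IntermediateField.adjoin ℂ {z} with hk
  have hzk : z ∈ k := IntermediateField.mem_adjoin_simple_self ℂ z
  set z' : k := ⟨z, hzk⟩ with hz'
  set a : Fin L → k := fun j => ∑ i, algebraMap ℂ k (c (i, j)) * z' ^ (i : ℕ) with ha
  have hacoe : ∀ j, algebraMap k Ω (a j) = ∑ i, algebraMap ℂ Ω (c (i, j)) * z ^ (i : ℕ) := by
    intro j
    rw [ha, map_sum]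
    refine Finset.sum_congr rfl fun i _ => ?_
    rw [map_mul, map_pow]
    rfl
  refine ⟨∑ j : Fin L, Polynomial.monomial (j : ℕ) (a j), ?_, ?_⟩
  · intro h0
    apply hc
    funext q
    have h1 : a q.2 = 0 := by
      have := congrArg (fun p => Polynomial.coeff p (q.2 : ℕ)) h0
      simp only [Polynomial.finsetSum_coeff, Polynomial.coeff_monomial,
        Polynomial.coeff_zero] at this
      rw [Finset.sum_eq_single q.2] at this
      · simpa using this
      · intro b _ hb
        rw [if_neg]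
        intro h2
        exact hb (Fin.ext h2)
      · intro h2
        exact absurd (Finset.mem_univ _) h2
    have h2 := hacoe q.2
    rw [h1, map_zero] at h2
    have h3 := transcendental_of_der D hD z hz
      (∑ i : Fin L, Polynomial.monomial (i : ℕ) (c (i, q.2))) (by
        rw [map_sum]
        rw [h2]
        refine Finset.sum_congr rfl fun i _ => ?_
        rw [Polynomial.aeval_monomial])
    have h4 := congrArg (fun p => Polynomial.coeff p (q.1 : ℕ)) h3
    simp only [Polynomial.finsetSum_coeff, Polynomial.coeff_monomial,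
      Polynomial.coeff_zero] at h4
    rw [Finset.sum_eq_single q.1] at h4
    · simpa using h4
    · intro b _ hb
      rw [if_neg]
      intro h2
      exact hb (Fin.ext h2)
    · intro h2
      exact absurd (Finset.mem_univ _) h2
  · rw [map_sum, ← h, Fintype.sum_prod_type_right]
    refine Finset.sum_congr rfl fun j _ => ?_
    rw [Polynomial.aeval_monomial, hacoe, Finset.sum_mul]
    refine Finset.sum_congr rfl fun i _ => ?_
    ring

end conv

theorem field_main (hcore : CoreStmt) (hfd : FieldDataStmt) (htr : TraceStmt)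
    (hta : TraceAlgStmt) (Ω : Type) [Field Ω] [Algebra ℂ Ω] (Δ : Derivation ℤ Ω Ω)
    (hΔc : ∀ c : ℂ, Δ (algebraMap ℂ Ω c) = 0)
    (hconst : ∀ x, Δ x = 0 → ∃ c : ℂ, algebraMap ℂ Ω c = x)
    (N : ℕ) (P : Fin N → MvPolynomial (Fin N) ℤ) (κ : MvPolynomial (Fin N) ℤ)
    (E : Option (Fin N) → ℂ → (Fin N → ℂ) → ℂ) (hE : IsMeroFlow P κ E) (f : Fin N → Ω)
    (hf : ∀ i, Δ (f i) = aeval f (P i)) (hκ : aeval f κ ≠ 0)
    (z y : Ω) (hz : z ∈ ff f) (hz' : Δ z ≠ 0) (hy : IsAlgebraic (ff f) y)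
    (r : ℕ) (x : Fin r → Ω) (hR : ∀ k n : ℕ, (fun w => (Δ z)⁻¹ * Δ w)^[n] (y ^ k) /
      (n.factorial : Ω) ∈ Algebra.adjoin ℤ (Set.range x)) :
    ∃ Q : MvPolynomial (Fin 2) ℂ, Q ≠ 0 ∧ aeval ![z, y] Q = 0 := by
  have : CharZero Ω := charZero_of_injective_algebraMap (algebraMap ℂ Ω).injective
  set K := ff f with hK
  have hΔK : ∀ w ∈ K, Δ w ∈ K := fun w hw => der_mem_ff Δ P f hf hw
  set z₀ : K := ⟨z, hz⟩ with hz₀
  have hzinv : (Δ z)⁻¹ ∈ K := K.inv_mem (hΔK z hz)
  -- the derivation `d/dz`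
  set D : Derivation ℤ Ω Ω := (Δ z)⁻¹ • Δ with hD
  have hDapp : ∀ w, D w = (Δ z)⁻¹ * Δ w := fun w => rfl
  have hDfun : (⇑D) = fun w => (Δ z)⁻¹ * Δ w := funext hDapp
  have hDz : D z = 1 := by rw [hDapp, inv_mul_cancel₀ hz']
  have hDc : ∀ c : ℂ, D (algebraMap ℂ Ω c) = 0 := fun c => by rw [hDapp, hΔc, mul_zero]
  have hΔD : ∀ w, Δ w = Δ z * D w := fun w => by
    rw [hDapp, ← mul_assoc, mul_inv_cancel₀ hz', one_mul]
  obtain ⟨Δ₀, hΔ₀⟩ := exists_res Δ K (fun w => ⟨⟨Δ w, hΔK w w.2⟩, rfl⟩)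
  obtain ⟨D₀, hD₀⟩ := exists_res D K (fun w => ⟨⟨D w, K.mul_mem hzinv (hΔK w w.2)⟩, rfl⟩)
  -- the field `K(y)`
  set K₁ := IntermediateField.adjoin K {y} with hK₁
  have hyint : IsIntegral K y := hy.isIntegral
  have hfin : Module.Finite K K₁ := IntermediateField.adjoin.finiteDimensional hyint
  have hyK : y ∈ K₁ := IntermediateField.mem_adjoin_simple_self K y
  have hKK₁ : ∀ w ∈ K, w ∈ K₁ := fun w hw => K₁.algebraMap_mem ⟨w, hw⟩
  have hDy : D y ∈ K₁ := by
    set m := minpoly K y with hm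
    have hsep : Polynomial.aeval y (Polynomial.derivative m) ≠ 0 :=
      (minpoly.irreducible hyint).separable.aeval_derivative_ne_zero (minpoly.aeval K y)
    have h0 : Polynomial.aeval y m = 0 := minpoly.aeval K y
    have key : ∀ q : Polynomial K, D (Polynomial.aeval y q) -
        Polynomial.aeval y (Polynomial.derivative q) * D y ∈ K₁ := by
      intro q
      induction q using Polynomial.induction_on' with
      | add p q hp hq =>
        have := K₁.add_mem hp hq
        simp only [map_add]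
        convert this using 1
        ring
      | monomial n a =>
        rw [Polynomial.aeval_monomial, Derivation.leibniz, Derivation.leibniz_pow,
          Polynomial.derivative_monomial, Polynomial.aeval_monomial]
        have e1 : algebraMap K Ω a • (n • y ^ (n - 1) • D y) + y ^ n • D (algebraMap K Ω a) -
            algebraMap K Ω (a * (n : K)) * y ^ (n - 1) * D y = y ^ n * D (algebraMap K Ω a) := by
          simp only [smul_eq_mul, nsmul_eq_mul, map_mul, map_natCast]
          ring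
        rw [e1, ← hD₀]
        exact K₁.mul_mem (pow_mem hyK _) (K₁.algebraMap_mem _)
    have h1 := key m
    rw [h0, map_zero, zero_sub] at h1
    have h2 : D y = -(Polynomial.aeval y (Polynomial.derivative m))⁻¹ *
        -(Polynomial.aeval y (Polynomial.derivative m) * D y) := by
      field_simp
    rw [h2]
    refine K₁.mul_mem (K₁.neg_mem (K₁.inv_mem ?_)) h1
    have : Polynomial.aeval y (Polynomial.derivative m) =
        algebraMap K₁ Ω (Polynomial.aeval (⟨y, hyK⟩ : K₁) (Polynomial.derivative m)) := by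
      rw [← Polynomial.aeval_algebraMap_apply]
      rfl
    rw [this]
    exact (Polynomial.aeval (⟨y, hyK⟩ : K₁) (Polynomial.derivative m)).2
  have hDK₁ : ∀ w ∈ K₁, D w ∈ K₁ := by
    set T : IntermediateField K Ω :=
      { carrier := {w | w ∈ K₁ ∧ D w ∈ K₁}
        mul_mem' := by
          rintro a b ⟨ha, ha'⟩ ⟨hb, hb'⟩
          refine ⟨K₁.mul_mem ha hb, ?_⟩
          rw [Derivation.leibniz, smul_eq_mul, smul_eq_mul]
          exact K₁.add_mem (K₁.mul_mem ha hb') (K₁.mul_mem hb ha')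
        one_mem' := ⟨K₁.one_mem, by rw [Derivation.map_one_eq_zero]; exact K₁.zero_mem⟩
        add_mem' := by
          rintro a b ⟨ha, ha'⟩ ⟨hb, hb'⟩
          refine ⟨K₁.add_mem ha hb, ?_⟩
          rw [map_add]
          exact K₁.add_mem ha' hb'
        zero_mem' := ⟨K₁.zero_mem, by rw [map_zero]; exact K₁.zero_mem⟩
        inv_mem' := by
          rintro a ⟨ha, ha'⟩
          refine ⟨K₁.inv_mem ha, ?_⟩
          rw [Derivation.leibniz_inv, smul_eq_mul]
          exact K₁.mul_mem (K₁.neg_mem (pow_mem (K₁.inv_mem ha) _)) ha'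
        algebraMap_mem' := by
          intro a
          refine ⟨K₁.algebraMap_mem a, ?_⟩
          rw [← hD₀]
          exact K₁.algebraMap_mem _ } with hT
    have h1 : K₁ ≤ T := by
      rw [hK₁, IntermediateField.adjoin_le_iff]
      rintro w hw
      rw [Set.mem_singleton_iff] at hw
      subst hw
      exact ⟨hyK, hDy⟩
    exact fun w hw => (h1 hw).2
  obtain ⟨D₁, hD₁⟩ := exists_res D K₁ (fun w => ⟨⟨D w, hDK₁ w w.2⟩, rfl⟩)
  set y₁ : K₁ := ⟨y, hyK⟩ with hy₁
  have hD₁₀ : ∀ w, D₁ (algebraMap K K₁ w) = algebraMap K K₁ (D₀ w) := by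
    intro w
    apply (algebraMap K₁ Ω).injective
    rw [hD₁, ← IsScalarTower.algebraMap_apply, ← IsScalarTower.algebraMap_apply, hD₀]
  -- traces of powers
  set f₀ : Fin N → K := fun i => ⟨f i, apply_mem_ff f i⟩ with hf₀
  have haev : ∀ q : MvPolynomial (Fin N) ℤ, algebraMap K Ω (aeval f₀ q) = aeval f q := by
    intro q
    rw [map_aeval_int (algebraMap K Ω)]
    rfl
  have hinjK := (algebraMap K Ω).injective
  have hf₀Δ : ∀ i, Δ₀ (f₀ i) = aeval f₀ (P i) := by
    intro i
    apply hinjK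
    rw [hΔ₀, haev, ← hf i]
    rfl
  have hgen : ∀ x : K, ∃ A B : MvPolynomial (Fin N) ℤ, aeval f₀ B ≠ 0 ∧
      x * aeval f₀ B = aeval f₀ A := by
    rintro ⟨x, A, B, hB, h⟩
    refine ⟨A, B, ?_, ?_⟩
    · intro h0
      apply hB
      rw [← haev, h0, map_zero]
    · apply hinjK
      rw [map_mul, haev, haev]
      exact h
  have hκ₀ : aeval f₀ κ ≠ 0 := by
    intro h0
    apply hκ
    rw [← haev, h0, map_zero]
  have hz₀' : Δ₀ z₀ ≠ 0 := by
    intro h0
    apply hz'
    have := hΔ₀ z₀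
    rw [h0, map_zero] at this
    exact this.symm
  have hΔD₀ : ∀ w, Δ₀ w = Δ₀ z₀ * D₀ w := by
    intro w
    apply hinjK
    rw [map_mul, hΔ₀, hΔ₀, hD₀]
    exact hΔD _
  obtain ⟨Z₁, Z₀, hZ₀, hZ⟩ := hgen z₀
  have htrace : ∀ k : ℕ, IsAlgebraic (IntermediateField.adjoin ℂ {z})
      (algebraMap K Ω (Algebra.trace K K₁ (y₁ ^ k))) := by
    intro k
    obtain ⟨K', _, _, _, r', x', hx'⟩ := htr K K₁ Ω D₀ D₁ hD₁₀ r x (y₁ ^ k) (by
      intro n
      rw [res_iterate hD₁, map_pow]
      have := hR k n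
      rw [← hDfun] at this
      exact this)
    obtain ⟨d, φ, hφ⟩ := hfd N K K' f₀ hgen
    obtain ⟨T₁, T₀, hT₀, hT⟩ := hgen (Algebra.trace K K₁ (y₁ ^ k))
    obtain ⟨L, c, hc0, hcD, hc⟩ := hcore N P κ E hE K K' d φ hφ Δ₀ D₀ f₀ hf₀Δ hκ₀ (Z₀ * T₀)
      (Z₁ * T₀) (T₁ * Z₀) z₀ (Algebra.trace K K₁ (y₁ ^ k))
      (by rw [map_mul]; exact mul_ne_zero hZ₀ hT₀)
      (by rw [map_mul, map_mul, ← hZ]; ring)
      (by rw [map_mul, map_mul, ← hT]; ring) hz₀' hΔD₀ r' x' hx'
    have hcc : ∀ q, ∃ a : ℂ, algebraMap ℂ Ω a = algebraMap K Ω (c q) := by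
      intro q
      refine hconst _ ?_
      rw [← hΔ₀, hΔD₀, hcD, mul_zero, map_zero]
    choose a ha using hcc
    refine isAlgebraic_of_rel D hDc z _ hDz L a ?_ ?_
    · intro h0
      apply hc0
      funext q
      apply hinjK
      rw [← ha, h0]
      simp
    · have h1 := congrArg (algebraMap K Ω) hc
      rw [map_sum, map_zero] at h1
      rw [← h1]
      refine Finset.sum_congr rfl fun q _ => ?_
      rw [ha, map_mul (algebraMap K Ω), map_mul (algebraMap K Ω), map_pow (algebraMap K Ω),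
        map_pow (algebraMap K Ω)]
      rfl
  -- the algebraic closure of `ℂ(z)`
  set L₀ := IntermediateField.adjoin ℂ {z} with hL₀
  set k : Subfield K := (algebraicClosure L₀ Ω).toSubfield.comap (algebraMap K Ω) with hk
  have : IsScalarTower k K K₁ := IsScalarTower.of_algebraMap_eq fun _ => rfl
  have hyk : IsAlgebraic k y₁ := by
    refine hta k K K₁ y₁ fun n => ?_
    have hmem : Algebra.trace K K₁ (y₁ ^ n) ∈ k := by
      rw [hk, Subfield.mem_comap]
      exact mem_algebraicClosure_iff.2 (htrace n)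
    exact isAlgebraic_algebraMap (⟨_, hmem⟩ : k)
  have hyL : IsAlgebraic (algebraicClosure L₀ Ω) y := by
    obtain ⟨p, hp0, hp⟩ := hyk
    let ψ : k →+* algebraicClosure L₀ Ω :=
      { toFun := fun w => ⟨algebraMap K Ω w, w.2⟩
        map_one' := rfl
        map_mul' := fun _ _ => rfl
        map_zero' := rfl
        map_add' := fun _ _ => rfl }
    refine ⟨p.map ψ, (Polynomial.map_ne_zero_iff ψ.injective).2 hp0, ?_⟩
    have h1 := congrArg (algebraMap K₁ Ω) hp
    rw [map_zero, Polynomial.aeval_def, Polynomial.hom_eval₂] at h1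
    rw [Polynomial.aeval_def, Polynomial.eval₂_map]
    exact h1
  have hyL' : IsAlgebraic L₀ y := hyL.restrictScalars L₀
  exact dep_of_isAlgebraic z y hyL'

end Pool.Agent.Lib.MP_1e09a3_nt.CF
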