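import Mathlib

/-!
Complete polynomial flows and integral functions: statements of the modules.
-/

open MvPolynomial

namespace Pool.Agent.Lib.MP_1e09a3_nt.CF

/-- integer polynomials in `d` variables -/
abbrev S (d : ℕ) : Type := MvPolynomial (Fin d) ℤ

/-- rational functions in `d` variables -/
abbrev F (d : ℕ) : Type := FractionRing (S d)

/-! ### polynomials in several variables -/

/-- A nonzero polynomial is bounded below on some polydisc of radius 2. -/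
def AvoidStmt : Prop :=
  ∀ (d : ℕ) (h : S d), h ≠ 0 → ∃ (c : Fin d → ℂ) (ε : ℝ), 0 < ε ∧
    ∀ w : Fin d → ℂ, (∀ i, ‖w i - c i‖ ≤ 2) → ε ≤ ‖aeval w h‖

/-- On every polydisc of radius 1 a nonzero integer polynomial takes a value of size at least 1. -/
def CapacityStmt : Prop :=
  ∀ (d : ℕ) (G : S d), G ≠ 0 → ∀ c : Fin d → ℂ, ∃ w : Fin d → ℂ,
    (∀ i, ‖w i - c i‖ ≤ 1) ∧ 1 ≤ ‖aeval w G‖

/-- The point can be taken with algebraically independent coordinates. -/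
def GenericStmt : Prop :=
  ∀ (d : ℕ) (G : S d), G ≠ 0 → ∀ c : Fin d → ℂ, ∃ w : Fin d → ℂ,
    (∀ i, ‖w i - c i‖ ≤ 2) ∧ Function.Injective (aeval w : S d →ₐ[ℤ] ℂ) ∧ 1 / 2 ≤ ‖aeval w G‖

/-! ### fields finite over `F d` -/

/-- integrality over `ℤ[w_1, …, w_d]` -/
def Intg {d : ℕ} {K : Type} [Field K] (φ : F d →+* K) (b : K) : Prop :=
  (φ.comp (algebraMap (S d) (F d))).IsIntegralElem b

/-- For a field `K` finite over `F d` and finitely many elements `e i` of `K` there is `A` such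
that for every nonzero integral `b` some embedding of `K` in `ℂ` satisfies `|σ(e i)| ≤ A` and
`|σ b| ≥ 1/2`. -/
def NormPointStmt : Prop :=
  ∀ (d : ℕ) (K : Type) [Field K] (φ : F d →+* K), φ.Finite → ∀ (m : ℕ) (e : Fin m → K),
    ∃ A : ℝ, ∀ b : K, b ≠ 0 → Intg φ b → ∃ σ : K →+* ℂ, (∀ i, ‖σ (e i)‖ ≤ A) ∧ 1 / 2 ≤ ‖σ b‖

/-- Denominators grow at most geometrically. -/
def GrowthStmt : Prop :=
  ∀ (d : ℕ) (K : Type) [Field K] (φ : F d →+* K), φ.Finite →
    ∀ (m : ℕ) (e : Fin m → K) (c : ℕ) (Q : ℕ → MvPolynomial (Fin m) ℤ) (y : ℕ → K),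
    (∀ n, (Q n).totalDegree ≤ c * (n + 1)) →
    (∀ n, (n.factorial : K) * y n = aeval e (Q n)) →
    ∀ (r : ℕ) (x : Fin r → K), (∀ n, y n ∈ Algebra.adjoin ℤ (Set.range x)) →
    ∃ g : S d, g ≠ 0 ∧ (∀ i, Intg φ (φ (algebraMap (S d) (F d) g) * e i)) ∧
      ∀ n, Intg φ (φ (algebraMap (S d) (F d) g) ^ (n + 1) * y n)

/-- The data over which the norm is taken: `K` is the field of fractions of `ℤ[f]`, `K'` is a
finite extension of `K`. -/
def FieldDataStmt : Prop :=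
  ∀ (N : ℕ) (K K' : Type) [Field K] [CharZero K] [Field K'] [Algebra K K'] [Module.Finite K K']
    (f : Fin N → K),
    (∀ x : K, ∃ A B : MvPolynomial (Fin N) ℤ, aeval f B ≠ 0 ∧ x * aeval f B = aeval f A) →
    ∃ (d : ℕ) (φ : F d →+* K'), φ.Finite

/-- Nullstellensatz: finitely generated rings may be moved into a finite extension of `K`, keeping
all the elements that lie in `K`. -/
def RetractStmt : Prop :=
  ∀ (K Ω : Type) [Field K] [Field Ω] [Algebra K Ω] (r : ℕ) (x : Fin r → Ω),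
    ∃ (K' : Type) (_ : Field K') (_ : Algebra K K') (_ : Module.Finite K K') (x' : Fin r → K'),
      ∀ u : K, algebraMap K Ω u ∈ Algebra.adjoin ℤ (Set.range x) →
        algebraMap K K' u ∈ Algebra.adjoin ℤ (Set.range x')

/-- The trace of an element whose divided derivatives lie in a finitely generated ring has the
same property. -/
def TraceStmt : Prop :=
  ∀ (K K₁ Ω : Type) [Field K] [CharZero K] [Field K₁] [Field Ω] [Algebra K K₁]
    [Module.Finite K K₁] [Algebra K₁ Ω] (D₀ : Derivation ℤ K K) (D : Derivation ℤ K₁ K₁),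
    (∀ x, D (algebraMap K K₁ x) = algebraMap K K₁ (D₀ x)) →
    ∀ (r : ℕ) (x : Fin r → Ω) (u : K₁),
    (∀ n : ℕ, algebraMap K₁ Ω ((⇑D)^[n] u) / (n.factorial : Ω) ∈
      Algebra.adjoin ℤ (Set.range x)) →
    ∃ (K' : Type) (_ : Field K') (_ : Algebra K K') (_ : Module.Finite K K') (r' : ℕ)
      (x' : Fin r' → K'), ∀ n : ℕ,
        algebraMap K K' ((⇑D₀)^[n] (Algebra.trace K K₁ u)) / (n.factorial : K') ∈
          Algebra.adjoin ℤ (Set.range x')

/-- An element is algebraic if all the traces of its powers are. -/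
def TraceAlgStmt : Prop :=
  ∀ (k K K₁ : Type) [Field k] [Field K] [CharZero K] [Field K₁] [Algebra k K] [Algebra K K₁]
    [Algebra k K₁] [IsScalarTower k K K₁] [Module.Finite K K₁] (y : K₁),
    (∀ n : ℕ, IsAlgebraic k (Algebra.trace K K₁ (y ^ n))) → IsAlgebraic k y

/-! ### Wronskians -/

/-- the matrix of the derivatives `D^k v_j` -/
def wrM {K : Type} [Field K] (D : Derivation ℤ K K) {n : ℕ} (v : Fin n → K) :
    Matrix (Fin n) (Fin n) K := Matrix.of fun k j => (⇑D)^[k] (v j)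

def WrChangeStmt : Prop :=
  ∀ (K : Type) [Field K] (E D : Derivation ℤ K K) (u : K), (∀ x, E x = u * D x) →
    ∀ (n : ℕ) (v : Fin n → K), (wrM E v).det = u ^ (n * (n - 1) / 2) * (wrM D v).det

def WrZeroStmt : Prop :=
  ∀ (K : Type) [Field K] (D : Derivation ℤ K K) (n : ℕ) (v : Fin n → K), (wrM D v).det = 0 →
    ∃ c : Fin n → K, c ≠ 0 ∧ (∀ j, D (c j) = 0) ∧ ∑ j, c j * v j = 0

/-- the matrix of the coefficients of a family of power series -/
noncomputable def coM {n : ℕ} (v : Fin n → PowerSeries ℂ) : Matrix (Fin n) (Fin n) ℂ :=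
  Matrix.of fun k j => PowerSeries.coeff (k : ℕ) (v j)

def SeriesMulStmt : Prop :=
  ∀ (n : ℕ) (v : Fin n → PowerSeries ℂ) (Q : PowerSeries ℂ),
    (coM fun j => Q * v j).det = PowerSeries.constantCoeff Q ^ n * (coM v).det

/-- `∑ |a_k| ρ^k ≤ B` -/
def SB (ρ B : ℝ) (u : PowerSeries ℂ) : Prop :=
  ∀ n : ℕ, ∑ k ∈ Finset.range n, ‖PowerSeries.coeff k u‖ * ρ ^ k ≤ B

def SBMulStmt : Prop :=
  ∀ (ρ B B' : ℝ) (u v : PowerSeries ℂ), 0 < ρ → SB ρ B u → SB ρ B' v → SB ρ (B * B') (u * v)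

def DetBoundStmt : Prop :=
  ∀ (n : ℕ) (ρ B : ℝ) (v : Fin n → PowerSeries ℂ), 0 < ρ → (∀ j, SB ρ B (v j)) →
    ‖(coM v).det‖ ≤ n.factorial * B ^ n / ρ ^ (n * (n - 1) / 2)

/-! ### flows -/

/-- the derivation `∑ P_i ∂/∂X_i` -/
noncomputable def vf {N : ℕ} (P : Fin N → MvPolynomial (Fin N) ℤ) :
    Derivation ℤ (MvPolynomial (Fin N) ℤ) (MvPolynomial (Fin N) ℤ) := mkDerivation ℤ P

/-- All solutions of the system `X_i' = P_i(X)` are entire. -/
def IsComplete {N : ℕ} (P : Fin N → MvPolynomial (Fin N) ℤ) : Prop :=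
  ∀ a : Fin N → ℂ, ∃ u : ℂ → Fin N → ℂ, u 0 = a ∧
    ∀ s i, HasDerivAt (fun t => u t i) (aeval (u s) (P i)) s

/-- The solutions of `X_i' = P_i(X)`, `X(0) = a`, with `κ(a) ≠ 0`, are meromorphic functions
`E_i/E_0` on `ℂ`, where the functions `E_j(s, a)` (`E none` is the denominator `E_0`) are
continuous in `(s, a)` and entire in `s`. -/
structure IsMeroFlow {N : ℕ} (P : Fin N → MvPolynomial (Fin N) ℤ) (κ : MvPolynomial (Fin N) ℤ)
    (E : Option (Fin N) → ℂ → (Fin N → ℂ) → ℂ) : Prop where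
  cont : ∀ j, ContinuousOn (fun q : ℂ × (Fin N → ℂ) => E j q.1 q.2) {q | aeval q.2 κ ≠ 0}
  diff : ∀ j a, aeval a κ ≠ 0 → Differentiable ℂ (fun s => E j s a)
  ne_zero : ∀ a, aeval a κ ≠ 0 → E none 0 a ≠ 0
  init : ∀ a i, aeval a κ ≠ 0 → E (some i) 0 a = a i * E none 0 a
  ode : ∀ a, aeval a κ ≠ 0 → ∀ s, E none s a ≠ 0 → ∀ i,
    HasDerivAt (fun t => E (some i) t a / E none t a)
      (aeval (fun j => E (some j) s a / E none s a) (P i)) s

def CompleteFlowStmt : Prop :=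
  ∀ (N : ℕ) (P : Fin N → MvPolynomial (Fin N) ℤ), IsComplete P →
    ∃ E : Option (Fin N) → ℂ → (Fin N → ℂ) → ℂ, IsMeroFlow P 1 E

/-- the formal solution with initial value `a` -/
noncomputable def sol {N : ℕ} (P : Fin N → MvPolynomial (Fin N) ℤ) (a : Fin N → ℂ) (i : Fin N) :
    PowerSeries ℂ := PowerSeries.mk fun k => aeval a ((⇑(vf P))^[k] (X i)) / (k.factorial : ℂ)

/-- bounds for the solutions, uniform on the sets `|a| ≤ A`, `|κ(a)| ≥ ε` -/
def FlowBoundStmt : Prop :=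
  ∀ (N : ℕ) (P : Fin N → MvPolynomial (Fin N) ℤ) (κ : MvPolynomial (Fin N) ℤ)
    (E : Option (Fin N) → ℂ → (Fin N → ℂ) → ℂ), IsMeroFlow P κ E →
    ∀ A ε ρ : ℝ, 0 < ε → 0 < ρ → ∃ B : ℝ, 1 ≤ B ∧ ∀ a : Fin N → ℂ, (∀ i, ‖a i‖ ≤ A) →
      ε ≤ ‖aeval a κ‖ → ∃ Q : PowerSeries ℂ, PowerSeries.constantCoeff Q = 1 ∧ SB ρ B Q ∧
        ∀ i, SB ρ B (Q * sol P a i)

/-! ### the core -/

def CoreStmt : Prop :=
  ∀ (N : ℕ) (P : Fin N → MvPolynomial (Fin N) ℤ) (κ : MvPolynomial (Fin N) ℤ)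
    (E : Option (Fin N) → ℂ → (Fin N → ℂ) → ℂ), IsMeroFlow P κ E →
    ∀ (K K' : Type) [Field K] [CharZero K] [Field K'] [Algebra K K'] (d : ℕ) (φ : F d →+* K'),
    φ.Finite → ∀ (Δ D : Derivation ℤ K K) (f : Fin N → K),
    (∀ i, Δ (f i) = aeval f (P i)) → aeval f κ ≠ 0 →
    ∀ (G₀ G₁ G₂ : MvPolynomial (Fin N) ℤ) (z y : K), aeval f G₀ ≠ 0 →
    z * aeval f G₀ = aeval f G₁ → y * aeval f G₀ = aeval f G₂ → Δ z ≠ 0 →
    (∀ x, Δ x = Δ z * D x) →
    ∀ (r : ℕ) (x : Fin r → K'),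
    (∀ n : ℕ, algebraMap K K' ((⇑D)^[n] y) / (n.factorial : K') ∈
      Algebra.adjoin ℤ (Set.range x)) →
    ∃ (L : ℕ) (c : Fin L × Fin L → K), c ≠ 0 ∧ (∀ q, D (c q) = 0) ∧
      ∑ q, c q * (z ^ (q.1 : ℕ) * y ^ (q.2 : ℕ)) = 0

/-! ### towers of linear systems -/

/-- `X_i' = B_i + ∑ A_ij X_j`, the sum over the `j` of the same level as `i`, where `B_i` and
`A_ij` contain only variables of lower level. -/
def IsTower {N : ℕ} {R : Type} [CommRing R] (level : Fin N → ℕ)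
    (P : Fin N → MvPolynomial (Fin N) R) : Prop :=
  ∀ i, ∃ (B : MvPolynomial (Fin N) R) (A : Fin N → MvPolynomial (Fin N) R),
    (∀ k ∈ B.vars, level k < level i) ∧ (∀ j, ∀ k ∈ (A j).vars, level k < level i) ∧
      P i = B + ∑ j ∈ Finset.univ.filter (fun j => level j = level i), A j * X j

def TowerStmt : Prop :=
  ∀ (N : ℕ) (level : Fin N → ℕ) (P : Fin N → MvPolynomial (Fin N) ℤ), IsTower level P →
    IsComplete P

/-- existence of entire solutions of linear systems with entire coefficients -/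
def LinearStmt : Prop :=
  ∀ (N : ℕ) (A : Fin N → Fin N → ℂ → ℂ) (B : Fin N → ℂ → ℂ),
    (∀ i j, Differentiable ℂ (A i j)) → (∀ i, Differentiable ℂ (B i)) → ∀ a : Fin N → ℂ,
    ∃ u : ℂ → Fin N → ℂ, u 0 = a ∧
      ∀ s i, HasDerivAt (fun t => u t i) (B i s + ∑ j, A i j s * u s j) s

/-- Systems with complex coefficients come from systems with integer coefficients in which the
constants are additional unknowns. -/
def ComplexCoeffStmt : Prop :=
  ∀ (N : ℕ) (level : Fin N → ℕ) (P : Fin N → MvPolynomial (Fin N) ℂ), IsTower level P →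
    ∃ (M : ℕ) (c : Fin M → ℂ) (level' : Fin (N + M) → ℕ)
      (P' : Fin (N + M) → MvPolynomial (Fin (N + M)) ℤ), IsTower level' P' ∧
      (∀ x : Fin N → ℂ, ∀ i, aeval (Fin.append x c) (P' (Fin.castAdd M i)) = eval x (P i)) ∧
      (∀ j, P' (Fin.natAdd N j) = 0)

/-- Additional unknowns with derivative zero may be adjoined. -/
def ExtendStmt : Prop :=
  ∀ (N : ℕ) (P : Fin N → MvPolynomial (Fin N) ℤ) (κ : MvPolynomial (Fin N) ℤ)
    (E : Option (Fin N) → ℂ → (Fin N → ℂ) → ℂ), IsMeroFlow P κ E → ∀ M : ℕ,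
    ∃ E' : Option (Fin (N + M)) → ℂ → (Fin (N + M) → ℂ) → ℂ,
      IsMeroFlow (Fin.append (fun i => rename (Fin.castAdd M) (P i)) (fun _ : Fin M => 0))
        (rename (Fin.castAdd M) κ) E'

end Pool.Agent.Lib.MP_1e09a3_nt.CF
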