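import Mathlib
import Pool.Agent.Lib.MP_1e09a3_nt.CF.Stmts73
import Pool.Agent.Lib.MP_1e09a3_nt.Taylor

/-!
MP_1e09a3_nt, complete flows, module 10: uniform bounds for the Taylor series of the solutions.
-/

set_option autoImplicit false

open MvPolynomial Filter Topology

namespace Pool.Agent.Lib.MP_1e09a3_nt.CF

theorem fb_cont_96 {N : ℕ} (κ : MvPolynomial (Fin N) ℤ) :
    Continuous fun a : Fin N → ℂ => aeval a κ := by
  induction κ using MvPolynomial.induction_on with
  | C c => simpa using continuous_const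
  | add p q hp hq =>
    simp only [map_add]
    exact hp.add hq
  | mul_X p i hp =>
    simp only [map_mul, MvPolynomial.aeval_X]
    exact hp.mul (continuous_apply i)

theorem fb_deriv_96 {N : ℕ} (P : Fin N → MvPolynomial (Fin N) ℤ) (u : ℂ → Fin N → ℂ) (s : ℂ)
    (hu : ∀ i, HasDerivAt (fun t => u t i) (aeval (u s) (P i)) s)
    (p : MvPolynomial (Fin N) ℤ) :
    HasDerivAt (fun t => aeval (u t) p) (aeval (u s) (vf P p)) s := by
  induction p using MvPolynomial.induction_on with
  | C c =>
    have : vf P (C c) = 0 := by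
      unfold vf
      exact derivation_C _ c
    rw [this, map_zero]
    simp only [MvPolynomial.aeval_C]
    exact hasDerivAt_const s _
  | add p q hp hq =>
    simp only [map_add]
    exact hp.add hq
  | mul_X p i hp =>
    have e : vf P (p * X i) = p * P i + X i * vf P p := by
      rw [Derivation.leibniz]
      have : vf P (X i) = P i := by
        unfold vf
        exact mkDerivation_X ℤ P i
      rw [this, smul_eq_mul, smul_eq_mul]
    rw [e]
    simp only [map_mul, map_add, MvPolynomial.aeval_X]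
    have h := hp.mul (hu i)
    refine h.congr_deriv ?_
    ring

theorem fb_iter_96 {N : ℕ} (P : Fin N → MvPolynomial (Fin N) ℤ) (u : ℂ → Fin N → ℂ) (O : Set ℂ)
    (hO : IsOpen O)
    (hu : ∀ s ∈ O, ∀ i, HasDerivAt (fun t => u t i) (aeval (u s) (P i)) s)
    (p : MvPolynomial (Fin N) ℤ) (k : ℕ) :
    ∀ s ∈ O, iteratedDeriv k (fun t => aeval (u t) p) s = aeval (u s) ((⇑(vf P))^[k] p) := by
  induction k with
  | zero =>
    intro s _
    simp
  | succ k ih =>
    intro s hs
    rw [iteratedDeriv_succ, Function.iterate_succ_apply']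
    have h1 : iteratedDeriv k (fun t => aeval (u t) p) =ᶠ[𝓝 s]
        fun t => aeval (u t) ((⇑(vf P))^[k] p) := by
      filter_upwards [hO.mem_nhds hs] with t ht using ih t ht
    rw [h1.deriv_eq]
    exact (fb_deriv_96 P u s (hu s hs) _).deriv

theorem fb_sb_96 (h : ℂ → ℂ) (hh : Differentiable ℂ h) (ρ B : ℝ) (hρ : 0 < ρ)
    (hB : ∀ s, ‖s‖ ≤ 2 * ρ → ‖h s‖ ≤ B) : SB ρ (2 * B) (taylor 0 h) := by
  have hB0 : 0 ≤ B := (norm_nonneg _).trans (hB 0 (by rw [norm_zero]; positivity))
  intro n
  have h1 : ∀ k ∈ Finset.range n, ‖PowerSeries.coeff k (taylor 0 h)‖ * ρ ^ k ≤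
      B * (1 / 2 : ℝ) ^ k := by
    intro k _
    have h2 := Complex.norm_iteratedDeriv_le_of_forall_mem_sphere_norm_le (n := k) (c := 0)
      (R := 2 * ρ) (C := B) (f := h) (by positivity) hh.diffContOnCl (by
        intro z hz
        rw [mem_sphere_zero_iff_norm] at hz
        exact hB z hz.le)
    have hk : (0 : ℝ) < k.factorial := by exact_mod_cast k.factorial_pos
    have h3 : ‖PowerSeries.coeff k (taylor 0 h)‖ ≤ B / (2 * ρ) ^ k := by
      simp only [taylor, PowerSeries.coeff_mk]
      rw [norm_div, Complex.norm_natCast, div_le_iff₀ hk]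
      refine h2.trans (le_of_eq ?_)
      ring
    calc ‖PowerSeries.coeff k (taylor 0 h)‖ * ρ ^ k ≤ B / (2 * ρ) ^ k * ρ ^ k := by gcongr
      _ = B * (1 / 2 : ℝ) ^ k := by
        rw [mul_pow, one_div, inv_pow]
        field_simp
  refine (Finset.sum_le_sum h1).trans ?_
  rw [← Finset.mul_sum]
  have h4 : ∑ k ∈ Finset.range n, (1 / 2 : ℝ) ^ k ≤ 2 := by
    have := (summable_geometric_two).sum_le_tsum (Finset.range n) (fun _ _ => by positivity)
    rwa [tsum_geometric_two] at this
  nlinarith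

theorem fb_mono_96 (ρ B B' : ℝ) (u : PowerSeries ℂ) (h : B ≤ B') (hu : SB ρ B u) : SB ρ B' u :=
  fun n => (hu n).trans h

theorem flowBound_96 : FlowBoundStmt := by
  intro N P κ E hE A ε ρ hε hρ
  set T : Set (Fin N → ℂ) := {a | (∀ i, ‖a i‖ ≤ A) ∧ ε ≤ ‖aeval a κ‖} with hT
  have hκc := fb_cont_96 κ
  have hTc : IsCompact T := by
    refine IsCompact.of_isClosed_subset
      (isCompact_univ_pi fun _ : Fin N => isCompact_closedBall (0 : ℂ) A) ?_ ?_
    · have e1 : T = (⋂ i, {a : Fin N → ℂ | ‖a i‖ ≤ A}) ∩ {a | ε ≤ ‖aeval a κ‖} := by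
        ext a
        simp [hT]
      rw [e1]
      refine IsClosed.inter ?_ ?_
      · exact isClosed_iInter fun i => isClosed_le (continuous_apply i).norm continuous_const
      · exact isClosed_le continuous_const hκc.norm
    · intro a ha
      rw [Set.mem_univ_pi]
      intro i
      rw [mem_closedBall_zero_iff]
      exact ha.1 i
  have hTκ : ∀ a ∈ T, aeval a κ ≠ 0 := by
    intro a ha h0
    have := ha.2
    rw [h0, norm_zero] at this
    linarith
  have hK : IsCompact (Metric.closedBall (0 : ℂ) (2 * ρ) ×ˢ T) :=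
    (isCompact_closedBall _ _).prod hTc
  have hb : ∀ j, ∃ C : ℝ, ∀ q ∈ Metric.closedBall (0 : ℂ) (2 * ρ) ×ˢ T, ‖E j q.1 q.2‖ ≤ C := by
    intro j
    refine hK.exists_bound_of_continuousOn ((hE.cont j).mono ?_)
    intro q hq
    exact hTκ q.2 hq.2
  choose C hC using hb
  have hinv : ∃ C' : ℝ, ∀ a ∈ T, ‖(E none 0 a)⁻¹‖ ≤ C' := by
    refine hTc.exists_bound_of_continuousOn ?_
    refine ContinuousOn.inv₀ ?_ fun a ha => hE.ne_zero a (hTκ a ha)
    have : ContinuousOn (fun a : Fin N → ℂ => ((0 : ℂ), a)) T := by fun_prop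
    exact (hE.cont none).comp this fun a ha => hTκ a ha
  obtain ⟨C', hC'⟩ := hinv
  set M : ℝ := ∑ j, |C j| with hM
  have hCM : ∀ j, C j ≤ M := fun j =>
    (le_abs_self _).trans (Finset.single_le_sum (f := fun j => |C j|)
      (fun _ _ => abs_nonneg _) (Finset.mem_univ j))
  have hM0 : 0 ≤ M := Finset.sum_nonneg fun _ _ => abs_nonneg _
  refine ⟨max 1 (2 * (M * |C'|)), le_max_left _ _, fun a haA haε => ?_⟩
  have haT : a ∈ T := ⟨haA, haε⟩
  have haκ := hTκ a haT
  have he0 := hE.ne_zero a haκ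
  set e : Option (Fin N) → ℂ → ℂ := fun j s => E j s a with he
  have hed : ∀ j, Differentiable ℂ (e j) := fun j => hE.diff j a haκ
  have hbd : ∀ j s, ‖s‖ ≤ 2 * ρ → ‖e j s / e none 0‖ ≤ M * |C'| := by
    intro j s hs
    rw [div_eq_mul_inv, norm_mul]
    have h1 : ‖e j s‖ ≤ M := (hC j (s, a) ⟨mem_closedBall_zero_iff.2 hs, haT⟩).trans (hCM j)
    have h2 : ‖(e none 0)⁻¹‖ ≤ |C'| := (hC' a haT).trans (le_abs_self _)
    gcongr
  have hdd : ∀ j, Differentiable ℂ (fun s => e j s / e none 0) := fun j =>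
    (hed j).div_const _
  refine ⟨taylor 0 (fun s => e none s / e none 0), ?_, ?_, ?_⟩
  · rw [← PowerSeries.coeff_zero_eq_constantCoeff_apply, taylor_zero_coeff]
    exact div_self he0
  · exact fb_mono_96 _ _ _ _ (le_max_right _ _)
      (fb_sb_96 _ (hdd none) ρ _ hρ (hbd none))
  · intro i
    set O : Set ℂ := {s | e none s ≠ 0} with hO
    have hOo : IsOpen O := isOpen_ne_fun (hed none).continuous continuous_const
    have h0O : (0 : ℂ) ∈ O := he0
    set u : ℂ → Fin N → ℂ := fun s i => e (some i) s / e none s with hu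
    have hud : ∀ s ∈ O, ∀ i, HasDerivAt (fun t => u t i) (aeval (u s) (P i)) s :=
      fun s hs i => hE.ode a haκ s hs i
    have hu0 : u 0 = a := by
      funext i
      simp only [hu, he]
      rw [hE.init a i haκ]
      exact mul_div_cancel_right₀ _ he0
    have hsol : sol P a i = taylor 0 (fun s => u s i) := by
      ext k
      simp only [sol, taylor, PowerSeries.coeff_mk]
      have := fb_iter_96 P u O hOo hud (X i) k 0 h0O
      simp only [MvPolynomial.aeval_X] at this
      rw [this, hu0]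
    have hua : AnalyticAt ℂ (fun s => u s i) 0 := by
      have h1 : AnalyticAt ℂ (e (some i)) 0 := (hed _).analyticAt 0
      have h2 : AnalyticAt ℂ (e none) 0 := (hed _).analyticAt 0
      exact h1.div h2 he0
    rw [hsol, ← taylor_mul ((hdd none).analyticAt 0) hua]
    have hev : (fun s => e none s / e none 0 * u s i) =ᶠ[𝓝 0] fun s => e (some i) s / e none 0 := by
      filter_upwards [hOo.mem_nhds h0O] with s hs
      have hs' : e none s ≠ 0 := hs
      simp only [hu]
      field_simp
    rw [taylor_congr hev]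
    exact fb_mono_96 _ _ _ _ (le_max_right _ _)
      (fb_sb_96 _ (hdd (some i)) ρ _ hρ (hbd (some i)))

end Pool.Agent.Lib.MP_1e09a3_nt.CF
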