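import Pool.Agent.Lib.MP_1e09a3_nt.CF.Stmts73

/-!
Module 3: denominators grow at most geometrically.
-/

open MvPolynomial

namespace Pool.Agent.Lib.MP_1e09a3_nt.CF

namespace G49

/-- `p ^ k` divides `n!` only if `k ≤ n` -/
theorem le_of_pow_dvd_factorial {p k n : ℕ} (hp : p.Prime) (h : p ^ k ∣ n.factorial) : k ≤ n := by
  haveI := Fact.mk hp
  rcases Nat.eq_zero_or_pos n with hn | hn
  · subst hn
    rw [Nat.factorial_zero] at h
    by_contra hk
    have h1 : p ∣ 1 := (dvd_pow_self p (by omega)).trans h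
    exact hp.one_lt.ne' (Nat.dvd_one.1 h1)
  · have h2 : k ≤ padicValNat p n.factorial :=
      (padicValNat_dvd_iff_le (Nat.factorial_ne_zero n)).1 h
    have h3 := padicValNat_factorial_lt_of_ne_zero p hn.ne'
    omega

/-- the arithmetic lemma in the polynomial ring -/
theorem dvd_of_mul {d : ℕ} (h c s : S d) (M n : ℕ) (m : Fin d →₀ ℕ)
    (hs : C ((n.factorial : ℕ) : ℤ) * s = h ^ M * c) :
    C ((n.factorial : ℕ) : ℤ) ∣ C (coeff m h) ^ n * c := by
  rw [MvPolynomial.C_dvd_iff_dvd_coeff]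
  intro i
  rw [Int.natCast_dvd, Nat.dvd_iff_prime_pow_dvd_dvd]
  intro p k hp hk
  have hkn : k ≤ n := le_of_pow_dvd_factorial hp hk
  rw [← Int.natCast_dvd]
  have hpZ : Prime (p : ℤ) := Nat.prime_iff_prime_int.1 hp
  have key : C ((p : ℤ) ^ k) ∣ C (coeff m h) ^ n * c := by
    by_cases hd : (p : ℤ) ∣ coeff m h
    · have h1 : ((p : ℤ) ^ k) ∣ (coeff m h) ^ n :=
        (pow_dvd_pow (p : ℤ) hkn).trans (pow_dvd_pow_of_dvd hd n)
      rw [← map_pow]
      exact (map_dvd C h1).mul_right c
    · have hC : Prime (C (p : ℤ) : S d) := (MvPolynomial.prime_C_iff _).2 hpZ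
      have hnd : ¬ (C (p : ℤ) : S d) ∣ h ^ M := by
        intro h2
        have h3 := hC.dvd_of_dvd_pow h2
        rw [MvPolynomial.C_dvd_iff_dvd_coeff] at h3
        exact hd (h3 m)
      have h4 : (C (p : ℤ) : S d) ^ k ∣ h ^ M * c := by
        rw [← hs]
        refine Dvd.dvd.mul_right ?_ s
        rw [← map_pow]
        refine map_dvd C ?_
        exact_mod_cast hk
      rw [map_pow]
      exact (hC.pow_dvd_of_dvd_mul_left k hnd h4).mul_left _
  rw [MvPolynomial.C_dvd_iff_dvd_coeff] at key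
  have := key i
  exact_mod_cast this

/-- the arithmetic lemma for a fraction -/
theorem isInteger_of {d : ℕ} (h : S d) (M n : ℕ) (m : Fin d →₀ ℕ) (hh : h ≠ 0) (u : F d)
    (h1 : ((n.factorial : ℕ) : F d) * u ∈ (algebraMap (S d) (F d)).range)
    (h2 : algebraMap (S d) (F d) h ^ M * u ∈ (algebraMap (S d) (F d)).range) :
    algebraMap (S d) (F d) (C (coeff m h)) ^ n * u ∈ (algebraMap (S d) (F d)).range := by
  obtain ⟨c, hc⟩ := h1
  obtain ⟨s, hs⟩ := h2
  have hinj : Function.Injective (algebraMap (S d) (F d)) := IsFractionRing.injective _ _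
  have hN : algebraMap (S d) (F d) (C ((n.factorial : ℕ) : ℤ)) = ((n.factorial : ℕ) : F d) := by
    simp
  have e1 : C ((n.factorial : ℕ) : ℤ) * s = h ^ M * c := by
    apply hinj
    rw [map_mul, map_mul, map_pow, hN, hs, hc]
    ring
  obtain ⟨q, hq⟩ := dvd_of_mul h c s M n m e1
  have hN0 : ((n.factorial : ℕ) : F d) ≠ 0 := by
    rw [← hN]
    intro h0
    have : (C ((n.factorial : ℕ) : ℤ) : S d) = 0 := hinj (by rw [h0, map_zero])
    rw [MvPolynomial.C_eq_zero] at this
    exact Nat.factorial_ne_zero n (by exact_mod_cast this)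
  refine ⟨q, ?_⟩
  apply mul_left_cancel₀ hN0
  have e2 := congrArg (algebraMap (S d) (F d)) hq
  rw [map_mul, map_mul, map_pow, hN, hc] at e2
  rw [← e2]
  ring

section
variable {d : ℕ} {K : Type} [Field K] [Algebra (F d) K] {ι : Type} [Fintype ι] [DecidableEq ι]
  (B : Module.Basis ι (F d) K)

/-- the subring of the elements whose matrix has entries in `S d` -/
noncomputable def LL : Subring K where
  carrier := {x | ∀ i j, Algebra.leftMulMatrix B x i j ∈ (algebraMap (S d) (F d)).range}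
  mul_mem' := by
    intro a b ha hb i j
    rw [map_mul, Matrix.mul_apply]
    exact Subring.sum_mem _ fun k _ => Subring.mul_mem _ (ha i k) (hb k j)
  one_mem' := by
    intro i j
    rw [map_one, Matrix.one_apply]
    split_ifs
    · exact Subring.one_mem _
    · exact Subring.zero_mem _
  add_mem' := by
    intro a b ha hb i j
    rw [map_add, Matrix.add_apply]
    exact Subring.add_mem _ (ha i j) (hb i j)
  zero_mem' := by
    intro i j
    rw [map_zero, Matrix.zero_apply]
    exact Subring.zero_mem _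
  neg_mem' := by
    intro a ha i j
    rw [map_neg, Matrix.neg_apply]
    exact Subring.neg_mem _ (ha i j)

theorem mem_LL {x : K} :
    x ∈ LL B ↔ ∀ i j, Algebra.leftMulMatrix B x i j ∈ (algebraMap (S d) (F d)).range := Iff.rfl

theorem entry_smul (u : F d) (x : K) (i j : ι) :
    Algebra.leftMulMatrix B (algebraMap (F d) K u * x) i j = u * Algebra.leftMulMatrix B x i j := by
  rw [← Algebra.smul_def, map_smul, Matrix.smul_apply, smul_eq_mul]

theorem algebraMap_mem (s : S d) : algebraMap (F d) K (algebraMap (S d) (F d) s) ∈ LL B := by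
  intro i j
  have := entry_smul B (algebraMap (S d) (F d) s) 1 i j
  rw [mul_one] at this
  rw [this, map_one, Matrix.one_apply]
  split_ifs
  · exact ⟨s, by rw [mul_one]⟩
  · rw [mul_zero]
    exact Subring.zero_mem _

/-- elements of `LL` are integral -/
theorem intg_of_mem {x : K} (hx : x ∈ LL B) :
    ((algebraMap (F d) K).comp (algebraMap (S d) (F d))).IsIntegralElem x := by
  choose N hN using hx
  have hM : (Matrix.of N).map (algebraMap (S d) (F d)) = Algebra.leftMulMatrix B x := by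
    ext i j
    rw [Matrix.map_apply, Matrix.of_apply, hN]
  refine ⟨(Matrix.of N).charpoly, Matrix.charpoly_monic _, ?_⟩
  rw [← Polynomial.eval₂_map, ← Matrix.charpoly_map, hM, ← Polynomial.aeval_def]
  apply Algebra.leftMulMatrix_injective B
  rw [map_zero, ← Polynomial.aeval_algHom_apply]
  exact Matrix.aeval_self_charpoly _

/-- common denominators -/
theorem exists_den (s : Finset K) : ∃ h : S d, h ≠ 0 ∧
    ∀ x ∈ s, algebraMap (F d) K (algebraMap (S d) (F d) h) * x ∈ LL B := by
  classical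
  obtain ⟨b, hb⟩ := IsLocalization.exist_integer_multiples (nonZeroDivisors (S d))
    (s ×ˢ (Finset.univ : Finset (ι × ι)))
    (fun q => (Algebra.leftMulMatrix B q.1 q.2.1 q.2.2 : F d))
  refine ⟨b, nonZeroDivisors.coe_ne_zero b, fun x hx i j => ?_⟩
  have := hb (x, (i, j)) (by simp [hx])
  obtain ⟨q, hq⟩ := this
  refine ⟨q, ?_⟩
  rw [hq, entry_smul, Algebra.smul_def]

theorem pow_mul_aeval_mem {m : ℕ} (h : K) (hh : h ∈ LL B) (e : Fin m → K)
    (he : ∀ i, h * e i ∈ LL B) (P : MvPolynomial (Fin m) ℤ) (N : ℕ) (hP : P.totalDegree ≤ N) :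
    h ^ N * aeval e P ∈ LL B := by
  classical
  rw [MvPolynomial.aeval_def, MvPolynomial.eval₂_eq, Finset.mul_sum]
  refine Subring.sum_mem _ fun α hα => ?_
  have h1 : (α.sum fun _ k => k) ≤ N := (MvPolynomial.le_totalDegree hα).trans hP
  have h2 : (α.sum fun _ k => k) = ∑ i ∈ α.support, α i := rfl
  have h3 : h ^ N * (algebraMap ℤ K (coeff α P) * ∏ i ∈ α.support, e i ^ α i) =
      algebraMap ℤ K (coeff α P) * (h ^ (N - ∑ i ∈ α.support, α i) *
        ∏ i ∈ α.support, (h * e i) ^ α i) := by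
    have h4 : h ^ N = h ^ (N - ∑ i ∈ α.support, α i) * h ^ (∑ i ∈ α.support, α i) := by
      rw [← pow_add]
      congr 1
      omega
    rw [h4, ← Finset.prod_pow_eq_pow_sum]
    simp only [mul_pow, Finset.prod_mul_distrib]
    ring
  rw [h3]
  refine Subring.mul_mem _ ?_ (Subring.mul_mem _ (Subring.pow_mem _ hh _)
    (Subring.prod_mem _ fun i _ => Subring.pow_mem _ (he i) _))
  rw [eq_intCast]
  exact intCast_mem _ _

theorem exists_pow_mem {r : ℕ} (h : K) (hh : h ∈ LL B) (x : Fin r → K)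
    (hx : ∀ i, h * x i ∈ LL B) (y : K) (hy : y ∈ Algebra.adjoin ℤ (Set.range x)) :
    ∃ M : ℕ, h ^ M * y ∈ LL B := by
  induction hy using Algebra.adjoin_induction with
  | mem y hy =>
    obtain ⟨i, rfl⟩ := hy
    exact ⟨1, by rw [pow_one]; exact hx i⟩
  | algebraMap a =>
    refine ⟨0, ?_⟩
    rw [pow_zero, one_mul, eq_intCast]
    exact intCast_mem _ _
  | add a b _ _ iha ihb =>
    obtain ⟨M, hM⟩ := iha
    obtain ⟨M', hM'⟩ := ihb
    refine ⟨M + M', ?_⟩
    have : h ^ (M + M') * (a + b) = h ^ M' * (h ^ M * a) + h ^ M * (h ^ M' * b) := by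
      rw [pow_add]; ring
    rw [this]
    exact Subring.add_mem _ (Subring.mul_mem _ (Subring.pow_mem _ hh _) hM)
      (Subring.mul_mem _ (Subring.pow_mem _ hh _) hM')
  | mul a b _ _ iha ihb =>
    obtain ⟨M, hM⟩ := iha
    obtain ⟨M', hM'⟩ := ihb
    refine ⟨M + M', ?_⟩
    have : h ^ (M + M') * (a * b) = (h ^ M * a) * (h ^ M' * b) := by
      rw [pow_add]; ring
    rw [this]
    exact Subring.mul_mem _ hM hM'

end

end G49

theorem growth_49 : GrowthStmt := by
  intro d K _ φ hφ m e c Q y hQ hy r x hx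
  letI : Algebra (F d) K := φ.toAlgebra
  haveI : Module.Finite (F d) K := hφ
  have hφa : algebraMap (F d) K = φ := rfl
  classical
  let B := Module.finBasis (F d) K
  obtain ⟨h, h0, hden⟩ := G49.exists_den B (Finset.univ.image e ∪ Finset.univ.image x)
  have he : ∀ i, φ (algebraMap (S d) (F d) h) * e i ∈ G49.LL B := fun i =>
    hden (e i) (Finset.mem_union_left _ (Finset.mem_image_of_mem _ (Finset.mem_univ i)))
  have hx' : ∀ i, φ (algebraMap (S d) (F d) h) * x i ∈ G49.LL B := fun i =>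
    hden (x i) (Finset.mem_union_right _ (Finset.mem_image_of_mem _ (Finset.mem_univ i)))
  have hh : φ (algebraMap (S d) (F d) h) ∈ G49.LL B := G49.algebraMap_mem B h
  obtain ⟨μ, hμ⟩ := MvPolynomial.ne_zero_iff.1 h0
  set H : K := φ (algebraMap (S d) (F d) h) with hH
  set κ : K := φ (algebraMap (S d) (F d) (C (coeff μ h))) with hκ
  have hκm : κ ∈ G49.LL B := G49.algebraMap_mem B _
  have hz : ∀ n, κ ^ n * (H ^ (c * (n + 1)) * y n) ∈ G49.LL B := by
    intro n
    obtain ⟨M, hM⟩ := G49.exists_pow_mem B H hh x hx' (y n) (hx n)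
    have h1 : (n.factorial : K) * (H ^ (c * (n + 1)) * y n) ∈ G49.LL B := by
      have : (n.factorial : K) * (H ^ (c * (n + 1)) * y n) =
          H ^ (c * (n + 1)) * aeval e (Q n) := by
        rw [← hy n]; ring
      rw [this]
      exact G49.pow_mul_aeval_mem B H hh e he (Q n) _ (hQ n)
    have h2 : H ^ M * (H ^ (c * (n + 1)) * y n) ∈ G49.LL B := by
      have : H ^ M * (H ^ (c * (n + 1)) * y n) = H ^ (c * (n + 1)) * (H ^ M * y n) := by ring
      rw [this]
      exact Subring.mul_mem _ (Subring.pow_mem _ hh _) hM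
    intro i j
    have e1 : κ ^ n * (H ^ (c * (n + 1)) * y n) = algebraMap (F d) K
        (algebraMap (S d) (F d) (C (coeff μ h)) ^ n) * (H ^ (c * (n + 1)) * y n) := by
      rw [map_pow]; rfl
    rw [e1, G49.entry_smul]
    apply G49.isInteger_of h M n μ h0
    · have := h1 i j
      have e2 : (n.factorial : K) * (H ^ (c * (n + 1)) * y n) = algebraMap (F d) K
          ((n.factorial : ℕ) : F d) * (H ^ (c * (n + 1)) * y n) := by
        rw [map_natCast]
      rw [e2, G49.entry_smul] at this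
      exact this
    · have := h2 i j
      have e2 : H ^ M * (H ^ (c * (n + 1)) * y n) = algebraMap (F d) K
          (algebraMap (S d) (F d) h ^ M) * (H ^ (c * (n + 1)) * y n) := by
        rw [map_pow]; rfl
      rw [e2, G49.entry_smul] at this
      exact this
  have hg : φ (algebraMap (S d) (F d) (C (coeff μ h) * h ^ (c + 1))) = κ * H ^ (c + 1) := by
    rw [map_mul, map_mul, map_pow, map_pow]
  refine ⟨C (coeff μ h) * h ^ (c + 1), ?_, ?_, ?_⟩
  · refine mul_ne_zero ?_ (pow_ne_zero _ h0)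
    rw [Ne, MvPolynomial.C_eq_zero]
    exact hμ
  · intro i
    rw [hg]
    apply G49.intg_of_mem B
    have : κ * H ^ (c + 1) * e i = κ * (H ^ c * (H * e i)) := by ring
    rw [this]
    exact Subring.mul_mem _ hκm (Subring.mul_mem _ (Subring.pow_mem _ hh _) (he i))
  · intro n
    rw [hg]
    apply G49.intg_of_mem B
    have : (κ * H ^ (c + 1)) ^ (n + 1) * y n =
        κ * (H ^ (n + 1) * (κ ^ n * (H ^ (c * (n + 1)) * y n))) := by ring
    rw [this]
    exact Subring.mul_mem _ hκm (Subring.mul_mem _ (Subring.pow_mem _ hh _) (hz n))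

end Pool.Agent.Lib.MP_1e09a3_nt.CF
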