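import Pool.Agent.Lib.MP_1e09a3_nt.CF.Avoid28

/-!
Complete flows, module 2: embeddings with bounded data and a large value.
-/

open MvPolynomial

namespace Pool.Agent.Lib.MP_1e09a3_nt.CF

/-- roots of monic polynomials with coefficients that are values of polynomials on a polydisc -/
theorem root_28 {d : ℕ} (c : Fin d → ℂ) (p : Polynomial (S d)) (hp : p.Monic) :
    ∃ A : ℝ, 0 ≤ A ∧ ∀ w : Fin d → ℂ, (∀ i, ‖w i - c i‖ ≤ 2) → ∀ x : ℂ,
      Polynomial.eval₂ ((aeval w : S d →ₐ[ℤ] ℂ) : S d →+* ℂ) x p = 0 → ‖x‖ ≤ A := by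
  obtain ⟨B, hB, hb⟩ := bound_28 (fun k => p.coeff k) p.natDegree c
  refine ⟨max 1 (2 * B * p.natDegree / 1), le_max_of_le_left zero_le_one, fun w hw x hx => ?_⟩
  by_contra hcon
  rw [not_le, max_lt_iff] at hcon
  have h1 := far_28 (p.map ((aeval w : S d →ₐ[ℤ] ℂ) : S d →+* ℂ)) p.natDegree
    (Nat.lt_succ_of_le Polynomial.natDegree_map_le) B 1 hB one_pos
    (fun k hk => by
      rw [Polynomial.coeff_map]
      exact hb w hw k hk)
    (by
      rw [Polynomial.coeff_map, Polynomial.coeff_natDegree, hp.leadingCoeff]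
      simp) x hcon.1.le hcon.2.le
  rw [Polynomial.eval_map, hx, norm_zero] at h1
  norm_num at h1

theorem normPoint_28 : NormPointStmt := by
  classical
  intro d K _ φ hφ m e
  let _ : Algebra (F d) K := φ.toAlgebra
  have : Module.Finite (F d) K := hφ
  let _ : Algebra (S d) K := (φ.comp (algebraMap (S d) (F d))).toAlgebra
  have : IsScalarTower (S d) (F d) K := IsScalarTower.of_algebraMap_eq fun x => rfl
  have hint : ∀ b : K, Intg φ b ↔ IsIntegral (S d) b := fun b => Iff.rfl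
  have hAlg : Algebra.IsAlgebraic (F d) K := inferInstance
  have : Algebra.IsAlgebraic (S d) K := by
    constructor
    intro x
    exact (IsFractionRing.isAlgebraic_iff (S d) (F d) K).2 (hAlg.isAlgebraic x)
  obtain ⟨h, hh0, hh⟩ := Algebra.IsAlgebraic.exists_integral_multiples (S d)
    (Finset.univ.image e : Finset K)
  have hh' : ∀ i, IsIntegral (S d) (h • e i) := fun i =>
    hh (e i) (Finset.mem_image_of_mem _ (Finset.mem_univ i))
  obtain ⟨c, ε, hε, hc⟩ := avoid_28 d h hh0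
  choose p hp1 hp2 using hh'
  choose A hA0 hA using fun i => root_28 c (p i) (hp1 i)
  refine ⟨∑ i, A i / ε, fun b hb hbI => ?_⟩
  rw [hint] at hbI
  -- the norm
  obtain ⟨G, hG⟩ := IsIntegrallyClosed.isIntegral_iff.1 (Algebra.isIntegral_norm (F d) hbI)
  have hG0 : G ≠ 0 := by
    rintro rfl
    rw [map_zero] at hG
    exact (Algebra.norm_ne_zero_iff.2 hb) hG.symm
  obtain ⟨w, hw, hinj, hwG⟩ := generic_28 d G hG0 c
  have hinj' : Function.Injective ((aeval w : S d →ₐ[ℤ] ℂ) : S d →+* ℂ) := hinj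
  set ψ : F d →+* ℂ := IsFractionRing.lift hinj' with hψ
  have hψS : ∀ g : S d, ψ (algebraMap (S d) (F d) g) = aeval w g := fun g =>
    IsFractionRing.lift_algebraMap hinj' g
  let _ : Algebra (F d) ℂ := ψ.toAlgebra
  have hprod := Algebra.norm_eq_prod_embeddings (F d) ℂ b
  have hprod' : 1 / 2 ≤ ∏ σ : K →ₐ[F d] ℂ, ‖σ b‖ := by
    rw [← norm_prod, ← hprod, ← hG]
    change 1 / 2 ≤ ‖ψ (algebraMap (S d) (F d) G)‖
    rw [hψS]
    exact hwG
  obtain ⟨σ, hσ⟩ : ∃ σ : K →ₐ[F d] ℂ, 1 / 2 ≤ ‖σ b‖ := by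
    by_contra hcon
    push Not at hcon
    have hne : (Finset.univ : Finset (K →ₐ[F d] ℂ)).Nonempty := by
      by_contra he
      rw [Finset.not_nonempty_iff_eq_empty] at he
      have h3 : Fintype.card (K →ₐ[F d] ℂ) = Module.finrank (F d) K := AlgHom.card (F d) K ℂ
      rw [← Finset.card_univ, he, Finset.card_empty] at h3
      exact (Module.finrank_pos (R := F d) (M := K)).ne h3
    obtain ⟨σ₀, h0⟩ := hne
    have h4 : ∏ σ : K →ₐ[F d] ℂ, ‖σ b‖ ≤ ‖σ₀ b‖ := by
      rw [← Finset.mul_prod_erase _ _ h0]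
      refine mul_le_of_le_one_right (norm_nonneg _) ?_
      refine Finset.prod_le_one (fun _ _ => norm_nonneg _) fun σ _ => ?_
      exact ((hcon σ).le).trans (by norm_num)
    have := hcon σ₀
    linarith
  refine ⟨(σ : K →+* ℂ), fun i => ?_, hσ⟩
  have hσS : ∀ g : S d, σ (algebraMap (S d) K g) = aeval w g := by
    intro g
    rw [IsScalarTower.algebraMap_apply (S d) (F d) K, σ.commutes]
    exact hψS g
  have hr : ‖σ (h • e i)‖ ≤ A i := by
    refine hA i w hw _ ?_
    have h5 := congrArg σ (hp2 i)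
    rw [map_zero] at h5
    have h6 : (σ : K →+* ℂ).comp (algebraMap (S d) K) =
        ((aeval w : S d →ₐ[ℤ] ℂ) : S d →+* ℂ) := RingHom.ext hσS
    rw [← h6]
    have h7 := Polynomial.hom_eval₂ (p i) (algebraMap (S d) K) (σ : K →+* ℂ) (h • e i)
    have h8 : (σ : K →+* ℂ) (Polynomial.eval₂ (algebraMap (S d) K) (h • e i) (p i)) = 0 := h5
    rw [h8] at h7
    exact h7.symm
  rw [Algebra.smul_def, map_mul, hσS, norm_mul] at hr
  have h9 : ‖σ (e i)‖ ≤ A i / ε := by
    rw [le_div_iff₀ hε]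
    calc ‖σ (e i)‖ * ε ≤ ‖σ (e i)‖ * ‖aeval w h‖ :=
          mul_le_mul_of_nonneg_left (hc w hw) (norm_nonneg _)
      _ = ‖aeval w h‖ * ‖σ (e i)‖ := mul_comm _ _
      _ ≤ A i := hr
  exact h9.trans (Finset.single_le_sum (f := fun i => A i / ε)
    (fun j _ => div_nonneg (hA0 j) hε.le) (Finset.mem_univ i))

end Pool.Agent.Lib.MP_1e09a3_nt.CF
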