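import Pool.Agent.Lib.MP_1e09a3_nt.CF.Stmts73

/-!
Power series: product by a series, norms, bound for the determinant (module 8).
-/

open Finset

namespace Pool.Agent.Lib.MP_1e09a3_nt.CF

theorem seriesMul_63 : SeriesMulStmt := by
  intro n v Q
  set T : Matrix (Fin n) (Fin n) ℂ := Matrix.of fun k b =>
    if (b : ℕ) ≤ (k : ℕ) then PowerSeries.coeff ((k : ℕ) - (b : ℕ)) Q else 0 with hT
  have hmul : (coM fun j => Q * v j) = T * coM v := by
    ext k j
    simp only [coM, hT, Matrix.mul_apply, Matrix.of_apply]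
    rw [PowerSeries.coeff_mul, Finset.Nat.sum_antidiagonal_eq_sum_range_succ
      (fun a b => PowerSeries.coeff a Q * PowerSeries.coeff b (v j))]
    rw [← Finset.sum_range_reflect]
    have h1 : ∀ b ∈ range ((k : ℕ) + 1),
        PowerSeries.coeff ((k : ℕ) + 1 - 1 - b) Q *
          PowerSeries.coeff ((k : ℕ) - ((k : ℕ) + 1 - 1 - b)) (v j) =
        PowerSeries.coeff ((k : ℕ) - b) Q * PowerSeries.coeff b (v j) := by
      intro b hb
      have hb' : b ≤ (k : ℕ) := by
        have := Finset.mem_range.1 hb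
        omega
      have e1 : (k : ℕ) + 1 - 1 - b = (k : ℕ) - b := by omega
      have e2 : (k : ℕ) - ((k : ℕ) - b) = b := by omega
      rw [e1, e2]
    rw [Finset.sum_congr rfl h1]
    have h2 : ∑ x : Fin n, (if (x : ℕ) ≤ (k : ℕ) then PowerSeries.coeff ((k : ℕ) - (x : ℕ)) Q
        else 0) * PowerSeries.coeff (x : ℕ) (v j) =
        ∑ x ∈ range n, (if x ≤ (k : ℕ) then PowerSeries.coeff ((k : ℕ) - x) Q
        else 0) * PowerSeries.coeff x (v j) :=
      Fin.sum_univ_eq_sum_range (fun x => (if x ≤ (k : ℕ) then PowerSeries.coeff ((k : ℕ) - x) Q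
        else 0) * PowerSeries.coeff x (v j)) n
    rw [h2]
    have hsub : range ((k : ℕ) + 1) ⊆ range n := by
      intro x hx
      have := Finset.mem_range.1 hx
      have := k.2
      exact Finset.mem_range.2 (by omega)
    rw [← Finset.sum_subset hsub]
    · refine Finset.sum_congr rfl fun b hb => ?_
      have hb' : b ≤ (k : ℕ) := by
        have := Finset.mem_range.1 hb
        omega
      rw [if_pos hb']
    · intro x _ hx
      have hx' : ¬ x ≤ (k : ℕ) := by
        intro h
        exact hx (Finset.mem_range.2 (by omega))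
      rw [if_neg hx', zero_mul]
  have htri : T.BlockTriangular OrderDual.toDual := by
    intro i j hij
    have h : (i : ℕ) < (j : ℕ) := by
      have := hij
      simpa using this
    simp only [hT, Matrix.of_apply]
    rw [if_neg (by omega)]
  have hdet : T.det = PowerSeries.constantCoeff Q ^ n := by
    rw [Matrix.det_of_lowerTriangular T htri]
    have : ∀ i : Fin n, T i i = PowerSeries.constantCoeff Q := by
      intro i
      simp [hT]
    rw [Finset.prod_congr rfl fun i _ => this i]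
    simp
  rw [hmul, Matrix.det_mul, hdet]

theorem SB.nonneg {ρ B : ℝ} {u : PowerSeries ℂ} (h : SB ρ B u) : 0 ≤ B := by
  simpa using h 0

theorem sbMul_63 : SBMulStmt := by
  intro ρ B B' u v hρ hu hv n
  have h1 : ∑ k ∈ range n, ‖PowerSeries.coeff k (u * v)‖ * ρ ^ k ≤
      ∑ k ∈ range n, ∑ p ∈ antidiagonal k,
        (‖PowerSeries.coeff p.1 u‖ * ρ ^ p.1) * (‖PowerSeries.coeff p.2 v‖ * ρ ^ p.2) := by
    refine Finset.sum_le_sum fun k _ => ?_
    rw [PowerSeries.coeff_mul]
    refine (mul_le_mul_of_nonneg_right (norm_sum_le _ _) (by positivity)).trans (le_of_eq ?_)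
    rw [Finset.sum_mul]
    refine Finset.sum_congr rfl fun p hp => ?_
    have hp' : p.1 + p.2 = k := Finset.HasAntidiagonal.mem_antidiagonal.1 hp
    rw [norm_mul, ← hp', pow_add]
    ring
  have h2 : ∑ k ∈ range n, ∑ p ∈ antidiagonal k,
        (‖PowerSeries.coeff p.1 u‖ * ρ ^ p.1) * (‖PowerSeries.coeff p.2 v‖ * ρ ^ p.2) ≤
      ∑ p ∈ range n ×ˢ range n,
        (‖PowerSeries.coeff p.1 u‖ * ρ ^ p.1) * (‖PowerSeries.coeff p.2 v‖ * ρ ^ p.2) := by
    rw [← Finset.sum_biUnion]
    · refine Finset.sum_le_sum_of_subset_of_nonneg ?_ fun p _ _ => by positivity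
      intro p hp
      rw [Finset.mem_biUnion] at hp
      obtain ⟨k, hk, hp⟩ := hp
      have hk' := Finset.mem_range.1 hk
      have hp' : p.1 + p.2 = k := Finset.HasAntidiagonal.mem_antidiagonal.1 hp
      rw [Finset.mem_product, Finset.mem_range, Finset.mem_range]
      omega
    · intro i _ j _ hij
      exact Finset.disjoint_left.2 fun p hp hq => hij
        ((Finset.HasAntidiagonal.mem_antidiagonal.1 hp).symm.trans (Finset.HasAntidiagonal.mem_antidiagonal.1 hq))
  have h3 : ∑ p ∈ range n ×ˢ range n,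
        (‖PowerSeries.coeff p.1 u‖ * ρ ^ p.1) * (‖PowerSeries.coeff p.2 v‖ * ρ ^ p.2) =
      (∑ k ∈ range n, ‖PowerSeries.coeff k u‖ * ρ ^ k) *
        ∑ k ∈ range n, ‖PowerSeries.coeff k v‖ * ρ ^ k := by
    rw [Finset.sum_mul_sum, Finset.sum_product]
  refine h1.trans (h2.trans (h3.le.trans ?_))
  exact mul_le_mul (hu n) (hv n) (Finset.sum_nonneg fun k _ => by positivity) hu.nonneg

theorem SB.coeff_le {ρ B : ℝ} {u : PowerSeries ℂ} (hρ : 0 < ρ) (h : SB ρ B u) (k : ℕ) :
    ‖PowerSeries.coeff k u‖ ≤ B / ρ ^ k := by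
  rw [le_div_iff₀ (by positivity)]
  refine le_trans ?_ (h (k + 1))
  exact Finset.single_le_sum (f := fun k => ‖PowerSeries.coeff k u‖ * ρ ^ k)
    (fun i _ => by positivity) (Finset.self_mem_range_succ k)

theorem detBound_63 : DetBoundStmt := by
  intro n ρ B v hρ hv
  rw [Matrix.det_apply]
  have h1 : ∀ σ : Equiv.Perm (Fin n),
      ‖Equiv.Perm.sign σ • ∏ i, coM v (σ i) i‖ ≤ B ^ n / ρ ^ (n * (n - 1) / 2) := by
    intro σ
    have h2 : ‖Equiv.Perm.sign σ • ∏ i, coM v (σ i) i‖ = ∏ i, ‖coM v (σ i) i‖ := by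
      rw [← norm_prod]
      rcases Int.units_eq_one_or (Equiv.Perm.sign σ) with h | h
      · rw [h, one_smul]
      · rw [h, Units.neg_smul, one_smul, norm_neg]
    rw [h2]
    have h3 : ∏ i, ‖coM v (σ i) i‖ ≤ ∏ i : Fin n, B / ρ ^ ((σ i : Fin n) : ℕ) :=
      Finset.prod_le_prod (fun i _ => norm_nonneg _) fun i _ => (hv i).coeff_le hρ _
    refine h3.trans (le_of_eq ?_)
    rw [Equiv.prod_comp σ (fun i : Fin n => B / ρ ^ (i : ℕ)), Finset.prod_div_distrib,
      Finset.prod_const, Finset.card_univ, Fintype.card_fin, Finset.prod_pow_eq_pow_sum,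
      Fin.sum_univ_eq_sum_range (fun i => i) n, Finset.sum_range_id]
  refine (norm_sum_le _ _).trans ((Finset.sum_le_sum fun σ _ => h1 σ).trans (le_of_eq ?_))
  rw [Finset.sum_const, Finset.card_univ, Fintype.card_perm, Fintype.card_fin, nsmul_eq_mul,
    mul_div_assoc]

end Pool.Agent.Lib.MP_1e09a3_nt.CF
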