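import Pool.Agent.Lib.MP_1e09a3_nt.CF.Stmts73

/-!
Complete polynomial flows and integral functions: module 11 (linear systems, towers).
-/

open MvPolynomial

namespace Pool.Agent.Lib.MP_1e09a3_nt.CF

namespace L27

/-- the Taylor coefficients at `0` -/
noncomputable def cf (g : ℂ → ℂ) (l : ℕ) : ℂ := (l.factorial : ℂ)⁻¹ * iteratedDeriv l g 0

theorem hasSum_cf {g : ℂ → ℂ} (hg : Differentiable ℂ g) (z : ℂ) :
    HasSum (fun l : ℕ => cf g l * z ^ l) (g z) := by
  have h := Complex.hasSum_taylorSeries_of_entire hg 0 z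
  have h1 : (fun l : ℕ => cf g l * z ^ l) =
      fun n : ℕ => (n.factorial : ℂ)⁻¹ • (z - 0) ^ n • iteratedDeriv n g 0 := by
    funext l
    rw [sub_zero, smul_eq_mul, smul_eq_mul, cf]
    ring
  rw [h1]
  exact h

theorem bound_cf {g : ℂ → ℂ} (hg : Differentiable ℂ g) {R : ℝ} (hR : 0 ≤ R) :
    ∃ M : ℝ, 0 ≤ M ∧ ∀ l, ‖cf g l‖ * R ^ l ≤ M := by
  have h := (hasSum_cf hg (R : ℂ)).summable.norm
  refine ⟨∑' l, ‖cf g l * (R : ℂ) ^ l‖, tsum_nonneg fun _ => norm_nonneg _, fun l => ?_⟩
  have h1 := h.le_tsum l (fun _ _ => norm_nonneg _)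
  rwa [norm_mul, norm_pow, Complex.norm_real, Real.norm_of_nonneg hR] at h1

/-- the coefficients of the solution -/
noncomputable def U {N : ℕ} (α : Fin N → Fin N → ℕ → ℂ) (β : Fin N → ℕ → ℂ) (a : Fin N → ℂ) :
    ℕ → Fin N → ℂ
  | 0 => a
  | k + 1 => fun i => (β i k + ∑ j, ∑ m : Fin (k + 1), U α β a m j * α i j (k - m)) / (k + 1)
termination_by k => k
decreasing_by exact m.2

variable {N : ℕ} (α : Fin N → Fin N → ℕ → ℂ) (β : Fin N → ℕ → ℂ) (a : Fin N → ℂ)

theorem U_succ (k : ℕ) (i : Fin N) : U α β a (k + 1) i * (k + 1) =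
    β i k + ∑ j, ∑ p ∈ Finset.HasAntidiagonal.antidiagonal k, U α β a p.1 j * α i j p.2 := by
  have hk : (k : ℂ) + 1 ≠ 0 := Nat.cast_add_one_ne_zero k
  rw [U, div_mul_cancel₀ _ hk]
  congr 1
  refine Finset.sum_congr rfl fun j _ => ?_
  rw [Finset.Nat.sum_antidiagonal_eq_sum_range_succ (fun x y => U α β a x j * α i j y) k]
  exact Fin.sum_univ_eq_sum_range (fun m => U α β a m j * α i j (k - m)) (k + 1)

theorem geo {s : ℕ → ℝ} (h0 : ∀ k, 0 ≤ s k) {K : ℕ} (h : ∀ k, K ≤ k → s (k + 1) ≤ 2 * s k) :
    ∃ C : ℝ, 0 ≤ C ∧ ∀ k, s k ≤ C * 2 ^ k := by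
  set C := ∑ k ∈ Finset.range (K + 1), s k with hC
  have hC0 : 0 ≤ C := Finset.sum_nonneg fun k _ => h0 k
  have hle : ∀ k, k ≤ K → s k ≤ C * 2 ^ k := by
    intro k hk
    have h1 : s k ≤ C := Finset.single_le_sum (fun k _ => h0 k)
      (Finset.mem_range.2 (Nat.lt_succ_of_le hk))
    have h2 : (1 : ℝ) ≤ 2 ^ k := one_le_pow₀ (by norm_num)
    nlinarith
  refine ⟨C, hC0, fun k => ?_⟩
  rcases le_total k K with hk | hk
  · exact hle k hk
  · induction k, hk using Nat.le_induction with
    | base => exact hle K le_rfl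
    | succ k hk ih =>
      have h1 := h k hk
      rw [pow_succ]
      linarith

theorem growth {R M : ℝ} (hR : 0 < R) (hα : ∀ i j l, ‖α i j l‖ * R ^ l ≤ M)
    (hβ : ∀ i l, ‖β i l‖ * R ^ l ≤ M) :
    ∃ C : ℝ, 0 ≤ C ∧ ∀ k i, ‖U α β a k i‖ * R ^ k ≤ C * 2 ^ k := by
  set v : ℕ → ℝ := fun m => ∑ i, ‖U α β a m i‖ * R ^ m with hv
  have hv0 : ∀ m, 0 ≤ v m := fun m => Finset.sum_nonneg fun i _ => by positivity
  set s : ℕ → ℝ := fun k => 1 + ∑ m ∈ Finset.range (k + 1), v m with hs
  have hs0 : ∀ k, 0 ≤ s k := fun k => by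
    have : 0 ≤ ∑ m ∈ Finset.range (k + 1), v m := Finset.sum_nonneg fun m _ => hv0 m
    simp only [hs]
    linarith
  have hterm : ∀ k i, ‖U α β a (k + 1) i‖ * R ^ (k + 1) ≤ R * M / (k + 1) * s k := by
    intro k i
    have hk : (0 : ℝ) < k + 1 := by positivity
    have h1 : ‖U α β a (k + 1) i‖ * (k + 1) ≤
        ‖β i k‖ + ∑ j, ∑ p ∈ Finset.HasAntidiagonal.antidiagonal k, ‖U α β a p.1 j‖ * ‖α i j p.2‖ := by
      have h2 : ‖U α β a (k + 1) i‖ * (k + 1) = ‖U α β a (k + 1) i * (k + 1)‖ := by
        rw [norm_mul]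
        congr 1
        have : ((k : ℂ) + 1) = ((k + 1 : ℕ) : ℂ) := by push_cast; ring
        rw [this, Complex.norm_natCast]
        push_cast
        ring
      rw [h2, U_succ]
      refine (norm_add_le _ _).trans ?_
      gcongr
      refine (norm_sum_le _ _).trans ?_
      refine Finset.sum_le_sum fun j _ => ?_
      refine (norm_sum_le _ _).trans ?_
      refine Finset.sum_le_sum fun p _ => ?_
      rw [norm_mul]
    have h3 : (‖β i k‖ + ∑ j, ∑ p ∈ Finset.HasAntidiagonal.antidiagonal k,
        ‖U α β a p.1 j‖ * ‖α i j p.2‖) * R ^ k ≤ M * s k := by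
      have h4 : ∀ j, ∀ p ∈ Finset.HasAntidiagonal.antidiagonal k, ‖U α β a p.1 j‖ * ‖α i j p.2‖ * R ^ k ≤
          M * (‖U α β a p.1 j‖ * R ^ p.1) := by
        intro j p hp
        have hpk : p.1 + p.2 = k := Finset.HasAntidiagonal.mem_antidiagonal.1 hp
        rw [← hpk, pow_add]
        have := mul_le_mul_of_nonneg_left (hα i j p.2)
          (by positivity : 0 ≤ ‖U α β a p.1 j‖ * R ^ p.1)
        linarith
      rw [add_mul, Finset.sum_mul]
      have h5 : ∀ j, (∑ p ∈ Finset.HasAntidiagonal.antidiagonal k, ‖U α β a p.1 j‖ * ‖α i j p.2‖) * R ^ k ≤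
          M * ∑ m ∈ Finset.range (k + 1), ‖U α β a m j‖ * R ^ m := by
        intro j
        rw [Finset.sum_mul]
        refine (Finset.sum_le_sum (h4 j)).trans ?_
        rw [← Finset.mul_sum,
          Finset.Nat.sum_antidiagonal_eq_sum_range_succ (fun x _ => ‖U α β a x j‖ * R ^ x) k]
      have h6 : ∑ j, (∑ p ∈ Finset.HasAntidiagonal.antidiagonal k, ‖U α β a p.1 j‖ * ‖α i j p.2‖) * R ^ k ≤
          M * ∑ m ∈ Finset.range (k + 1), v m := by
        refine (Finset.sum_le_sum fun j _ => h5 j).trans ?_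
        rw [← Finset.mul_sum, Finset.sum_comm]
      have h7 := hβ i k
      have h8 : M * s k = M + M * ∑ m ∈ Finset.range (k + 1), v m := by
        simp only [hs]
        ring
      linarith
    have h9 : ‖U α β a (k + 1) i‖ ≤ (‖β i k‖ + ∑ j, ∑ p ∈ Finset.HasAntidiagonal.antidiagonal k,
        ‖U α β a p.1 j‖ * ‖α i j p.2‖) / (k + 1) := by
      rw [le_div_iff₀ hk]
      exact h1
    calc ‖U α β a (k + 1) i‖ * R ^ (k + 1)
        ≤ (‖β i k‖ + ∑ j, ∑ p ∈ Finset.HasAntidiagonal.antidiagonal k,
          ‖U α β a p.1 j‖ * ‖α i j p.2‖) / (k + 1) * R ^ (k + 1) := by gcongr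
      _ = R / (k + 1) * ((‖β i k‖ + ∑ j, ∑ p ∈ Finset.HasAntidiagonal.antidiagonal k,
          ‖U α β a p.1 j‖ * ‖α i j p.2‖) * R ^ k) := by rw [pow_succ]; ring
      _ ≤ R / (k + 1) * (M * s k) := by gcongr
      _ = R * M / (k + 1) * s k := by ring
  obtain ⟨K, hK⟩ := exists_nat_ge (N * (R * M))
  have hstep : ∀ k, K ≤ k → s (k + 1) ≤ 2 * s k := by
    intro k hk
    have h1 : s (k + 1) = s k + v (k + 1) := by
      simp only [hs]
      rw [Finset.sum_range_succ]
      ring
    have h2 : v (k + 1) ≤ N * (R * M / (k + 1) * s k) := by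
      simp only [hv]
      refine (Finset.sum_le_sum fun i _ => hterm k i).trans ?_
      rw [Finset.sum_const, Finset.card_univ, Fintype.card_fin, nsmul_eq_mul]
    have hkr : (K : ℝ) ≤ k := by exact_mod_cast hk
    have h3 : N * (R * M / (k + 1) * s k) ≤ s k := by
      have h4 : N * (R * M / (k + 1) * s k) = N * (R * M) / (k + 1) * s k := by ring
      rw [h4]
      have h5 : N * (R * M) / ((k : ℝ) + 1) ≤ 1 := by
        rw [div_le_one (by positivity)]
        linarith
      have := mul_le_mul_of_nonneg_right h5 (hs0 k)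
      linarith
    linarith
  obtain ⟨C, hC0, hC⟩ := geo hs0 hstep
  refine ⟨C, hC0, fun k i => le_trans ?_ (hC k)⟩
  have h1 : ‖U α β a k i‖ * R ^ k ≤ v k :=
    Finset.single_le_sum (f := fun i => ‖U α β a k i‖ * R ^ k) (fun i _ => by positivity)
      (Finset.mem_univ i)
  have h2 : v k ≤ ∑ m ∈ Finset.range (k + 1), v m :=
    Finset.single_le_sum (fun m _ => hv0 m) (Finset.self_mem_range_succ k)
  simp only [hs]
  linarith

theorem linear_27 : LinearStmt := by
  intro N A B hA hB a
  set α : Fin N → Fin N → ℕ → ℂ := fun i j => cf (A i j) with hα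
  set β : Fin N → ℕ → ℂ := fun i => cf (B i) with hβ
  set V := U α β a with hV
  have hbd : ∀ ρ : ℝ, 0 < ρ → ∃ C : ℝ, 0 ≤ C ∧ ∀ k i, ‖V k i‖ * ρ ^ k ≤ C * (1 / 4) ^ k := by
    intro ρ hρ
    have hR : 0 < 8 * ρ := by positivity
    choose MA hMA0 hMA using fun i j => bound_cf (hA i j) hR.le
    choose MB hMB0 hMB using fun i => bound_cf (hB i) hR.le
    set M : ℝ := ∑ i, ∑ j, MA i j + ∑ i, MB i with hM
    have hs1 : 0 ≤ ∑ i, ∑ j, MA i j :=
      Finset.sum_nonneg fun i _ => Finset.sum_nonneg fun j _ => hMA0 i j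
    have hs2 : 0 ≤ ∑ i, MB i := Finset.sum_nonneg fun i _ => hMB0 i
    obtain ⟨C, hC0, hC⟩ := growth (M := M) α β a hR
      (fun i j l => by
        refine (hMA i j l).trans ?_
        have h1 : MA i j ≤ ∑ j, MA i j :=
          Finset.single_le_sum (fun j _ => hMA0 i j) (Finset.mem_univ j)
        have h2 : ∑ j, MA i j ≤ ∑ i, ∑ j, MA i j :=
          Finset.single_le_sum (f := fun i => ∑ j, MA i j)
            (fun i _ => Finset.sum_nonneg fun j _ => hMA0 i j) (Finset.mem_univ i)
        linarith)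
      (fun i l => by
        refine (hMB i l).trans ?_
        have h1 : MB i ≤ ∑ i, MB i :=
          Finset.single_le_sum (fun i _ => hMB0 i) (Finset.mem_univ i)
        linarith)
    refine ⟨C, hC0, fun k i => ?_⟩
    have h1 := hC k i
    rw [mul_pow] at h1
    have h2 : (8 : ℝ) ^ k = 4 ^ k * 2 ^ k := by rw [← mul_pow]; norm_num
    rw [h2] at h1
    have h3 : (0 : ℝ) < 2 ^ k := by positivity
    have h4 : (0 : ℝ) < 4 ^ k := by positivity
    have h5 : ‖V k i‖ * ρ ^ k * 4 ^ k ≤ C := by
      refine le_of_mul_le_mul_right ?_ h3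
      calc ‖V k i‖ * ρ ^ k * 4 ^ k * 2 ^ k = ‖U α β a k i‖ * (4 ^ k * 2 ^ k * ρ ^ k) := by
            rw [hV]; ring
        _ ≤ C * 2 ^ k := h1
    rw [one_div, inv_pow, ← div_eq_mul_inv, le_div_iff₀ h4]
    exact h5
  refine ⟨fun s i => ∑' k, V k i * s ^ k, ?_, fun s i => ?_⟩
  · funext i
    have h1 : ∀ k : ℕ, k ≠ 0 → V k i * (0 : ℂ) ^ k = 0 := by
      intro k hk
      rw [zero_pow hk, mul_zero]
    simp only
    rw [tsum_eq_single 0 h1, pow_zero, mul_one, hV, U]
  · set ρ : ℝ := ‖s‖ + 1 with hρ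
    have hρ0 : 0 < ρ := by positivity
    obtain ⟨C, hC0, hC⟩ := hbd ρ hρ0
    have hsum4 : Summable fun k : ℕ => C * (1 / 4 : ℝ) ^ k :=
      (summable_geometric_of_lt_one (by norm_num) (by norm_num)).mul_left C
    have hnorm : ∀ j, Summable fun k => ‖V k j * s ^ k‖ := by
      intro j
      refine Summable.of_nonneg_of_le (fun _ => norm_nonneg _) (fun k => ?_) hsum4
      rw [norm_mul, norm_pow]
      refine le_trans ?_ (hC k j)
      have : ‖s‖ ≤ ρ := by linarith
      gcongr
    have hg' : ∀ n : ℕ, ∀ y ∈ Metric.ball (0 : ℂ) ρ,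
        ‖V n i * (n * y ^ (n - 1))‖ ≤ C / ρ * (1 / 2) ^ n := by
      intro n y hy
      rw [mem_ball_zero_iff] at hy
      rcases Nat.eq_zero_or_pos n with hn | hn
      · subst hn
        simp only [CharP.cast_eq_zero, zero_mul, mul_zero, norm_zero, pow_zero, mul_one]
        positivity
      · rw [norm_mul, norm_mul, norm_pow, Complex.norm_natCast]
        have h1 : (n : ℝ) ≤ 2 ^ n := by exact_mod_cast Nat.lt_two_pow_self.le
        have h2 : ‖y‖ ^ (n - 1) ≤ ρ ^ (n - 1) := by gcongr
        have h3 : ρ ^ (n - 1) = ρ ^ n / ρ := by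
          rw [eq_div_iff hρ0.ne', ← pow_succ, Nat.sub_add_cancel hn]
        calc ‖V n i‖ * (n * ‖y‖ ^ (n - 1)) ≤ ‖V n i‖ * (2 ^ n * ρ ^ (n - 1)) := by gcongr
          _ = ‖V n i‖ * ρ ^ n * 2 ^ n / ρ := by rw [h3]; ring
          _ ≤ C * (1 / 4) ^ n * 2 ^ n / ρ := by
            have := hC n i
            gcongr
          _ = C / ρ * (1 / 2) ^ n := by
            have h4 : ((1 : ℝ) / 4) ^ n * 2 ^ n = (1 / 2) ^ n := by
              rw [← mul_pow]
              norm_num
            rw [mul_assoc C, h4]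
            ring
    have hsum2 : Summable fun n : ℕ => C / ρ * (1 / 2 : ℝ) ^ n :=
      (summable_geometric_of_lt_one (by norm_num) (by norm_num)).mul_left _
    have hsm : s ∈ Metric.ball (0 : ℂ) ρ := by
      rw [mem_ball_zero_iff]
      linarith
    have hder := hasDerivAt_tsum_of_isPreconnected (g := fun n z => V n i * z ^ n)
      (g' := fun n z => V n i * (n * z ^ (n - 1))) hsum2 Metric.isOpen_ball
      (convex_ball (0 : ℂ) ρ).isPreconnected
      (fun n y _ => by
        have := (hasDerivAt_pow n y).const_mul (V n i)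
        simpa using this) hg' hsm (hnorm i).of_norm hsm
    have hval : ∑' n : ℕ, V n i * (n * s ^ (n - 1)) =
        B i s + ∑ j, A i j s * ∑' k, V k j * s ^ k := by
      have hs' : Summable fun n : ℕ => V n i * (n * s ^ (n - 1)) :=
        Summable.of_norm_bounded hsum2 fun n => hg' n s hsm
      rw [hs'.tsum_eq_zero_add]
      simp only [CharP.cast_eq_zero, zero_mul, mul_zero, zero_add, Nat.add_sub_cancel]
      have h1 : ∀ k : ℕ, V (k + 1) i * (((k + 1 : ℕ) : ℂ) * s ^ k) = β i k * s ^ k +
          ∑ j, ∑ p ∈ Finset.HasAntidiagonal.antidiagonal k, (V p.1 j * s ^ p.1) * (α i j p.2 * s ^ p.2) := by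
        intro k
        have h2 := U_succ α β a k i
        calc V (k + 1) i * (((k + 1 : ℕ) : ℂ) * s ^ k)
            = (U α β a (k + 1) i * (k + 1)) * s ^ k := by rw [hV]; push_cast; ring
          _ = _ := by
            rw [h2, add_mul, Finset.sum_mul]
            congr 1
            refine Finset.sum_congr rfl fun j _ => ?_
            rw [Finset.sum_mul]
            refine Finset.sum_congr rfl fun p hp => ?_
            rw [← Finset.HasAntidiagonal.mem_antidiagonal.1 hp, pow_add]
            ring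
      rw [tsum_congr h1]
      refine HasSum.tsum_eq ?_
      refine (hasSum_cf (hB i) s).add ?_
      refine hasSum_sum fun j _ => ?_
      have h3 : Summable fun l => ‖α i j l * s ^ l‖ := (hasSum_cf (hA i j) s).summable.norm
      have h4 := tsum_mul_tsum_eq_tsum_sum_antidiagonal_of_summable_norm (hnorm j) h3
      have h5 := (summable_norm_sum_mul_antidiagonal_of_summable_norm (hnorm j) h3).of_norm
      have h6 : ∑' l, α i j l * s ^ l = A i j s := (hasSum_cf (hA i j) s).tsum_eq
      rw [h6] at h4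
      rw [mul_comm, h4]
      exact h5.hasSum
    rw [← hval]
    exact hder

theorem diff_aeval {N : ℕ} {u : ℂ → Fin N → ℂ} {Q : MvPolynomial (Fin N) ℤ}
    (hu : ∀ i ∈ Q.vars, Differentiable ℂ fun s => u s i) :
    Differentiable ℂ fun s => aeval (u s) Q := by
  classical
  have h1 : ∀ s, aeval (u s) Q = ∑ m ∈ Q.support, ((Q.coeff m : ℤ) : ℂ) *
      ∏ i ∈ m.support, u s i ^ m i := by
    intro s
    rw [aeval_def, eval₂_eq]
    simp
  simp only [h1]
  refine Differentiable.fun_sum fun m hm => ?_
  refine (differentiable_const _).mul ?_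
  refine Differentiable.fun_finsetProd fun i hi => ?_
  exact (hu i ((mem_vars_iff_mem_support i).2 ⟨m, hm, hi⟩)).pow _

theorem aeval_congr {N : ℕ} {x y : Fin N → ℂ} {Q : MvPolynomial (Fin N) ℤ}
    (h : ∀ i ∈ Q.vars, x i = y i) : aeval x Q = aeval y Q := by
  rw [aeval_def, aeval_def, ← coe_eval₂Hom, ← coe_eval₂Hom]
  exact eval₂Hom_congr' rfl (fun i hi _ => h i hi) rfl

theorem tower_27 : TowerStmt := by
  intro N level P hP a
  choose B A hB hA hPe using hP
  have key : ∀ n : ℕ, ∃ u : ℂ → Fin N → ℂ, u 0 = a ∧ ∀ i, level i < n →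
      ∀ s, HasDerivAt (fun t => u t i) (aeval (u s) (P i)) s := by
    intro n
    induction n with
    | zero => exact ⟨fun _ => a, rfl, fun i hi => absurd hi (Nat.not_lt_zero _)⟩
    | succ n ih =>
      obtain ⟨u, hu0, hu⟩ := ih
      have hdiff : ∀ i, level i < n → Differentiable ℂ fun s => u s i := fun i hi s =>
        (hu i hi s).differentiableAt
      obtain ⟨v, hv0, hv⟩ := linear_27 N
        (fun i j s => if level i = n ∧ level j = level i then aeval (u s) (A i j) else 0)
        (fun i s => if level i = n then aeval (u s) (B i) else 0)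
        (fun i j => by
          by_cases h : level i = n ∧ level j = level i
          · simp only [if_pos h]
            exact diff_aeval fun k hk => hdiff k (h.1 ▸ hA i j k hk)
          · simp only [if_neg h]
            exact differentiable_const _)
        (fun i => by
          by_cases h : level i = n
          · simp only [if_pos h]
            exact diff_aeval fun k hk => hdiff k (h ▸ hB i k hk)
          · simp only [if_neg h]
            exact differentiable_const _) a
      refine ⟨fun s i => if level i = n then v s i else u s i, ?_, fun i hi s => ?_⟩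
      · funext i
        simp only
        split_ifs
        · rw [hv0]
        · rw [hu0]
      · have hlow : ∀ Q : MvPolynomial (Fin N) ℤ, (∀ k ∈ Q.vars, level k < n) →
            aeval (fun k => if level k = n then v s k else u s k) Q = aeval (u s) Q := by
          intro Q hQ
          refine aeval_congr fun k hk => ?_
          rw [if_neg (hQ k hk).ne]
        rcases Nat.lt_succ_iff_lt_or_eq.1 hi with h | h
        · -- lower level
          have h1 : (fun t => if level i = n then v t i else u t i) = fun t => u t i := by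
            funext t
            rw [if_neg h.ne]
          have h2 : aeval (fun k => if level k = n then v s k else u s k) (P i) =
              aeval (u s) (P i) := by
            rw [hPe i, map_add, map_add, map_sum, map_sum,
              hlow (B i) (fun k hk => (hB i k hk).trans h)]
            congr 1
            refine Finset.sum_congr rfl fun j hj => ?_
            rw [map_mul, map_mul, aeval_X, aeval_X,
              hlow (A i j) (fun k hk => (hA i j k hk).trans h), if_neg]
            rw [(Finset.mem_filter.1 hj).2]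
            exact h.ne
          rw [h1, h2]
          exact hu i h s
        · have h1 : (fun t => if level i = n then v t i else u t i) = fun t => v t i := by
            funext t
            rw [if_pos h]
          have h2 : aeval (fun k => if level k = n then v s k else u s k) (P i) =
              (if level i = n then aeval (u s) (B i) else 0) + ∑ j,
                (if level i = n ∧ level j = level i then aeval (u s) (A i j) else 0) * v s j := by
            rw [hPe i, map_add, map_sum, hlow (B i) (fun k hk => h ▸ hB i k hk), if_pos h,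
              Finset.sum_filter]
            congr 1
            refine Finset.sum_congr rfl fun j _ => ?_
            by_cases hj : level j = level i
            · rw [if_pos hj, if_pos ⟨h, hj⟩, map_mul, aeval_X,
                hlow (A i j) (fun k hk => h ▸ hA i j k hk), if_pos (hj.trans h)]
            · rw [if_neg hj, if_neg (fun h0 => hj h0.2), zero_mul]
          rw [h1, h2]
          exact hv s i
  obtain ⟨u, hu0, hu⟩ := key (∑ i, level i + 1)
  refine ⟨u, hu0, fun s i => hu i ?_ s⟩
  have : level i ≤ ∑ i, level i := Finset.single_le_sum (fun i _ => Nat.zero_le _)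
    (Finset.mem_univ i)
  omega

end L27

theorem linear_27 : LinearStmt := L27.linear_27

theorem tower_27 : TowerStmt := L27.tower_27

end Pool.Agent.Lib.MP_1e09a3_nt.CF
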