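import Pool.Agent.Lib.MP_1e09a3_nt.CF.Stmts73

/-!
Module 5: traces and derivations.
-/

namespace Pool.Agent.Lib.MP_1e09a3_nt.CF

namespace T49

section
variable {K K₁ : Type} [Field K] [Field K₁] [Algebra K K₁]
  (D₀ : Derivation ℤ K K) (D : Derivation ℤ K₁ K₁)

/-- the trace commutes with derivations -/
theorem trace_der [Module.Finite K K₁]
    (hD : ∀ x, D (algebraMap K K₁ x) = algebraMap K K₁ (D₀ x)) (x : K₁) :
    Algebra.trace K K₁ (D x) = D₀ (Algebra.trace K K₁ x) := by
  classical
  let b := Module.finBasis K K₁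
  let G : Matrix (Fin (Module.finrank K K₁)) (Fin (Module.finrank K K₁)) K :=
    Matrix.of fun i j => b.repr (D (b j)) i
  have hrepr : ∀ (y : K₁) (i), b.repr (D y) i = D₀ (b.repr y i) + ∑ k, G i k * b.repr y k := by
    intro y i
    have h1 : D y = ∑ k, (b.repr y k • D (b k) + D₀ (b.repr y k) • b k) := by
      conv_lhs => rw [← b.sum_repr y]
      rw [map_sum]
      refine Finset.sum_congr rfl fun k _ => ?_
      rw [Algebra.smul_def, D.leibniz, hD, smul_eq_mul, smul_eq_mul, Algebra.smul_def,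
        Algebra.smul_def, mul_comm (b k)]
    rw [h1, map_sum, Finsupp.finsetSum_apply]
    simp only [map_add, map_smul, Finsupp.add_apply, Finsupp.smul_apply, smul_eq_mul,
      Finset.sum_add_distrib]
    rw [add_comm]
    congr 1
    · simp [Finsupp.single_apply]
    · refine Finset.sum_congr rfl fun k _ => ?_
      rw [mul_comm]; rfl
  have hM : Algebra.leftMulMatrix b (D x) =
      (Algebra.leftMulMatrix b x).map D₀ + G * Algebra.leftMulMatrix b x -
        Algebra.leftMulMatrix b x * G := by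
    ext i j
    rw [Matrix.sub_apply, Matrix.add_apply, Matrix.map_apply, Matrix.mul_apply, Matrix.mul_apply]
    have h1 : D x * b j = D (x * b j) - x * D (b j) := by
      rw [D.leibniz, smul_eq_mul, smul_eq_mul]; ring
    have h2 : b.repr (x * D (b j)) i = ∑ k, Algebra.leftMulMatrix b x i k * G k j := by
      conv_lhs => rw [← b.sum_repr (D (b j))]
      rw [Finset.mul_sum, map_sum, Finsupp.finsetSum_apply]
      refine Finset.sum_congr rfl fun k _ => ?_
      rw [mul_smul_comm, map_smul, Finsupp.smul_apply, smul_eq_mul,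
        Algebra.leftMulMatrix_eq_repr_mul, mul_comm]
      rfl
    rw [Algebra.leftMulMatrix_eq_repr_mul, h1, map_sub, Finsupp.sub_apply, hrepr, h2]
    simp only [Algebra.leftMulMatrix_eq_repr_mul]
  rw [Algebra.trace_eq_matrix_trace b, Algebra.trace_eq_matrix_trace b, hM, Matrix.trace_sub,
    Matrix.trace_add, Matrix.trace_mul_comm G, add_sub_cancel_right]
  simp only [Matrix.trace, Matrix.diag_apply, Matrix.map_apply, map_sum]

theorem trace_iter [Module.Finite K K₁]
    (hD : ∀ x, D (algebraMap K K₁ x) = algebraMap K K₁ (D₀ x)) (n : ℕ) (x : K₁) :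
    (⇑D₀)^[n] (Algebra.trace K K₁ x) = Algebra.trace K K₁ ((⇑D)^[n] x) := by
  induction n generalizing x with
  | zero => rfl
  | succ n ih =>
    rw [Function.iterate_succ_apply, Function.iterate_succ_apply, ← trace_der D₀ D hD, ih]

end

section
variable {F A : Type} [Field F] [Field A]

theorem adj_map {ι : Type} (f : F →+* A) (x : ι → F) (S : Set A) (h : ∀ i, f (x i) ∈ S) (y : F)
    (hy : y ∈ Algebra.adjoin ℤ (Set.range x)) : f y ∈ Algebra.adjoin ℤ S := by
  induction hy using Algebra.adjoin_induction with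
  | mem y hy => obtain ⟨i, rfl⟩ := hy; exact Algebra.subset_adjoin (h i)
  | algebraMap r =>
    have : f (algebraMap ℤ F r) = algebraMap ℤ A r := by simp
    rw [this]
    exact Subalgebra.algebraMap_mem _ _
  | add a b _ _ ha hb => rw [map_add]; exact Subalgebra.add_mem _ ha hb
  | mul a b _ _ ha hb => rw [map_mul]; exact Subalgebra.mul_mem _ ha hb

theorem adj_lift {ι : Type} (f : F →+* A) (x : ι → F) (S : Set A)
    (h : ∀ a ∈ S, ∃ i, f (x i) = a) (a : A)
    (ha : a ∈ Algebra.adjoin ℤ S) : ∃ y ∈ Algebra.adjoin ℤ (Set.range x), f y = a := by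
  induction ha using Algebra.adjoin_induction with
  | mem a ha =>
    obtain ⟨i, hi⟩ := h a ha
    exact ⟨x i, Algebra.subset_adjoin ⟨i, rfl⟩, hi⟩
  | algebraMap r =>
    exact ⟨algebraMap ℤ F r, Subalgebra.algebraMap_mem _ _, by simp⟩
  | add a b _ _ ha hb =>
    obtain ⟨y, hy, rfl⟩ := ha
    obtain ⟨z, hz, rfl⟩ := hb
    exact ⟨y + z, Subalgebra.add_mem _ hy hz, map_add _ _ _⟩
  | mul a b _ _ ha hb =>
    obtain ⟨y, hy, rfl⟩ := ha
    obtain ⟨z, hz, rfl⟩ := hb
    exact ⟨y * z, Subalgebra.mul_mem _ hy hz, map_mul _ _ _⟩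

end

end T49

theorem trace_49 (hR : RetractStmt) : TraceStmt := by
  intro K K₁ Ω _ _ _ _ _ _ _ D₀ D hD r x u hu
  classical
  obtain ⟨K₂, _, _, _, x', hx'⟩ := hR K₁ Ω r x
  letI : Algebra K K₂ := ((algebraMap K₁ K₂).comp (algebraMap K K₁)).toAlgebra
  haveI : IsScalarTower K K₁ K₂ := IsScalarTower.of_algebraMap_eq fun _ => rfl
  haveI : Module.Finite K K₂ := Module.Finite.trans K₁ K₂
  haveI : CharZero K₁ := charZero_of_injective_algebraMap (algebraMap K K₁).injective
  -- the elements `u_n`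
  set v : ℕ → K₁ := fun n => (⇑D)^[n] u / (n.factorial : K₁) with hv
  have hv' : ∀ n, algebraMap K₁ K₂ (v n) ∈ Algebra.adjoin ℤ (Set.range x') := by
    intro n
    apply hx'
    rw [hv]
    simp only [map_div₀, map_natCast]
    exact hu n
  have htr : ∀ n, (⇑D₀)^[n] (Algebra.trace K K₁ u) / (n.factorial : K) =
      Algebra.trace K K₁ (v n) := by
    intro n
    rw [T49.trace_iter D₀ D hD, hv]
    have : (⇑D)^[n] u / (n.factorial : K₁) = ((n.factorial : K)⁻¹) • (⇑D)^[n] u := by
      rw [Algebra.smul_def, map_inv₀, map_natCast, div_eq_mul_inv, mul_comm]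
    simp only [this, map_smul, smul_eq_mul]
    rw [div_eq_mul_inv, mul_comm]
  -- the embeddings
  let A := AlgebraicClosure K
  have hext : ∀ σ : K₁ →ₐ[K] A, ∃ τ : K₂ →ₐ[K] A, ∀ y, τ (algebraMap K₁ K₂ y) = σ y := by
    intro σ
    letI : Algebra K₁ A := σ.toRingHom.toAlgebra
    haveI : IsScalarTower K K₁ A := IsScalarTower.of_algebraMap_eq fun y => (σ.commutes y).symm
    haveI : Algebra.IsAlgebraic K₁ K₂ := Algebra.IsAlgebraic.of_finite K₁ K₂
    let τ : K₂ →ₐ[K₁] A := IsAlgClosed.lift
    exact ⟨τ.restrictScalars K, fun y => τ.commutes y⟩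
  choose τ hτ using hext
  haveI : FiniteDimensional K K₁ := inferInstance
  let ι := (K₁ →ₐ[K] A) × Fin r
  haveI : Finite ι := inferInstance
  -- K₂ carries `Fin r` generators
  let z : ι → A := fun q => τ q.1 (x' q.2)
  let K' : IntermediateField K A := IntermediateField.adjoin K (Set.range z)
  haveI : FiniteDimensional K K' :=
    IntermediateField.finiteDimensional_adjoin fun y _ =>
      (Algebra.IsAlgebraic.isAlgebraic (R := K) y).isIntegral
  haveI : Fintype ι := Fintype.ofFinite ι
  let eq := Fintype.equivFin ι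
  let x'' : Fin (Fintype.card ι) → K' := fun j =>
    ⟨z (eq.symm j), IntermediateField.subset_adjoin K _ ⟨_, rfl⟩⟩
  refine ⟨K', inferInstance, inferInstance, inferInstance, Fintype.card ι, x'', fun n => ?_⟩
  have e1 : algebraMap K K' ((⇑D₀)^[n] (Algebra.trace K K₁ u)) / (n.factorial : K') =
      algebraMap K K' (Algebra.trace K K₁ (v n)) := by
    rw [← htr n, map_div₀, map_natCast]
  rw [e1]
  -- in `A`
  have hA : algebraMap K' A (algebraMap K K' (Algebra.trace K K₁ (v n))) ∈
      Algebra.adjoin ℤ (Set.range z) := by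
    rw [← IsScalarTower.algebraMap_apply, trace_eq_sum_embeddings A]
    refine Subalgebra.sum_mem _ fun σ _ => ?_
    rw [← hτ σ (v n)]
    exact T49.adj_map (τ σ : K₂ →+* A) x' (Set.range z) (fun j => ⟨(σ, j), rfl⟩) _ (hv' n)
  obtain ⟨y, hy, hy'⟩ := T49.adj_lift (algebraMap K' A) x'' (Set.range z) (by
    rintro _ ⟨q, rfl⟩
    refine ⟨eq q, ?_⟩
    show z (eq.symm (eq q)) = z q
    rw [Equiv.symm_apply_apply]) _ hA
  have : y = algebraMap K K' (Algebra.trace K K₁ (v n)) := (algebraMap K' A).injective hy'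
  rw [← this]
  exact hy

end Pool.Agent.Lib.MP_1e09a3_nt.CF
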