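import Pool.Agent.Lib.MP_1e09a3_nt.CF.Stmts73

/-!
Complete flows, module 7: Wronskians.
-/

namespace Pool.Agent.Lib.MP_1e09a3_nt.CF

open Finset

theorem wr28_iter {K : Type} [Field K] (E D : Derivation ℤ K K) (u : K) (h : ∀ x, E x = u * D x)
    (k : ℕ) : ∃ c : ℕ → K, c k = u ^ k ∧ (∀ m, k < m → c m = 0) ∧
      ∀ x, (⇑E)^[k] x = ∑ m ∈ range (k + 1), c m * (⇑D)^[m] x := by
  induction k with
  | zero =>
    refine ⟨fun m => if m = 0 then 1 else 0, by simp, fun m hm => if_neg (by omega), fun x => ?_⟩
    simp
  | succ k ih =>
    obtain ⟨c, hck, hc0, hc⟩ := ih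
    refine ⟨fun m => E (c m) + u * (if m = 0 then 0 else c (m - 1)), ?_, ?_, ?_⟩
    · have h1 : c (k + 1) = 0 := hc0 (k + 1) (by omega)
      simp only [Nat.add_sub_cancel, h1, map_zero, zero_add, hck, if_neg (Nat.succ_ne_zero k)]
      rw [pow_succ]
      ring
    · intro m hm
      have h1 : c m = 0 := hc0 m (by omega)
      have h2 : c (m - 1) = 0 := hc0 (m - 1) (by omega)
      simp only [h1, map_zero, h2]
      split_ifs <;> simp
    · intro x
      rw [Function.iterate_succ_apply', hc x, map_sum]
      have e1 : ∑ m ∈ range (k + 1 + 1), (E (c m) + u * (if m = 0 then 0 else c (m - 1))) *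
          (⇑D)^[m] x = ∑ m ∈ range (k + 1 + 1), E (c m) * (⇑D)^[m] x +
          ∑ m ∈ range (k + 1 + 1), u * (if m = 0 then 0 else c (m - 1)) * (⇑D)^[m] x := by
        rw [← sum_add_distrib]
        exact sum_congr rfl fun m _ => by ring
      have e2 : ∑ m ∈ range (k + 1 + 1), E (c m) * (⇑D)^[m] x =
          ∑ m ∈ range (k + 1), E (c m) * (⇑D)^[m] x := by
        rw [sum_range_succ, hc0 (k + 1) (by omega), map_zero, zero_mul, add_zero]
      have e3 : ∑ m ∈ range (k + 1 + 1), u * (if m = 0 then 0 else c (m - 1)) * (⇑D)^[m] x =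
          ∑ m ∈ range (k + 1), u * c m * (⇑D)^[m + 1] x := by
        rw [sum_range_succ']
        simp
      rw [e1, e2, e3, ← sum_add_distrib]
      refine sum_congr rfl fun m _ => ?_
      rw [Derivation.leibniz, h ((⇑D)^[m] x), Function.iterate_succ_apply']
      simp only [smul_eq_mul]
      ring

theorem wrChange_28 : WrChangeStmt := by
  intro K _ E D u h n v
  choose c hck hc0 hc using wr28_iter E D u h
  have h1 : wrM E v = (Matrix.of fun (k m : Fin n) => c k m) * wrM D v := by
    ext k j
    rw [Matrix.mul_apply]
    simp only [wrM, Matrix.of_apply]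
    rw [hc (k : ℕ) (v j), Fin.sum_univ_eq_sum_range (fun m => c k m * (⇑D)^[m] (v j)) n]
    refine sum_subset ?_ ?_
    · intro m hm
      rw [mem_range] at hm ⊢
      have := k.2
      omega
    · intro m _ hm
      rw [mem_range, not_lt] at hm
      rw [hc0 k m (by omega), zero_mul]
  have h2 : (Matrix.of fun (k m : Fin n) => c k m).det = u ^ (n * (n - 1) / 2) := by
    rw [Matrix.det_of_isLowerTriangular]
    · simp only [Matrix.of_apply, hck]
      rw [prod_pow_eq_pow_sum, Fin.sum_univ_eq_sum_range (fun m => m) n, sum_range_id]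
    · intro i j hij
      rw [Matrix.of_apply]
      exact hc0 _ _ (by simpa using hij)
  rw [h1, Matrix.det_mul, h2]

theorem wrZero_28 : WrZeroStmt := by
  intro K _ D n
  induction n with
  | zero =>
    intro v hv
    rw [Matrix.det_isEmpty] at hv
    exact absurd hv one_ne_zero
  | succ n ih =>
    intro v hv
    by_cases hW : (wrM D (fun j : Fin n => v j.castSucc)).det = 0
    · obtain ⟨c, hc0, hcD, hcs⟩ := ih _ hW
      refine ⟨Fin.snoc c 0, ?_, ?_, ?_⟩
      · intro h
        apply hc0
        funext j
        have := congrFun h j.castSucc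
        simpa using this
      · intro j
        refine Fin.lastCases ?_ (fun j => ?_) j
        · simp
        · simpa using hcD j
      · rw [Fin.sum_univ_castSucc]
        simpa using hcs
    · obtain ⟨a, ha0, ha⟩ := Matrix.exists_mulVec_eq_zero_iff.2 hv
      have hrow : ∀ k : ℕ, k < n + 1 → ∑ j, (⇑D)^[k] (v j) * a j = 0 := by
        intro k hk
        have := congrFun ha ⟨k, hk⟩
        simpa [Matrix.mulVec, dotProduct, wrM] using this
      have hlast : a (Fin.last n) ≠ 0 := by
        intro hl
        apply ha0
        have h1 : (wrM D (fun j : Fin n => v j.castSucc)).mulVec (fun j => a j.castSucc) = 0 := by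
          funext k
          have := hrow k (by omega)
          rw [Fin.sum_univ_castSucc, hl, mul_zero, add_zero] at this
          simpa [Matrix.mulVec, dotProduct, wrM] using this
        have h2 := Matrix.eq_zero_of_mulVec_eq_zero hW h1
        funext j
        refine Fin.lastCases ?_ (fun j => ?_) j
        · simpa using hl
        · simpa using congrFun h2 j
      -- normalise
      set b : Fin (n + 1) → K := fun j => a j / a (Fin.last n) with hb
      have hb1 : b (Fin.last n) = 1 := by simp [hb, hlast]
      have hbrow : ∀ k : ℕ, k < n + 1 → ∑ j, (⇑D)^[k] (v j) * b j = 0 := by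
        intro k hk
        have h1 := hrow k hk
        have h2 : ∑ j, (⇑D)^[k] (v j) * b j = (∑ j, (⇑D)^[k] (v j) * a j) / a (Fin.last n) := by
          rw [sum_div]
          exact sum_congr rfl fun j _ => by simp only [hb]; ring
        rw [h2, h1, zero_div]
      have hder : (wrM D (fun j : Fin n => v j.castSucc)).mulVec (fun j => D (b j.castSucc)) = 0 := by
        funext k
        have h1 := hbrow k (by omega)
        have h2 := hbrow (k + 1) (by omega)
        have h3 := congrArg D h1
        rw [map_sum, map_zero] at h3
        have h4 : ∑ j, D ((⇑D)^[(k : ℕ)] (v j) * b j) = ∑ j, (⇑D)^[(k : ℕ)] (v j) * D (b j) +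
            ∑ j, (⇑D)^[(k : ℕ) + 1] (v j) * b j := by
          rw [← sum_add_distrib]
          refine sum_congr rfl fun j _ => ?_
          rw [Derivation.leibniz, Function.iterate_succ_apply']
          simp only [smul_eq_mul]
          ring
        rw [h4, h2, add_zero, Fin.sum_univ_castSucc, hb1] at h3
        simpa [Matrix.mulVec, dotProduct, wrM] using h3
      have hD := Matrix.eq_zero_of_mulVec_eq_zero hW hder
      refine ⟨b, ?_, ?_, ?_⟩
      · intro h
        have := congrFun h (Fin.last n)
        rw [hb1] at this
        exact one_ne_zero this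
      · intro j
        refine Fin.lastCases ?_ (fun j => ?_) j
        · rw [hb1]
          simp
        · exact congrFun hD j
      · have := hbrow 0 (by omega)
        rw [← this]
        exact sum_congr rfl fun j _ => by simp [mul_comm]

end Pool.Agent.Lib.MP_1e09a3_nt.CF
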