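import Pool.Agent.Lib.MP_1e09a3_nt.CF.Front73
import Pool.Agent.Lib.MP_1e09a3_nt.CF.Field27
import Pool.Agent.Lib.MP_1e09a3_nt.CF.Tower27
import Pool.Agent.Lib.MP_1e09a3_nt.CF.Wr28
import Pool.Agent.Lib.MP_1e09a3_nt.CF.NormPoint28
import Pool.Agent.Lib.MP_1e09a3_nt.CF.Growth49
import Pool.Agent.Lib.MP_1e09a3_nt.CF.Trace49
import Pool.Agent.Lib.MP_1e09a3_nt.CF.Series63
import Pool.Agent.Lib.MP_1e09a3_nt.CF.CompleteFlow67
import Pool.Agent.Lib.MP_1e09a3_nt.CF.FlowBound96
import Pool.Agent.Lib.MP_1e09a3_nt.CF.TraceAlg96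

/-!
Integral functions which are algebraic over the solutions of a complete polynomial system are
algebraic: final form.
-/

open scoped PowerSeries
open MvPolynomial

namespace Pool.Agent.Lib.MP_1e09a3_nt.CF

/-- `f` is a solution on `V` of the system `X_i' = P_i(X)` with complex coefficients. -/
def IsSolutionC {N : ℕ} (V : Set ℂ) (P : Fin N → MvPolynomial (Fin N) ℂ) (f : Fin N → ℂ → ℂ) :
    Prop := ∀ s ∈ V, ∀ i, HasDerivAt (f i) (eval (fun j => f j s) (P i)) s

/-- The function `y` on `U` is uniformized by `f_1, …, f_N` on the connected open set `V`: for a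
nonconstant holomorphic map `ζ : V → U` which is a rational function of the `f_i`, the function
`y(ζ(s))` is algebraic over the field generated by the `f_i` and the complex numbers. -/
structure IsUniformizedBy {N : ℕ} (U V : Set ℂ) (f : Fin N → ℂ → ℂ) (ζ y : ℂ → ℂ) : Prop where
  isOpen : IsOpen V
  connected : IsPreconnected V
  diff : DifferentiableOn ℂ ζ V
  maps : ∀ s ∈ V, ζ s ∈ U
  nonconst : ∃ s ∈ V, deriv ζ s ≠ 0
  rational : IsRationalIn V f ζ
  algebraic : IsAlgebraicIn V f (fun s => y (ζ s))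

theorem core_all : CoreStmt :=
  core_73 normPoint_28 growth_49 wrChange_28 wrZero_28 seriesMul_63 sbMul_63 detBound_63
    flowBound_96

theorem meroFlow_algebraic (U : Set ℂ) (y : ℂ → ℂ) (hU : IsOpen U) (hconn : IsPreconnected U)
    (hy : IsIntegralOn U y) (N : ℕ) (P : Fin N → MvPolynomial (Fin N) ℤ)
    (κ : MvPolynomial (Fin N) ℤ) (E : Option (Fin N) → ℂ → (Fin N → ℂ) → ℂ)
    (hE : IsMeroFlow P κ E) (V : Set ℂ) (f : Fin N → ℂ → ℂ) (ζ : ℂ → ℂ) (hf : IsSolution V P f)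
    (hκ : ∃ s ∈ V, aeval (fun j => f j s) κ ≠ 0) (h : IsUniformizedBy U V f ζ y) :
    IsAlgebraicOn U y := by
  obtain ⟨D, hD⟩ := exists_psf_der
  exact flow_main core_all fieldData_27 (trace_49 retract_27) traceAlg_96 extend_63 PSF D
    (IsScalarTower.toAlgHom ℂ ℂ⟦X⟧ PSF) psf_injective hD (const_psf hD) U hU hconn y hy N P κ E hE
    V h.isOpen h.connected f hf hκ ζ h.diff h.maps h.nonconst h.rational h.algebraic

theorem complete_algebraic (U : Set ℂ) (y : ℂ → ℂ) (hU : IsOpen U) (hconn : IsPreconnected U)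
    (hy : IsIntegralOn U y) (N : ℕ) (P : Fin N → MvPolynomial (Fin N) ℤ) (hP : IsComplete P)
    (V : Set ℂ) (f : Fin N → ℂ → ℂ) (ζ : ℂ → ℂ) (hf : IsSolution V P f)
    (h : IsUniformizedBy U V f ζ y) : IsAlgebraicOn U y := by
  obtain ⟨E, hE⟩ := completeFlow_67 N P hP
  obtain ⟨s, hs, -⟩ := h.nonconst
  exact meroFlow_algebraic U y hU hconn hy N P 1 E hE V f ζ hf ⟨s, hs, by simp⟩ h

theorem eval_append_rename {N M : ℕ} (x : Fin N → ℂ) (c : Fin M → ℂ)
    (q : MvPolynomial (Fin N) ℂ) :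
    eval (Fin.append x c) (rename (Fin.castAdd M) q) = eval x q := by
  rw [eval_rename]
  congr 2
  funext i
  simp

theorem append_fun {N M : ℕ} (f : Fin N → ℂ → ℂ) (c : Fin M → ℂ) (s : ℂ) :
    (fun j => (Fin.append f fun j _ => c j : Fin (N + M) → ℂ → ℂ) j s) =
      Fin.append (fun i => f i s) c := by
  funext j
  refine Fin.addCases (fun i => ?_) (fun i => ?_) j
  · rw [Fin.append_left, Fin.append_left]
  · rw [Fin.append_right, Fin.append_right]

theorem IsUniformizedBy.append {N M : ℕ} {U V : Set ℂ} {f : Fin N → ℂ → ℂ} {ζ y : ℂ → ℂ}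
    (h : IsUniformizedBy U V f ζ y) (c : Fin M → ℂ) :
    IsUniformizedBy U V (Fin.append f fun j _ => c j) ζ y := by
  obtain ⟨G₀, G₁, ⟨s, hs, hG₀⟩, hG⟩ := h.rational
  obtain ⟨H, ⟨t, ht, hH₀⟩, hH⟩ := h.algebraic
  have hev : ∀ (s : ℂ) (q : MvPolynomial (Fin N) ℂ),
      eval (fun j => (Fin.append f fun j _ => c j : Fin (N + M) → ℂ → ℂ) j s)
        (rename (Fin.castAdd M) q) = eval (fun j => f j s) q := by
    intro s q
    rw [append_fun, eval_append_rename]
  have hmap : ∀ s : ℂ, (H.map (rename (Fin.castAdd M) : _ →ₐ[ℂ] _).toRingHom).map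
      (eval fun j => (Fin.append f fun j _ => c j : Fin (N + M) → ℂ → ℂ) j s) =
      H.map (eval fun j => f j s) := by
    intro s
    ext k
    rw [Polynomial.coeff_map, Polynomial.coeff_map, Polynomial.coeff_map]
    exact hev s _
  refine ⟨h.isOpen, h.connected, h.diff, h.maps, h.nonconst,
    ⟨rename (Fin.castAdd M) G₀, rename (Fin.castAdd M) G₁, ⟨s, hs, ?_⟩, fun s hs => ?_⟩,
    ⟨H.map (rename (Fin.castAdd M) : _ →ₐ[ℂ] _).toRingHom, ⟨t, ht, ?_⟩, fun s hs => ?_⟩⟩
  · rw [hev]; exact hG₀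
  · rw [hev, hev]; exact hG s hs
  · rw [hmap]; exact hH₀
  · rw [hmap]; exact hH s hs

theorem tower_algebraic (U : Set ℂ) (y : ℂ → ℂ) (hU : IsOpen U) (hconn : IsPreconnected U)
    (hy : IsIntegralOn U y) (N : ℕ) (level : Fin N → ℕ) (P : Fin N → MvPolynomial (Fin N) ℂ)
    (hP : IsTower level P) (V : Set ℂ) (f : Fin N → ℂ → ℂ) (ζ : ℂ → ℂ) (hf : IsSolutionC V P f)
    (h : IsUniformizedBy U V f ζ y) : IsAlgebraicOn U y := by
  obtain ⟨M, c, level', P', hP', hPP', hP0⟩ := complexCoeff_63 N level P hP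
  refine complete_algebraic U y hU hconn hy (N + M) P' (tower_27 (N + M) level' P' hP') V
    (Fin.append f fun j _ => c j) ζ ?_ (h.append c)
  intro s hs i
  rw [append_fun]
  refine Fin.addCases (fun i => ?_) (fun j => ?_) i
  · rw [Fin.append_left, hPP']
    exact hf s hs i
  · rw [Fin.append_right, hP0, map_zero]
    exact hasDerivAt_const s (c j)

end Pool.Agent.Lib.MP_1e09a3_nt.CF
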