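import Pool.Agent.Lib.MP_1e09a3_nt.CF.FieldMain73
import Pool.Agent.Lib.MP_1e09a3_nt.CF.Coeff63
import Pool.Agent.Lib.MP_1e09a3_nt.Final

/-!
From the field theorem to holomorphic functions.
-/

set_option linter.style.haveILetI false

open scoped PowerSeries
open Filter Topology MvPolynomial

namespace Pool.Agent.Lib.MP_1e09a3_nt.CF

/-- `f` is a solution on `V` of the system `X_i' = P_i(X)`. -/
def IsSolution {N : ℕ} (V : Set ℂ) (P : Fin N → MvPolynomial (Fin N) ℤ) (f : Fin N → ℂ → ℂ) :
    Prop := ∀ s ∈ V, ∀ i, HasDerivAt (f i) (aeval (fun j => f j s) (P i)) s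

/-- `g` is a rational function of `f_1, …, f_N` with complex coefficients on `V`. -/
def IsRationalIn {N : ℕ} (V : Set ℂ) (f : Fin N → ℂ → ℂ) (g : ℂ → ℂ) : Prop :=
  ∃ G₀ G₁ : MvPolynomial (Fin N) ℂ, (∃ s ∈ V, eval (fun j => f j s) G₀ ≠ 0) ∧
    ∀ s ∈ V, g s * eval (fun j => f j s) G₀ = eval (fun j => f j s) G₁

/-- `g` is algebraic over the field generated by `f_1, …, f_N` and the complex numbers. -/
def IsAlgebraicIn {N : ℕ} (V : Set ℂ) (f : Fin N → ℂ → ℂ) (g : ℂ → ℂ) : Prop :=
  ∃ H : Polynomial (MvPolynomial (Fin N) ℂ),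
    (∃ s ∈ V, H.map (eval fun j => f j s) ≠ 0) ∧
      ∀ s ∈ V, (H.map (eval fun j => f j s)).eval (g s) = 0

theorem taylor_eq_zero_of_eventually {a : ℂ} {g : ℂ → ℂ} (h : g =ᶠ[𝓝 a] 0) : taylor a g = 0 := by
  have h1 : taylor a g = taylor a (fun _ => 0) := taylor_congr h
  rw [h1, taylor_const, map_zero]

theorem taylor_ne_zero {V : Set ℂ} (hVc : IsPreconnected V) {a : ℂ} (ha : a ∈ V) {g : ℂ → ℂ}
    (hg : AnalyticOnNhd ℂ g V) (h : ∃ s ∈ V, g s ≠ 0) : taylor a g ≠ 0 := by
  intro h0
  obtain ⟨s, hs, hne⟩ := h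
  exact hne (hg.eqOn_zero_of_preconnected_of_eventuallyEq_zero hVc ha
    (eventually_zero_of_taylor (hg a ha) h0) hs)

theorem eval_eq_aeval' {σ : Type*} (x : σ → ℂ) (p : MvPolynomial σ ℂ) :
    eval x p = aeval x p := by
  rw [← MvPolynomial.coe_aeval_eq_eval]; rfl

theorem analyticOnNhd_eval {V : Set ℂ} {N : ℕ} {f : Fin N → ℂ → ℂ}
    (hf : ∀ i, AnalyticOnNhd ℂ (f i) V) (G : MvPolynomial (Fin N) ℂ) :
    AnalyticOnNhd ℂ (fun s => eval (fun j => f j s) G) V := by
  intro s hs
  have := analyticAt_aeval (fun i => hf i s hs) G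
  simpa only [eval_eq_aeval'] using this

theorem exists_int_der (Ω : Type) [Field Ω] [Algebra ℂ Ω] (D : Derivation ℂ Ω Ω) :
    ∃ Δ : Derivation ℤ Ω Ω, ∀ x, Δ x = D x := by
  refine ⟨Derivation.mk' (AddMonoidHom.toIntLinearMap
    { toFun := fun x => D x
      map_zero' := map_zero D
      map_add' := fun a b => map_add D a b }) ?_, fun x => rfl⟩
  intro a b
  exact D.leibniz a b

theorem flow_main (hcore : CoreStmt) (hfd : FieldDataStmt) (htr : TraceStmt)
    (hta : TraceAlgStmt) (hext : ExtendStmt) (Ω : Type) [Field Ω] [Algebra ℂ Ω]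
    (D : Derivation ℂ Ω Ω) (ι : ℂ⟦X⟧ →ₐ[ℂ] Ω) (hιinj : Function.Injective ι)
    (hιD : ∀ g, D (ι g) = ι (PowerSeries.derivative ℂ g))
    (hconst : ∀ x, D x = 0 → ∃ c : ℂ, algebraMap ℂ Ω c = x) (U : Set ℂ) (hU : IsOpen U) (hconn : IsPreconnected U)
    (y : ℂ → ℂ) (hy : IsIntegralOn U y) (N : ℕ) (P : Fin N → MvPolynomial (Fin N) ℤ)
    (κ : MvPolynomial (Fin N) ℤ) (E : Option (Fin N) → ℂ → (Fin N → ℂ) → ℂ)
    (hE : IsMeroFlow P κ E) (V : Set ℂ) (hV : IsOpen V) (hVc : IsPreconnected V)
    (f : Fin N → ℂ → ℂ) (hf : IsSolution V P f) (hκ : ∃ s ∈ V, aeval (fun j => f j s) κ ≠ 0)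
    (ζ : ℂ → ℂ) (hζd : DifferentiableOn ℂ ζ V) (hζU : ∀ s ∈ V, ζ s ∈ U)
    (hζ' : ∃ s ∈ V, deriv ζ s ≠ 0) (hζ : IsRationalIn V f ζ)
    (halg : IsAlgebraicIn V f (fun s => y (ζ s))) : IsAlgebraicOn U y := by
  classical
  obtain ⟨a, haV, hζa⟩ := hζ'
  have hmemV : V ∈ 𝓝 a := hV.mem_nhds haV
  have hchar : CharZero Ω := charZero_of_injective_algebraMap (algebraMap ℂ Ω).injective
  have hfan : ∀ i, AnalyticOnNhd ℂ (f i) V := fun i =>
    (DifferentiableOn.analyticOnNhd (fun s hs =>
      (hf s hs i).differentiableAt.differentiableWithinAt) hV)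
  have hζan : AnalyticOnNhd ℂ ζ V := hζd.analyticOnNhd hV
  have hyan : AnalyticOnNhd ℂ y U := differentiableOn_of_isIntegralOn hU hy
  have hyζan : AnalyticOnNhd ℂ (fun s => y (ζ s)) V := fun s hs =>
    (hyan (ζ s) (hζU s hs)).fun_comp (hζan s hs)
  -- the constants
  obtain ⟨G₀, G₁, hG₀, hG⟩ := hζ
  obtain ⟨H, hH₀, hH⟩ := halg
  set T : Finset ℂ := (G₀.support.image fun m => G₀.coeff m) ∪
    (G₁.support.image fun m => G₁.coeff m) ∪
    (H.support.biUnion fun k => (H.coeff k).support.image fun m => (H.coeff k).coeff m) with hT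
  set M := T.card with hM
  set c : Fin M → ℂ := fun j => (T.equivFin.symm j : ℂ) with hc
  have hcT : ∀ t ∈ T, ∃ j, c j = t := fun t ht =>
    ⟨T.equivFin ⟨t, ht⟩, by rw [hc]; simp⟩
  set fh : Fin N → Ω := fun i => ι (taylor a (f i)) with hfh
  set F : Fin (N + M) → Ω := Fin.append fh (fun j => algebraMap ℂ Ω (c j)) with hF
  have hFf : ∀ i, fh i ∈ ff F := by
    intro i
    have := apply_mem_ff F (Fin.castAdd M i)
    rwa [hF, Fin.append_left, ← hF] at this
  have hFc : ∀ t ∈ T, algebraMap ℂ Ω t ∈ ff F := by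
    intro t ht
    obtain ⟨j, rfl⟩ := hcT t ht
    have := apply_mem_ff F (Fin.natAdd N j)
    rwa [hF, Fin.append_right, ← hF] at this
  have hFp : ∀ p : MvPolynomial (Fin N) ℂ, (∀ m ∈ p.support, p.coeff m ∈ T) →
      aeval fh p ∈ ff F := by
    intro p hp
    rw [aeval_def, eval₂_eq']
    exact (ff F).sum_mem fun m hm => (ff F).mul_mem (hFc _ (hp m hm))
      ((ff F).prod_mem fun i _ => pow_mem (hFf i) _)
  have haevC : ∀ p : MvPolynomial (Fin N) ℂ,
      aeval fh p = ι (taylor a fun s => eval (fun j => f j s) p) := by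
    intro p
    have h1 := taylor_aeval (fun i => hfan i a haV) p
    simp only [← eval_eq_aeval'] at h1
    rw [h1]
    exact (MvPolynomial.comp_aeval_apply (fun i => taylor a (f i)) ι p).symm
  have haevZ : ∀ p : MvPolynomial (Fin N) ℤ,
      aeval fh p = ι (taylor a fun s => aeval (fun j => f j s) p) := by
    intro p
    rw [taylor_aeval (fun i => hfan i a haV) p]
    exact (ringHom_aeval_int (ι : ℂ⟦X⟧ →+* Ω) (fun i => taylor a (f i)) p).symm
  -- `z` and `y`
  set z : Ω := ι (taylor a ζ) with hz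
  set w : Ω := ι (taylor a fun s => y (ζ s)) with hw
  have hzff : z ∈ ff F := by
    have h0 : aeval fh G₀ ≠ 0 := by
      rw [haevC]
      exact (map_ne_zero_iff ι hιinj).2 (taylor_ne_zero hVc haV (analyticOnNhd_eval hfan G₀) hG₀)
    have h1 : z * aeval fh G₀ = aeval fh G₁ := by
      rw [haevC, haevC, hz, ← map_mul, ← taylor_mul (hζan a haV) (analyticOnNhd_eval hfan G₀ a haV)]
      congr 1
      refine taylor_congr ?_
      filter_upwards [hmemV] with s hs
      exact hG s hs
    have h2 : z = aeval fh G₁ * (aeval fh G₀)⁻¹ := by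
      rw [← h1, mul_assoc, mul_inv_cancel₀ h0, mul_one]
    rw [h2]
    refine (ff F).mul_mem (hFp _ fun m hm => ?_) ((ff F).inv_mem (hFp _ fun m hm => ?_))
    · exact Finset.mem_union_left _ (Finset.mem_union_right _ (Finset.mem_image_of_mem _ hm))
    · exact Finset.mem_union_left _ (Finset.mem_union_left _ (Finset.mem_image_of_mem _ hm))
  have hHmem : ∀ k, aeval fh (H.coeff k) ∈ ff F := by
    intro k
    by_cases hk : k ∈ H.support
    · refine hFp _ fun m hm => Finset.mem_union_right _ (Finset.mem_biUnion.2 ⟨k, hk, ?_⟩)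
      exact Finset.mem_image_of_mem _ hm
    · rw [Polynomial.notMem_support_iff.1 hk, map_zero]
      exact (ff F).zero_mem
  have hwalg : IsAlgebraic (ff F) w := by
    refine ⟨∑ k ∈ H.support, Polynomial.monomial k (⟨aeval fh (H.coeff k), hHmem k⟩ : ff F),
      ?_, ?_⟩
    · intro h0
      obtain ⟨s, hs, hne⟩ := hH₀
      obtain ⟨k, hk⟩ : ∃ k, eval (fun j => f j s) (H.coeff k) ≠ 0 := by
        by_contra hcon
        push Not at hcon
        apply hne
        ext k
        rw [Polynomial.coeff_map, hcon k, Polynomial.coeff_zero]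
      have hks : k ∈ H.support := by
        rw [Polynomial.mem_support_iff]
        intro h1
        rw [h1, map_zero] at hk
        exact hk rfl
      have h1 := congrArg (fun p => Polynomial.coeff p k) h0
      simp only [Polynomial.finsetSum_coeff, Polynomial.coeff_monomial,
        Polynomial.coeff_zero] at h1
      rw [Finset.sum_eq_single k (fun b _ hb => if_neg hb) (fun h2 => absurd hks h2),
        if_pos rfl] at h1
      have h2 : aeval fh (H.coeff k) = 0 := congrArg Subtype.val h1
      rw [haevC] at h2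
      exact (map_ne_zero_iff ι hιinj).2
        (taylor_ne_zero hVc haV (analyticOnNhd_eval hfan _) ⟨s, hs, hk⟩) h2
    · rw [map_sum]
      have h1 : ∀ k, Polynomial.aeval w (Polynomial.monomial k
          (⟨aeval fh (H.coeff k), hHmem k⟩ : ff F)) =
          ι (taylor a fun s => eval (fun j => f j s) (H.coeff k) * y (ζ s) ^ k) := by
        intro k
        rw [Polynomial.aeval_monomial]
        change aeval fh (H.coeff k) * w ^ k = _
        have hpow : ∀ k : ℕ, taylor a (fun s => y (ζ s) ^ k) = (taylor a fun s => y (ζ s)) ^ k := by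
          intro k
          induction k with
          | zero =>
            simp only [pow_zero]
            rw [taylor_const, map_one]
          | succ k ih =>
            simp only [pow_succ]
            rw [taylor_mul ((hyζan a haV).fun_pow k) (hyζan a haV), ih]
        rw [haevC, hw, taylor_mul (analyticOnNhd_eval hfan _ a haV) ((hyζan a haV).fun_pow k), map_mul,
          hpow, map_pow]
      have h2 : ∀ S : Finset ℕ, ∑ k ∈ S, ι (taylor a fun s => eval (fun j => f j s) (H.coeff k) *
          y (ζ s) ^ k) = ι (taylor a fun s => ∑ k ∈ S, eval (fun j => f j s) (H.coeff k) *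
            y (ζ s) ^ k) := by
        intro S
        induction S using Finset.induction_on with
        | empty => simp only [Finset.sum_empty]; rw [taylor_const, map_zero, map_zero]
        | insert k S hk ih =>
          simp only [Finset.sum_insert hk]
          rw [ih, ← map_add, ← taylor_add]
          · exact (analyticOnNhd_eval hfan _ a haV).mul ((hyζan a haV).fun_pow k)
          · exact Finset.analyticAt_fun_sum _ fun k _ =>
              (analyticOnNhd_eval hfan _ a haV).mul ((hyζan a haV).fun_pow k)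
      simp only [h1]
      rw [h2]
      rw [taylor_eq_zero_of_eventually, map_zero]
      filter_upwards [hmemV] with s hs
      have h3 := hH s hs
      rw [Polynomial.eval_map, Polynomial.eval₂_eq_sum, Polynomial.sum_def] at h3
      exact h3
  -- the derivation
  obtain ⟨Δ, hΔapp⟩ := exists_int_der Ω D
  have hderiv : ∀ g : ℂ → ℂ, Δ (ι (taylor a g)) = ι (taylor a (deriv g)) := by
    intro g
    rw [hΔapp, hιD, ← taylor_deriv]
  obtain ⟨E', hE'⟩ := hext N P κ E hE M
  have hΔF : ∀ i, Δ (F i) = aeval F (Fin.append (fun i => rename (Fin.castAdd M) (P i))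
      (fun _ : Fin M => (0 : MvPolynomial (Fin (N + M)) ℤ)) i) := by
    intro i
    refine Fin.addCases (fun i => ?_) (fun j => ?_) i
    · rw [Fin.append_left, hF, Fin.append_left, aeval_append_rename, haevZ, hfh, hderiv]
      congr 1
      refine taylor_congr ?_
      filter_upwards [hmemV] with s hs
      exact (hf s hs i).deriv
    · rw [Fin.append_right, hF, Fin.append_right, map_zero, hΔapp, D.map_algebraMap]
  have hκ' : aeval F (rename (Fin.castAdd M) κ) ≠ 0 := by
    rw [hF, aeval_append_rename, haevZ]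
    refine (map_ne_zero_iff ι hιinj).2 (taylor_ne_zero hVc haV (fun s hs => ?_) hκ)
    exact analyticAt_aeval (fun i => hfan i s hs) κ
  have hz' : Δ z ≠ 0 := by
    rw [hz, hderiv]
    refine (map_ne_zero_iff ι hιinj).2 fun h0 => hζa ?_
    rw [← taylor_zero_coeff (a := a) (deriv ζ), h0, map_zero]
  -- integrality
  obtain ⟨r, x, ⟨hx, hint⟩, P₀, hP₀⟩ := hy
  have hxan : ∀ i, AnalyticOnNhd ℂ (fun s => x i (ζ s)) V := fun i s hs =>
    ((hx i).analyticAt (hU.mem_nhds (hζU s hs))).fun_comp (hζan s hs)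
  have hiter : ∀ (n : ℕ) (g : ℂ → ℂ), AnalyticOnNhd ℂ g U →
      (fun w => (Δ z)⁻¹ * Δ w)^[n] (ι (taylor a fun s => g (ζ s))) =
        ι (taylor a fun s => iteratedDeriv n g (ζ s)) := by
    intro n
    induction n with
    | zero => intro g _; simp
    | succ n ih =>
      intro g hg
      have h1 : (Δ z)⁻¹ * Δ (ι (taylor a fun s => g (ζ s))) =
          ι (taylor a fun s => deriv g (ζ s)) := by
        have h2 : Δ (ι (taylor a fun s => g (ζ s))) =
            Δ z * ι (taylor a fun s => deriv g (ζ s)) := by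
          rw [hderiv, hz, hderiv, ← map_mul, ← taylor_mul (hζan a haV).deriv]
          · congr 1
            refine taylor_congr ?_
            filter_upwards [hmemV] with s hs
            have h3 : HasDerivAt g (deriv g (ζ s)) (ζ s) :=
              (hg (ζ s) (hζU s hs)).differentiableAt.hasDerivAt
            have h4 : HasDerivAt ζ (deriv ζ s) s := (hζan s hs).differentiableAt.hasDerivAt
            have h5 := h3.comp s h4
            have h6 : deriv (fun t => g (ζ t)) s = deriv g (ζ s) * deriv ζ s := h5.deriv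
            rw [h6, mul_comm]
          · exact (hg.deriv (ζ a) (hζU a haV)).fun_comp (hζan a haV)
        rw [h2, ← mul_assoc, inv_mul_cancel₀ hz', one_mul]
      rw [Function.iterate_succ_apply, h1, ih (deriv g) hg.deriv]
      simp only [iteratedDeriv_succ']
  have hR : ∀ k n : ℕ, (fun w => (Δ z)⁻¹ * Δ w)^[n] (w ^ k) / (n.factorial : Ω) ∈
      Algebra.adjoin ℤ (Set.range fun i => ι (taylor a fun s => x i (ζ s))) := by
    intro k n
    obtain ⟨Q, hQ⟩ := hint (P₀ ^ k) n
    have hgan : AnalyticOnNhd ℂ (fun w => aeval (fun i => x i w) (P₀ ^ k)) U := fun w hw =>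
      analyticAt_aeval (fun i => (hx i).analyticAt (hU.mem_nhds hw)) _
    have h1 : w ^ k = ι (taylor a fun s => (fun w => aeval (fun i => x i w) (P₀ ^ k)) (ζ s)) := by
      have h2 : taylor a (fun s => (fun w => aeval (fun i => x i w) (P₀ ^ k)) (ζ s)) =
          (aeval (fun i => taylor a fun s => x i (ζ s)) P₀) ^ k := by
        rw [← map_pow, ← taylor_aeval (fun i => hxan i a haV)]
      have h3 : taylor a (fun s => y (ζ s)) = aeval (fun i => taylor a fun s => x i (ζ s)) P₀ := by
        rw [← taylor_aeval (fun i => hxan i a haV)]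
        refine taylor_congr ?_
        filter_upwards [hmemV] with s hs
        exact hP₀ _ (hζU s hs)
      rw [h2, hw, h3, map_pow]
    rw [h1, hiter n _ hgan]
    have h4 : taylor a (fun s => iteratedDeriv n (fun w => aeval (fun i => x i w) (P₀ ^ k)) (ζ s)) =
        taylor a (fun s => (n.factorial : ℂ) * aeval (fun i => x i (ζ s)) Q) := by
      refine taylor_congr ?_
      filter_upwards [hmemV] with s hs
      have h5 := hQ (ζ s) (hζU s hs)
      rw [div_eq_iff (Nat.cast_ne_zero.2 (Nat.factorial_ne_zero n))] at h5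
      rw [h5, mul_comm]
    rw [h4, taylor_mul analyticAt_const (analyticAt_aeval (fun i => hxan i a haV) Q), taylor_const,
      map_mul, taylor_aeval (fun i => hxan i a haV) Q]
    have h6 : ι (PowerSeries.C (n.factorial : ℂ)) = (n.factorial : Ω) := by
      rw [map_natCast, map_natCast]
    rw [h6, mul_div_cancel_left₀ _ (Nat.cast_ne_zero.2 (Nat.factorial_ne_zero n))]
    have h7 := ringHom_aeval_int (ι : ℂ⟦X⟧ →+* Ω) (fun i => taylor a fun s => x i (ζ s)) Q
    change ((ι : ℂ⟦X⟧ →+* Ω) _) ∈ _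
    rw [h7, Algebra.adjoin_range_eq_range_aeval]
    exact ⟨Q, rfl⟩
  obtain ⟨Q, hQne, hQ0⟩ := field_main hcore hfd htr hta Ω Δ
    (fun c => by rw [hΔapp, D.map_algebraMap]) (fun x hx => hconst x (by rw [← hΔapp, hx])) (N + M) _ _ E' hE' F hΔF hκ' z w hzff hz' hwalg r _ hR
  -- conclusion
  refine ⟨Q, hQne, ?_⟩
  have hgan : ∀ b, ∀ w ∈ U, AnalyticAt ℂ (fun w => (![w, y w] : Fin 2 → ℂ) b) w := by
    intro b w hw
    fin_cases b
    · exact analyticAt_id
    · exact hyan w hw
  have hQan : AnalyticOnNhd ℂ (fun w => eval ![w, y w] Q) U := by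
    intro w hw
    have := analyticAt_aeval (fun b => hgan b w hw) Q
    simpa only [eval_eq_aeval'] using this
  have hloc : ∀ᶠ s in 𝓝 a, eval ![ζ s, y (ζ s)] Q = 0 := by
    have hgan' : ∀ b, AnalyticAt ℂ (fun s => (![ζ s, y (ζ s)] : Fin 2 → ℂ) b) a := by
      intro b
      fin_cases b
      · exact hζan a haV
      · exact hyζan a haV
    have han : AnalyticAt ℂ (fun s => eval ![ζ s, y (ζ s)] Q) a := by
      have := analyticAt_aeval hgan' Q
      simpa only [eval_eq_aeval'] using this
    refine eventually_zero_of_taylor han ?_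
    apply hιinj
    rw [map_zero, ← hQ0]
    have h1 := taylor_aeval hgan' Q
    simp only [← eval_eq_aeval'] at h1
    rw [h1]
    change ι (aeval (fun b => taylor a fun s => (![ζ s, y (ζ s)] : Fin 2 → ℂ) b) Q) = _
    rw [MvPolynomial.comp_aeval_apply]
    congr 2
    funext b
    fin_cases b
    · rfl
    · rfl
  have hloc' : (fun w => eval ![w, y w] Q) =ᶠ[𝓝 (ζ a)] 0 := by
    have hstr : HasStrictDerivAt ζ (deriv ζ a) a :=
      (hζan a haV).hasStrictDerivAt
    have hmap := hstr.map_nhds_eq hζa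
    change ∀ᶠ w in 𝓝 (ζ a), eval ![w, y w] Q = 0
    rw [← hmap, Filter.eventually_map]
    exact hloc
  have hall := hQan.eqOn_zero_of_preconnected_of_eventuallyEq_zero hconn (hζU a haV) hloc'
  intro w hw
  exact hall hw

end Pool.Agent.Lib.MP_1e09a3_nt.CF
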