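import Pool.Agent.Lib.MP_1e09a3_nt.CF.Tay73

/-!
The ring of integral elements and the size of denominators of Taylor coefficients.
-/

open MvPolynomial

namespace Pool.Agent.Lib.MP_1e09a3_nt.CF

variable {d : ℕ} {K : Type} [Field K]

/-- elements integral over `ℤ[w]` -/
def intRing (φ : F d →+* K) : Subring K where
  carrier := {b | Intg φ b}
  mul_mem' := fun ha hb => RingHom.IsIntegralElem.mul _ ha hb
  one_mem' := RingHom.isIntegralElem_one _
  add_mem' := fun ha hb => RingHom.IsIntegralElem.add _ ha hb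
  zero_mem' := RingHom.isIntegralElem_zero _
  neg_mem' := fun ha => RingHom.IsIntegralElem.neg _ ha

theorem mem_intRing {φ : F d →+* K} {b : K} : b ∈ intRing φ ↔ Intg φ b := Iff.rfl

theorem algebraMap_mem_intRing (φ : F d →+* K) (g : S d) :
    φ (algebraMap (S d) (F d) g) ∈ intRing φ :=
  RingHom.isIntegralElem_map _

theorem det_mem {n : ℕ} (O : Subring K) (M : Matrix (Fin n) (Fin n) K) (h : ∀ i j, M i j ∈ O) :
    M.det ∈ O := by
  rw [Matrix.det_apply]
  refine O.sum_mem fun σ _ => ?_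
  rw [Units.smul_def, zsmul_eq_mul]
  exact O.mul_mem (intCast_mem O _) (O.prod_mem fun i _ => h _ _)

/-- The coefficients of `h` become elements of `O` after multiplication by `γ^(r+k)`. -/
def WI (O : Subring K) (γ : K) (r : ℕ) (h : PowerSeries K) : Prop :=
  ∀ k, γ ^ (r + k) * PowerSeries.coeff k h ∈ O

theorem WI.mul {O : Subring K} {γ : K} {r r' : ℕ} {h h' : PowerSeries K} (H : WI O γ r h)
    (H' : WI O γ r' h') : WI O γ (r + r') (h * h') := by
  intro k
  rw [PowerSeries.coeff_mul, Finset.mul_sum]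
  refine O.sum_mem fun ij hij => ?_
  rw [Finset.HasAntidiagonal.mem_antidiagonal] at hij
  have h1 := O.mul_mem (H ij.1) (H' ij.2)
  have h2 : γ ^ (r + r' + k) = γ ^ (r + ij.1) * γ ^ (r' + ij.2) := by
    rw [← pow_add, ← hij]
    congr 1
    omega
  rw [h2]
  convert h1 using 1
  ring

theorem WI.one (O : Subring K) {γ : K} (hγ : γ ∈ O) : WI O γ 0 1 := by
  intro k
  rw [PowerSeries.coeff_one]
  split_ifs
  · rw [mul_one]; exact O.pow_mem hγ _
  · rw [mul_zero]; exact O.zero_mem

theorem WI.pow {O : Subring K} {γ : K} (hγ : γ ∈ O) {r : ℕ} {h : PowerSeries K} (H : WI O γ r h)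
    (j : ℕ) : WI O γ (r * j) (h ^ j) := by
  induction j with
  | zero => rw [mul_zero, pow_zero]; exact WI.one O hγ
  | succ j ih => rw [pow_succ, mul_add, mul_one]; exact ih.mul H

theorem WI.mono {O : Subring K} {γ : K} (hγ : γ ∈ O) {r r' : ℕ} (hr : r ≤ r')
    {h : PowerSeries K} (H : WI O γ r h) : WI O γ r' h := by
  intro k
  obtain ⟨m, rfl⟩ := Nat.exists_eq_add_of_le hr
  have h1 : γ ^ (r + m + k) = γ ^ m * γ ^ (r + k) := by
    rw [← pow_add]; congr 1; omega
  rw [h1, mul_assoc]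
  exact O.mul_mem (O.pow_mem hγ _) (H k)

/-- Determinant whose `k`-th row has denominator `γ^(r+k)`. -/
theorem det_scaled {n : ℕ} (O : Subring K) (γ : K) (r : ℕ) (M : Matrix (Fin n) (Fin n) K)
    (h : ∀ k j : Fin n, γ ^ (r + (k : ℕ)) * M k j ∈ O) :
    γ ^ (r * n + n * (n - 1) / 2) * M.det ∈ O := by
  have h1 := Matrix.det_mul_column (fun k : Fin n => γ ^ (r + (k : ℕ))) M
  have h2 : ∏ k : Fin n, γ ^ (r + (k : ℕ)) = γ ^ (r * n + n * (n - 1) / 2) := by
    rw [Finset.prod_pow_eq_pow_sum, Finset.sum_add_distrib, Finset.sum_const, Finset.card_univ,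
      Fintype.card_fin, smul_eq_mul, Fin.sum_univ_eq_sum_range (fun k => k),
      Finset.sum_range_id, mul_comm r n]
  rw [← h2, ← h1]
  exact det_mem O _ fun i j => h i j

end Pool.Agent.Lib.MP_1e09a3_nt.CF
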