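import Pool.Agent.Lib.MP_1e09a3_nt.CF.Stmts73

/-!
Taylor homomorphism of a derivation, and derivations on polynomial rings.
-/

open MvPolynomial

namespace Pool.Agent.Lib.MP_1e09a3_nt.CF

section tay

variable {K : Type} [Field K] {R : Type} [Field R] [CharZero R]

/-- `w ↦ ∑ τ(D^k w) / k! X^k` -/
noncomputable def tay (D : Derivation ℤ K K) (τ : K →+* R) (w : K) : PowerSeries R :=
  PowerSeries.mk fun k => τ ((⇑D)^[k] w) / (k.factorial : R)

theorem coeff_tay (D : Derivation ℤ K K) (τ : K →+* R) (w : K) (k : ℕ) :
    PowerSeries.coeff k (tay D τ w) = τ ((⇑D)^[k] w) / (k.factorial : R) := by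
  rw [tay, PowerSeries.coeff_mk]

theorem iterate_add (D : Derivation ℤ K K) (k : ℕ) (a b : K) :
    (⇑D)^[k] (a + b) = (⇑D)^[k] a + (⇑D)^[k] b := by
  induction k generalizing a b with
  | zero => rfl
  | succ k ih => rw [Function.iterate_succ_apply, Function.iterate_succ_apply,
      Function.iterate_succ_apply, map_add, ih]

theorem tay_add (D : Derivation ℤ K K) (τ : K →+* R) (a b : K) :
    tay D τ (a + b) = tay D τ a + tay D τ b := by
  ext k
  rw [map_add, coeff_tay, coeff_tay, coeff_tay, iterate_add, map_add, add_div]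

theorem coeff_succ_tay (D : Derivation ℤ K K) (τ : K →+* R) (w : K) (k : ℕ) :
    ((k + 1 : ℕ) : R) * PowerSeries.coeff (k + 1) (tay D τ w) =
      PowerSeries.coeff k (tay D τ (D w)) := by
  rw [coeff_tay, coeff_tay, Function.iterate_succ_apply, Nat.factorial_succ]
  have h1 : ((k + 1 : ℕ) : R) ≠ 0 := Nat.cast_ne_zero.2 (Nat.succ_ne_zero k)
  have h2 : (k.factorial : R) ≠ 0 := Nat.cast_ne_zero.2 k.factorial_ne_zero
  push_cast at h1 ⊢
  field_simp

theorem tay_mul (D : Derivation ℤ K K) (τ : K →+* R) (a b : K) :
    tay D τ (a * b) = tay D τ a * tay D τ b := by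
  have key : ∀ (k : ℕ) (a b : K), PowerSeries.coeff k (tay D τ (a * b)) =
      PowerSeries.coeff k (tay D τ a * tay D τ b) := by
    intro k
    induction k with
    | zero =>
      intro a b
      have h0 : ∀ u : PowerSeries R, PowerSeries.coeff 0 u = PowerSeries.constantCoeff u :=
        fun u => PowerSeries.coeff_zero_eq_constantCoeff_apply u
      rw [h0 (tay D τ a * tay D τ b), map_mul, ← h0, ← h0, coeff_tay, coeff_tay, coeff_tay]
      simp
    | succ k ih =>
      intro a b
      have h1 : ((k + 1 : ℕ) : R) ≠ 0 := Nat.cast_ne_zero.2 (Nat.succ_ne_zero k)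
      apply mul_left_cancel₀ h1
      rw [coeff_succ_tay, Derivation.leibniz, smul_eq_mul, smul_eq_mul, tay_add, map_add, ih, ih]
      have h2 : ∀ c : K, PowerSeries.derivative R (tay D τ c) = tay D τ (D c) := by
        intro c
        ext j
        rw [PowerSeries.coeff_derivative, ← coeff_succ_tay]
        push_cast
        ring
      have h3 := PowerSeries.coeff_derivative (R := R) (tay D τ a * tay D τ b) k
      rw [Derivation.leibniz, smul_eq_mul, smul_eq_mul, h2, h2, map_add] at h3
      rw [h3]
      push_cast
      ring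
  ext k
  exact key k a b

theorem tay_one (D : Derivation ℤ K K) (τ : K →+* R) : tay D τ 1 = 1 := by
  ext k
  rw [coeff_tay, PowerSeries.coeff_one]
  rcases k with _ | k
  · simp
  · rw [Function.iterate_succ_apply, Derivation.map_one_eq_zero]
    have : (⇑D)^[k] (0 : K) = 0 := by
      have := Function.iterate_fixed (f := ⇑D) (x := 0) (map_zero D) k
      exact this
    rw [this]
    simp

theorem tay_zero (D : Derivation ℤ K K) (τ : K →+* R) : tay D τ 0 = 0 := by
  have h := tay_add D τ 0 0
  rw [add_zero] at h
  exact left_eq_add.1 h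

/-- the Taylor homomorphism -/
noncomputable def tayHom (D : Derivation ℤ K K) (τ : K →+* R) : K →+* PowerSeries R where
  toFun := tay D τ
  map_one' := tay_one D τ
  map_mul' := tay_mul D τ
  map_zero' := tay_zero D τ
  map_add' := tay_add D τ

theorem tayHom_apply (D : Derivation ℤ K K) (τ : K →+* R) (w : K) :
    tayHom D τ w = tay D τ w := rfl

end tay

section poly

variable {K : Type} [Field K]

theorem derivation_aeval {m : ℕ} (D : Derivation ℤ K K)
    (D' : Derivation ℤ (MvPolynomial (Fin m) ℤ) (MvPolynomial (Fin m) ℤ)) (e : Fin m → K)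
    (h : ∀ i, D (e i) = aeval e (D' (X i))) (q : MvPolynomial (Fin m) ℤ) :
    D (aeval e q) = aeval e (D' q) := by
  induction q using MvPolynomial.induction_on with
  | C a =>
    have h1 : D' (C a) = 0 := D'.map_algebraMap a
    rw [h1, map_zero]
    simp
  | add p q hp hq => rw [map_add, map_add, map_add, map_add, hp, hq]
  | mul_X p i hp =>
    rw [map_mul, aeval_X, Derivation.leibniz, Derivation.leibniz, smul_eq_mul, smul_eq_mul,
      smul_eq_mul, smul_eq_mul, map_add, map_mul, map_mul, aeval_X, hp, h]

theorem derivation_iterate_aeval {m : ℕ} (D : Derivation ℤ K K)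
    (D' : Derivation ℤ (MvPolynomial (Fin m) ℤ) (MvPolynomial (Fin m) ℤ)) (e : Fin m → K)
    (h : ∀ i, D (e i) = aeval e (D' (X i))) (k : ℕ) (q : MvPolynomial (Fin m) ℤ) :
    (⇑D)^[k] (aeval e q) = aeval e ((⇑D')^[k] q) := by
  induction k generalizing q with
  | zero => rfl
  | succ k ih =>
    rw [Function.iterate_succ_apply, Function.iterate_succ_apply, derivation_aeval D D' e h, ih]

theorem totalDegree_derivation {m : ℕ}
    (D' : Derivation ℤ (MvPolynomial (Fin m) ℤ) (MvPolynomial (Fin m) ℤ)) (c : ℕ)
    (h : ∀ i, (D' (X i)).totalDegree ≤ c) (q : MvPolynomial (Fin m) ℤ) :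
    (D' q).totalDegree ≤ q.totalDegree + c := by
  have hmon : ∀ (s : Fin m →₀ ℕ) (a : ℤ),
      (D' (monomial s a)).totalDegree ≤ (s.sum fun _ e => e) + c := by
    intro s
    induction s using Finsupp.induction with
    | zero =>
      intro a
      have h1 : D' (monomial 0 a) = 0 := D'.map_algebraMap a
      rw [h1, totalDegree_zero]
      exact Nat.zero_le _
    | single_add i n s hi hn ih =>
      intro a
      have h1 : (monomial (Finsupp.single i n + s) a : MvPolynomial (Fin m) ℤ) =
          X i ^ n * monomial s a := by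
        rw [X_pow_eq_monomial, monomial_mul, one_mul]
      have h2 : ((Finsupp.single i n + s).sum fun _ e => e) = n + s.sum fun _ e => e := by
        rw [Finsupp.sum_add_index' (fun _ => rfl) (fun _ _ _ => rfl)]
        simp
      rw [h1, h2, Derivation.leibniz, Derivation.leibniz_pow, smul_eq_mul, smul_eq_mul]
      refine (totalDegree_add _ _).trans (max_le ?_ ?_)
      · refine (totalDegree_mul _ _).trans ?_
        have h3 : (X i ^ n : MvPolynomial (Fin m) ℤ).totalDegree ≤ n := by
          rw [totalDegree_X_pow]
        have := ih a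
        omega
      · refine (totalDegree_mul _ _).trans ?_
        have h3 : (monomial s a : MvPolynomial (Fin m) ℤ).totalDegree ≤ s.sum fun _ e => e := by
          exact totalDegree_monomial_le s a
        have h4 : (n • (X i : MvPolynomial (Fin m) ℤ) ^ (n - 1) • D' (X i)).totalDegree
            ≤ n - 1 + c := by
          refine (totalDegree_smul_le _ _).trans ?_
          rw [smul_eq_mul]
          refine (totalDegree_mul _ _).trans ?_
          have h5 : (X i ^ (n - 1) : MvPolynomial (Fin m) ℤ).totalDegree ≤ n - 1 := by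
            rw [totalDegree_X_pow]
          have := h i
          omega
        omega
  rw [← support_sum_monomial_coeff q, map_sum]
  refine (totalDegree_finsetSum _ _).trans (Finset.sup_le fun s hs => ?_)
  refine (hmon s _).trans ?_
  rw [support_sum_monomial_coeff q]
  have := le_totalDegree hs
  omega

theorem totalDegree_iterate {m : ℕ}
    (D' : Derivation ℤ (MvPolynomial (Fin m) ℤ) (MvPolynomial (Fin m) ℤ)) (c : ℕ)
    (h : ∀ i, (D' (X i)).totalDegree ≤ c) (k : ℕ) (q : MvPolynomial (Fin m) ℤ) :
    ((⇑D')^[k] q).totalDegree ≤ q.totalDegree + c * k := by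
  induction k generalizing q with
  | zero => simp
  | succ k ih =>
    rw [Function.iterate_succ_apply]
    have h1 := ih (D' q)
    have h2 := totalDegree_derivation D' c h q
    have h3 : c * (k + 1) = c * k + c := by ring
    omega

end poly

end Pool.Agent.Lib.MP_1e09a3_nt.CF
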