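import Mathlib
import Pool.Agent.Lib.MP_1e09a3_nt.CF.Stmts73

/-!
MP_1e09a3_nt, complete flows, module 6: an element is algebraic if the traces of its powers are.
-/

set_option autoImplicit false

open MvPolynomial

namespace Pool.Agent.Lib.MP_1e09a3_nt.CF

theorem traceAlg_96 : TraceAlgStmt := by
  intro k K K₁ _ _ _ _ _ _ _ _ _ y hy
  have hint : IsIntegral K y := Algebra.IsIntegral.isIntegral y
  set L := IntermediateField.adjoin K {y} with hL
  set pb : PowerBasis K L := IntermediateField.adjoin.powerBasis hint with hpb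
  have hgen : (pb.gen : K₁) = y := by
    rw [hpb, IntermediateField.adjoin.powerBasis_gen]
    exact IntermediateField.AdjoinSimple.coe_gen K y
  have : FiniteDimensional K L := pb.finite
  have : FiniteDimensional L K₁ := FiniteDimensional.right K L K₁
  set k' := algebraicClosure k K with hk'
  have ht : ∀ n : ℕ, Algebra.trace K L (pb.gen ^ n) ∈ k' := by
    intro n
    have h1 : Algebra.trace K K₁ (y ^ n) =
        (Module.finrank L K₁ : K) * Algebra.trace K L (pb.gen ^ n) := by
      rw [← Algebra.trace_trace (S := L)]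
      have e0 : algebraMap L K₁ pb.gen = y := hgen
      have e : y ^ n = algebraMap L K₁ (pb.gen ^ n) := by
        rw [map_pow, e0]
      rw [e, Algebra.trace_algebraMap, map_nsmul, nsmul_eq_mul]
    have h2 : Algebra.trace K K₁ (y ^ n) ∈ k' := by
      rw [hk', mem_algebraicClosure_iff]
      exact hy n
    have h3 : (Module.finrank L K₁ : K) ≠ 0 := by
      have : 0 < Module.finrank L K₁ := Module.finrank_pos
      exact_mod_cast this.ne'
    have h4 : Algebra.trace K L (pb.gen ^ n) =
        Algebra.trace K K₁ (y ^ n) / (Module.finrank L K₁ : K) := by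
      rw [h1]
      field_simp
    rw [h4]
    exact div_mem h2 (natCast_mem k' _)
  -- the linear system
  set m := pb.dim with hm
  set M : Matrix (Fin m) (Fin m) K := Algebra.traceMatrix K pb.basis with hM
  have hMe : ∀ i j, M i j = Algebra.trace K L (pb.gen ^ ((i : ℕ) + (j : ℕ))) := by
    intro i j
    rw [hM, Algebra.traceMatrix_apply, Algebra.traceForm_apply, pb.basis_eq_pow, pb.basis_eq_pow,
      ← pow_add]
  have hdet : M.det ≠ 0 := by
    have := Algebra.discr_not_zero_of_basis K pb.basis
    rwa [Algebra.discr_def] at this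
  set a : Fin m → K := fun j => pb.basis.repr (pb.gen ^ m) j with ha
  have hga : pb.gen ^ m = ∑ j, a j • pb.gen ^ (j : ℕ) := by
    have h9 := pb.basis.sum_repr (pb.gen ^ m)
    nth_rewrite 1 [← h9]
    refine Finset.sum_congr rfl fun j _ => ?_
    rw [pb.basis_eq_pow]
  have hMa : M.mulVec a = fun i : Fin m => Algebra.trace K L (pb.gen ^ ((i : ℕ) + m)) := by
    funext i
    rw [pow_add, hga, Finset.mul_sum, map_sum, Matrix.mulVec, dotProduct]
    refine Finset.sum_congr rfl fun j _ => ?_
    rw [mul_smul_comm, map_smul, smul_eq_mul, ← pow_add, hMe, mul_comm]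
  set M' : Matrix (Fin m) (Fin m) k' := Matrix.of fun i j =>
    ⟨Algebra.trace K L (pb.gen ^ ((i : ℕ) + (j : ℕ))), ht _⟩ with hM'
  set b' : Fin m → k' := fun i => ⟨Algebra.trace K L (pb.gen ^ ((i : ℕ) + m)), ht _⟩ with hb'
  have hMM : M'.map (algebraMap k' K) = M := by
    ext i j
    rw [hMe]
    rfl
  have hdet' : M'.det ≠ 0 := by
    intro h0
    apply hdet
    rw [← hMM]
    have h5 := RingHom.map_det (algebraMap k' K) M'
    rw [h0, map_zero] at h5
    exact h5.symm
  have hu : IsUnit M'.det := isUnit_iff_ne_zero.2 hdet'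
  set a' : Fin m → k' := M'⁻¹.mulVec b' with ha'
  have hMa' : M'.mulVec a' = b' := by
    rw [ha', Matrix.mulVec_mulVec, Matrix.mul_nonsing_inv _ hu, Matrix.one_mulVec]
  have haa : (fun i => algebraMap k' K (a' i)) = a := by
    have h5 : M.mulVec (fun i => algebraMap k' K (a' i)) = M.mulVec a := by
      rw [hMa, ← hMM]
      funext i
      have h6 := congrArg (algebraMap k' K) (congrFun hMa' i)
      have h7 := RingHom.map_mulVec (algebraMap k' K) M' a' i
      rw [h6] at h7
      have h8 : (M'.map ⇑(algebraMap k' K)).mulVec (fun i => algebraMap k' K (a' i)) i =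
        (M'.map ⇑(algebraMap k' K)).mulVec (⇑(algebraMap k' K) ∘ a') i := rfl
      rw [h8, ← h7]
      rfl
    exact Matrix.mulVec_injective_iff_isUnit.2
      ((Matrix.isUnit_iff_isUnit_det _).2 (isUnit_iff_ne_zero.2 hdet)) h5
  -- y is algebraic over k'
  have hy' : IsAlgebraic k' y := by
    refine ⟨Polynomial.X ^ m - ∑ j : Fin m, Polynomial.C (a' j) * Polynomial.X ^ (j : ℕ), ?_, ?_⟩
    · have hdeg : (∑ j : Fin m, Polynomial.C (a' j) * Polynomial.X ^ (j : ℕ)).degree <
          (m : WithBot ℕ) := Polynomial.degree_sum_fin_lt a'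
      exact (Polynomial.monic_X_pow_sub hdeg).ne_zero
    · rw [map_sub, map_pow, Polynomial.aeval_X, map_sum, sub_eq_zero]
      have e1 := congrArg (algebraMap L K₁) hga
      have e2 : algebraMap L K₁ pb.gen = y := hgen
      rw [map_pow, e2, map_sum] at e1
      rw [e1]
      refine Finset.sum_congr rfl fun j _ => ?_
      rw [map_mul, map_pow, Polynomial.aeval_X, Polynomial.aeval_C, Algebra.smul_def, map_mul,
        map_pow, e2]
      congr 1
      rw [← haa]
      rfl
  exact hy'.restrictScalars k

end Pool.Agent.Lib.MP_1e09a3_nt.CF
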